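import Pool.Agent.H757_X15.StmD
import Pool.Agent.H66R2.RZ_FI1

/-!
Project X15-D, part DEN2: the number of the squarefree numbers `≡ 1` or `49` modulo `60`.
-/

set_option autoImplicit false

open scoped Classical

namespace Pool.Agent.H757_X15.DD.DEN2

open Finset Filter Topology
open Pool.Agent.H66R2.RZFI1 (mu mu_abs mu_summable mu_tsum mu_sq_eq)

/-- the terms of the sum over the numbers prime to `m` -/
noncomputable def gm (m d : ℕ) : ℝ := if Nat.Coprime d m then mu d / (d : ℝ) ^ 2 else 0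

theorem gm_summable (m : ℕ) : Summable (gm m) := by
  apply Summable.of_norm_bounded (g := fun d : ℕ => ‖mu d / (d : ℝ) ^ 2‖) mu_summable.norm
  intro d
  unfold gm
  split_ifs
  · exact le_rfl
  · rw [norm_zero]; exact norm_nonneg _

theorem mu_mul_prime {p : ℕ} (hp : p.Prime) (b : ℕ) :
    mu (p * b) = if Nat.Coprime b p then -mu b else 0 := by
  unfold mu
  split_ifs with h
  · rw [ArithmeticFunction.isMultiplicative_moebius.map_mul_of_coprime h.symm,
      ArithmeticFunction.moebius_apply_prime hp]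
    push_cast; ring
  · have hd : p ∣ b := by
      by_contra hd
      exact h ((Nat.Prime.coprime_iff_not_dvd hp).2 hd).symm
    obtain ⟨c, rfl⟩ := hd
    have : ¬ Squarefree (p * (p * c)) := by
      intro hsq
      have h2 := hsq p ⟨c, by ring⟩
      rw [Nat.isUnit_iff] at h2
      exact hp.one_lt.ne' h2
    rw [ArithmeticFunction.moebius_eq_zero_of_not_squarefree this]
    simp

theorem gm_step {m p : ℕ} (hp : p.Prime) (hpm : Nat.Coprime p m) :
    ∑' d, gm m d = (1 - 1 / (p : ℝ) ^ 2) * ∑' d, gm (m * p) d := by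
  have hp0 : (p : ℝ) ≠ 0 := by exact_mod_cast hp.ne_zero
  set h : ℕ → ℝ := fun d => if p ∣ d then gm m d else 0 with hh
  have e1 : ∀ d, gm m d = gm (m * p) d + h d := by
    intro d
    rw [hh]
    unfold gm
    simp only
    by_cases h1 : Nat.Coprime d m
    · by_cases h2 : p ∣ d
      · have h3 : ¬ Nat.Coprime d (m * p) := fun h3 =>
          (Nat.Prime.coprime_iff_not_dvd hp).1 (Nat.Coprime.coprime_mul_left_right h3).symm h2
        rw [if_pos h1, if_neg h3, if_pos h2, zero_add]
      · have h3 : Nat.Coprime d (m * p) :=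
          Nat.Coprime.mul_right h1 ((Nat.Prime.coprime_iff_not_dvd hp).2 h2).symm
        rw [if_pos h1, if_pos h3, if_neg h2, add_zero]
    · have h3 : ¬ Nat.Coprime d (m * p) := fun h3 => h1 (Nat.Coprime.coprime_mul_right_right h3)
      rw [if_neg h1, if_neg h3]
      split_ifs <;> simp
  have e2 : ∀ e, h (p * e) = -(1 / (p : ℝ) ^ 2) * gm (m * p) e := by
    intro e
    rw [hh]
    unfold gm
    simp only
    rw [if_pos (dvd_mul_right p e)]
    by_cases h1 : Nat.Coprime e m
    · rw [if_pos (Nat.Coprime.mul_left hpm h1), mu_mul_prime hp]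
      by_cases h2 : Nat.Coprime e p
      · rw [if_pos h2, if_pos (Nat.Coprime.mul_right h1 h2)]
        push_cast
        field_simp
      · rw [if_neg h2, if_neg (fun h3 => h2 (Nat.Coprime.coprime_mul_left_right h3))]
        simp
    · rw [if_neg (fun h3 => h1 (Nat.Coprime.coprime_mul_left h3)),
        if_neg (fun h3 => h1 (Nat.Coprime.coprime_mul_right_right h3)), mul_zero]
  have e3 : ∑' e, h (p * e) = ∑' d, h d := by
    refine Function.Injective.tsum_eq (g := fun e => p * e)
      (fun a b hab => Nat.eq_of_mul_eq_mul_left hp.pos hab) ?_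
    intro d hd
    rw [Function.mem_support, hh] at hd
    simp only at hd
    by_cases h2 : p ∣ d
    · obtain ⟨e, rfl⟩ := h2
      exact ⟨e, rfl⟩
    · rw [if_neg h2] at hd
      exact absurd rfl hd
  have hs : Summable h := by
    have h1 := (gm_summable m).sub (gm_summable (m * p))
    refine h1.congr fun d => ?_
    rw [e1 d]
    ring
  rw [tsum_congr e1, (gm_summable (m * p)).tsum_add hs, ← e3]
  simp only [e2, tsum_mul_left]
  ring

theorem gm_thirty : ∑' d, gm 30 d = 75 / (8 * Real.pi ^ 2) := by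
  have hpi : Real.pi ^ 2 ≠ 0 := by positivity
  have h0 : ∑' d, gm 1 d = 6 / Real.pi ^ 2 := by
    rw [← mu_tsum]
    refine tsum_congr fun d => ?_
    unfold gm
    rw [if_pos (Nat.coprime_one_right d)]
  have h1 := gm_step (m := 1) (p := 2) Nat.prime_two (by norm_num)
  have h2 := gm_step (m := 1 * 2) (p := 3) Nat.prime_three (by norm_num)
  have h3 := gm_step (m := 1 * 2 * 3) (p := 5) Nat.prime_five (by norm_num)
  rw [h2, h3, h0] at h1
  have e : gm (1 * 2 * 3 * 5) = gm 30 := by norm_num
  rw [e] at h1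
  generalize (∑' d, gm 30 d) = x at h1 ⊢
  rw [eq_div_iff (by positivity)]
  rw [div_eq_iff hpi] at h1
  push_cast at h1
  linarith

/-- number of members up to `X` -/
noncomputable def nA (X : ℕ) : ℕ := ((range (X + 1)).filter Fm).card

theorem nA_eq (X : ℕ) : nA X = (X + 59) / 60 + (X + 11) / 60 := by
  induction X with
  | zero =>
    have h : (range (0 + 1)).filter Fm = ∅ := by
      rw [Finset.filter_eq_empty_iff]
      intro n hn
      rw [Finset.mem_range] at hn
      have h0 : n = 0 := by omega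
      subst h0
      unfold Fm
      norm_num
    unfold nA
    rw [h]
    norm_num
  | succ Y ih =>
    unfold nA at ih ⊢
    rw [Finset.range_add_one, Finset.filter_insert]
    split_ifs with h
    · rw [Finset.card_insert_of_notMem (by simp), ih]
      unfold Fm at h
      omega
    · rw [ih]
      unfold Fm at h
      omega

theorem nA_le (X : ℕ) : nA X ≤ X := by
  rw [nA_eq]
  omega

theorem nA_lim : Tendsto (fun X : ℕ => (nA X : ℝ) / X) atTop (𝓝 (1 / 30)) := by
  rw [tendsto_iff_norm_sub_tendsto_zero]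
  have hz : Tendsto (fun X : ℕ => (4 : ℝ) * (1 / (X : ℝ))) atTop (𝓝 (4 * 0)) :=
    (tendsto_one_div_atTop_nhds_zero_nat (𝕜 := ℝ)).const_mul 4
  rw [mul_zero] at hz
  refine squeeze_zero' (Eventually.of_forall fun _ => norm_nonneg _) ?_ hz
  filter_upwards [eventually_ge_atTop 1] with X hX
  have hX0 : (0 : ℝ) < X := by exact_mod_cast hX
  have h1 : 30 * nA X ≤ X + 120 := by rw [nA_eq]; omega
  have h2 : X ≤ 30 * nA X + 120 := by rw [nA_eq]; omega
  have h1' : (30 : ℝ) * nA X ≤ X + 120 := by exact_mod_cast h1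
  have h2' : (X : ℝ) ≤ 30 * nA X + 120 := by exact_mod_cast h2
  rw [Real.norm_eq_abs]
  have e1 : (nA X : ℝ) / X - 1 / 30 = ((nA X : ℝ) - X / 30) / X := by
    field_simp
  rw [e1, abs_div, abs_of_pos hX0, mul_one_div]
  refine div_le_div_of_nonneg_right ?_ hX0.le
  rw [abs_le]
  constructor <;> linarith

theorem Fm_coprime {d : ℕ} (h : Fm d) : Nat.Coprime d 30 := by
  unfold Fm at h
  have h1 : d % 30 = 1 ∨ d % 30 = 19 := by omega
  rw [Nat.coprime_iff_gcd_eq_one, Nat.gcd_comm, Nat.gcd_rec]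
  rcases h1 with h1 | h1 <;> rw [h1] <;> norm_num

theorem Fm_pos {d : ℕ} (h : Fm d) : 0 < d := by
  unfold Fm at h
  omega

theorem Fm_sq {a : ℕ} (ha : Nat.Coprime a 30) (d : ℕ) : Fm (a ^ 2 * d) ↔ Fm d := by
  have h1 : (a % 60) ∈ (range 60).filter fun b => Nat.Coprime b 30 := by
    rw [Finset.mem_filter, Finset.mem_range]
    refine ⟨Nat.mod_lt _ (by norm_num), ?_⟩
    rw [Nat.coprime_iff_gcd_eq_one, Nat.gcd_comm, Nat.gcd_rec, Nat.mod_mod_of_dvd a (by norm_num : 30 ∣ 60),
      ← Nat.gcd_rec, Nat.gcd_comm]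
    exact ha
  have h2 : ∀ b ∈ (range 60).filter (fun b => Nat.Coprime b 30), b * b % 60 = 1 ∨ b * b % 60 = 49 := by
    decide
  have h3 := h2 _ h1
  rw [← Nat.mul_mod] at h3
  unfold Fm
  rw [sq, Nat.mul_mod]
  rcases h3 with h3 | h3 <;> rw [h3]
  · omega
  · omega

theorem sq_div (a X : ℕ) (ha : 0 < a) :
    ((X / a ^ 2 : ℕ) : ℝ) ≤ (X : ℝ) / (a : ℝ) ^ 2 ∧
    (X : ℝ) / (a : ℝ) ^ 2 < ((X / a ^ 2 : ℕ) : ℝ) + 1 := by
  have ha0 : (0 : ℝ) < (a : ℝ) ^ 2 := by positivity
  constructor
  · have := Nat.cast_div_le (α := ℝ) (m := X) (n := a ^ 2)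
    push_cast at this
    exact this
  · have h3 : X < (X / a ^ 2 + 1) * a ^ 2 := by
      have ha2 : 0 < a ^ 2 := by positivity
      exact (Nat.div_lt_iff_lt_mul ha2).mp (Nat.lt_succ_self _)
    rw [div_lt_iff₀ ha0]
    exact_mod_cast h3

theorem card_mult (X a : ℕ) :
    ((range (X + 1)).filter fun n => Fm n ∧ a ^ 2 ∣ n).card =
    if Nat.Coprime a 30 then nA (X / a ^ 2) else 0 := by
  split_ifs with ha
  · have ha0 : 0 < a := by
      rcases Nat.eq_zero_or_pos a with rfl | h
      · norm_num at ha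
      · exact h
    have ha2 : 0 < a ^ 2 := by positivity
    unfold nA
    symm
    apply Finset.card_bij (fun m _ => a ^ 2 * m)
    · intro m hm
      rw [Finset.mem_filter, Finset.mem_range] at hm ⊢
      refine ⟨?_, (Fm_sq ha m).2 hm.2, dvd_mul_right _ _⟩
      have h1 : m ≤ X / a ^ 2 := by omega
      rw [Nat.le_div_iff_mul_le ha2] at h1
      rw [mul_comm]
      omega
    · intro m _ m' _ h
      exact Nat.eq_of_mul_eq_mul_left ha2 h
    · intro n hn
      rw [Finset.mem_filter, Finset.mem_range] at hn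
      obtain ⟨hn1, hn2, m, hm⟩ := hn
      refine ⟨m, ?_, hm.symm⟩
      rw [Finset.mem_filter, Finset.mem_range]
      rw [hm, Fm_sq ha m] at hn2
      refine ⟨?_, hn2⟩
      have : m ≤ X / a ^ 2 := by
        rw [Nat.le_div_iff_mul_le ha2, mul_comm, ← hm]
        omega
      omega
  · rw [Finset.card_eq_zero, Finset.filter_eq_empty_iff]
    rintro n _ ⟨hn, hd⟩
    apply ha
    have hn' := Fm_coprime hn
    have h1 := Nat.Coprime.coprime_dvd_left hd hn'
    exact (Nat.coprime_pow_left_iff (by norm_num) _ _).1 h1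

theorem count_eq (X : ℕ) :
    (((Icc 1 X).filter fun D => Squarefree D ∧ Fm D).card : ℝ) =
    ∑' a : ℕ, if Nat.Coprime a 30 then mu a * nA (X / a ^ 2) else 0 := by
  have h1 : ((Icc 1 X).filter fun D => Squarefree D ∧ Fm D) =
      ((range (X + 1)).filter fun n => Fm n ∧ Squarefree n : Finset ℕ) := by
    ext n
    simp only [Finset.mem_filter, Finset.mem_Icc, Finset.mem_range]
    constructor
    · rintro ⟨h, h2, h3⟩
      exact ⟨by omega, h3, h2⟩
    · rintro ⟨h, h2, h3⟩
      have := Fm_pos h2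
      exact ⟨⟨by omega, by omega⟩, h3, h2⟩
  rw [h1, Finset.card_filter]
  push_cast
  have h2 : ∀ n ∈ range (X + 1), (if Fm n ∧ Squarefree n then (1 : ℝ) else 0) =
      ∑' a : ℕ, if Fm n ∧ a ^ 2 ∣ n then mu a else 0 := by
    intro n _
    by_cases hn : Fm n
    · have := mu_sq_eq n (Fm_pos hn).ne'
      simp only [hn, true_and]
      exact this
    · simp [hn]
  rw [Finset.sum_congr rfl h2, ← Summable.tsum_finsetSum]
  · apply tsum_congr
    intro a
    have h3 : ∑ n ∈ range (X + 1), (if Fm n ∧ a ^ 2 ∣ n then mu a else 0) =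
        mu a * (((range (X + 1)).filter fun n => Fm n ∧ a ^ 2 ∣ n).card : ℝ) := by
      rw [← Finset.sum_filter, Finset.sum_const, nsmul_eq_mul, mul_comm]
    rw [h3, card_mult]
    split_ifs <;> simp
  · intro n _
    apply summable_of_hasFiniteSupport
    apply Set.Finite.subset (Finset.finite_toSet (range (n + 1)))
    intro a ha
    rw [Function.mem_support] at ha
    have h4 : Fm n ∧ a ^ 2 ∣ n := by
      by_contra h5
      rw [if_neg h5] at ha
      exact ha rfl
    have hn0 : 0 < n := Fm_pos h4.1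
    have h6 : a ^ 2 ≤ n := Nat.le_of_dvd hn0 h4.2
    have h7 : a ≤ n := by nlinarith
    simp only [Finset.coe_range, Set.mem_Iio]
    omega

end Pool.Agent.H757_X15.DD.DEN2

namespace Pool.Agent.H757_X15.DD

open Finset Filter Topology DEN2
open Pool.Agent.H66R2.RZFI1 (mu mu_abs)

/-- DEN2: the number of the squarefree numbers of the class. -/
theorem t_DEN2 : S_DEN2 := by
  unfold S_DEN2
  have hval : (5 / (16 * Real.pi ^ 2) : ℝ) = ∑' d : ℕ, gm 30 d * (1 / 30) := by
    rw [tsum_mul_right, gm_thirty]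
    have hpi : Real.pi ^ 2 ≠ 0 := by positivity
    field_simp
    norm_num
  rw [hval]
  have e : (fun X : ℕ => (((Icc 1 X).filter fun D => Squarefree D ∧ Fm D).card : ℝ) / X) =
      fun X : ℕ => ∑' a : ℕ, (if Nat.Coprime a 30 then mu a * nA (X / a ^ 2) else 0) / X := by
    funext X
    rw [count_eq, tsum_div_const]
  rw [e]
  have hpos : ∀ a : ℕ, Nat.Coprime a 30 → 0 < a := by
    intro a ha
    rcases Nat.eq_zero_or_pos a with rfl | h
    · norm_num at ha
    · exact h
  apply tendsto_tsum_of_dominated_convergence (bound := fun a : ℕ => 1 / (a : ℝ) ^ 2)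
    (Real.summable_one_div_nat_pow.mpr one_lt_two)
  · intro a
    unfold gm
    by_cases ha : Nat.Coprime a 30
    · simp only [if_pos ha]
      have ha1 := hpos a ha
      have ha0 : (0 : ℝ) < (a : ℝ) ^ 2 := by positivity
      have hdiv : Tendsto (fun X : ℕ => X / a ^ 2) atTop atTop :=
        Nat.tendsto_div_const_atTop (pow_ne_zero 2 ha1.ne')
      have l1 := nA_lim.comp hdiv
      have l2 : Tendsto (fun X : ℕ => ((X / a ^ 2 : ℕ) : ℝ) / X) atTop (𝓝 (1 / (a : ℝ) ^ 2)) := by
        rw [tendsto_iff_norm_sub_tendsto_zero]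
        refine squeeze_zero' (Eventually.of_forall fun _ => norm_nonneg _) ?_
          (tendsto_one_div_atTop_nhds_zero_nat (𝕜 := ℝ))
        filter_upwards [eventually_ge_atTop 1] with X hX
        have hX0 : (0 : ℝ) < X := by exact_mod_cast hX
        obtain ⟨h1, h2⟩ := sq_div a X ha1
        rw [Real.norm_eq_abs]
        have e1 : ((X / a ^ 2 : ℕ) : ℝ) / X - 1 / (a : ℝ) ^ 2 =
            (((X / a ^ 2 : ℕ) : ℝ) - (X : ℝ) / (a : ℝ) ^ 2) / X := by
          field_simp
        rw [e1, abs_div, abs_of_pos hX0]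
        refine div_le_div_of_nonneg_right ?_ hX0.le
        rw [abs_le]
        constructor <;> linarith
      have l3 := (l1.mul l2).const_mul (mu a)
      have e1 : mu a / (a : ℝ) ^ 2 * (1 / 30) = mu a * (1 / 30 * (1 / (a : ℝ) ^ 2)) := by ring
      rw [e1]
      refine l3.congr fun X => ?_
      simp only [Function.comp_apply]
      by_cases h0 : X / a ^ 2 = 0
      · rw [h0]
        have : nA 0 = 0 := Nat.le_zero.1 (nA_le 0)
        rw [this]
        simp
      · have h0' : ((X / a ^ 2 : ℕ) : ℝ) ≠ 0 := by exact_mod_cast h0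
        rw [mul_div_assoc]
        congr 1
        field_simp
    · simp only [if_neg ha]
      simp
  · rw [eventually_atTop]
    refine ⟨1, fun X hX a => ?_⟩
    have hX0 : (0 : ℝ) < X := by exact_mod_cast hX
    by_cases ha : Nat.Coprime a 30
    · simp only [if_pos ha]
      have ha1 := hpos a ha
      have ha0 : (0 : ℝ) < (a : ℝ) ^ 2 := by positivity
      rw [norm_div, norm_mul, Real.norm_natCast, Real.norm_natCast, Real.norm_eq_abs]
      have h1 : (nA (X / a ^ 2) : ℝ) ≤ (X : ℝ) / (a : ℝ) ^ 2 := by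
        have h2 : (nA (X / a ^ 2) : ℝ) ≤ ((X / a ^ 2 : ℕ) : ℝ) := by
          exact_mod_cast nA_le _
        exact h2.trans (sq_div a X ha1).1
      calc |mu a| * (nA (X / a ^ 2) : ℝ) / X ≤ 1 * ((X : ℝ) / (a : ℝ) ^ 2) / X := by
            gcongr
            exact mu_abs a
        _ = 1 / (a : ℝ) ^ 2 := by field_simp
    · simp only [if_neg ha]
      rw [zero_div, norm_zero]
      positivity

end Pool.Agent.H757_X15.DD
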