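import Pool.Agent.H757_X15.StmD

/-!
# X15-D5: the criterion in terms of the matrix, and the translation to numbers
-/

set_option autoImplicit false
set_option linter.all false

open Finset
open scoped Classical

namespace Pool.Agent.H757_X15.DD

open Pool.Agent.Y703.CQ (nr)

/-- the sign of an element of the field with two elements -/
def sI (a : ZMod 2) : ℤ := if a = 0 then 1 else -1

theorem sI_add (a b : ZMod 2) : sI (a + b) = sI a * sI b := by
  revert a b
  decide

theorem sI_eq (a : ZMod 2) : sI a = 1 ↔ a = 0 := by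
  revert a
  decide

theorem sI_sum (T : Finset ℕ) (f : ℕ → ZMod 2) : sI (∑ q ∈ T, f q) = ∏ q ∈ T, sI (f q) := by
  induction T using Finset.induction_on with
  | empty => simp [sI]
  | insert a T ha ih => rw [sum_insert ha, prod_insert ha, sI_add, ih]

theorem jac_nr {p q : ℕ} (hp : p.Prime) (hq : q.Prime) (hne : p ≠ q) :
    jacobiSym (q : ℤ) p = sI (nr p q) := by
  haveI : Fact p.Prime := ⟨hp⟩
  have h0 : ((q : ℤ) : ZMod p) ≠ 0 := by
    intro h
    rw [Int.cast_natCast, ZMod.natCast_eq_zero_iff] at h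
    exact hne ((Nat.prime_dvd_prime_iff_eq hp hq).1 h)
  rw [← jacobiSym.legendreSym.to_jacobiSym]
  unfold sI nr
  by_cases h : IsSquare (q : ZMod p)
  · rw [if_pos h, if_pos rfl, legendreSym.eq_one_iff p h0]
    simpa using h
  · rw [if_neg h, if_neg one_ne_zero, legendreSym.eq_neg_one_iff]
    simpa using h

theorem jac_prod (p : ℕ) (T : Finset ℕ) :
    jacobiSym ((∏ q ∈ T, q : ℕ) : ℤ) p = ∏ q ∈ T, jacobiSym (q : ℤ) p := by
  induction T using Finset.induction_on with
  | empty => simp [jacobiSym.one_left]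
  | insert a T ha ih => rw [prod_insert ha, prod_insert ha, Nat.cast_mul, jacobiSym.mul_left, ih]

theorem jac_five {q : ℕ} (h : q % 5 ≠ 0) : jacobiSym (q : ℤ) 5 = sI (bb q) := by
  rw [jacobiSym.mod_left]
  have h1 : ((q : ℤ) % ((5 : ℕ) : ℤ)) = ((q % 5 : ℕ) : ℤ) := by push_cast; rfl
  rw [h1]
  unfold sI bb
  have h5 : q % 5 < 5 := Nat.mod_lt _ (by norm_num)
  generalize q % 5 = r at *
  interval_cases r
  · exact absurd rfl h
  · norm_num
  · norm_num
  · norm_num
  · norm_num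

theorem jac_neg {p : ℕ} (hp : p.Prime) (hp2 : p ≠ 2) : jacobiSym (-1) p = sI (aa p) := by
  have ho := hp.odd_of_ne_two hp2
  rw [jacobiSym.at_neg_one ho]
  unfold sI aa
  have h1 := Nat.odd_iff.1 ho
  by_cases h : p % 4 = 3
  · rw [ZMod.χ₄_nat_three_mod_four h, if_pos h, if_neg one_ne_zero]
  · rw [ZMod.χ₄_nat_one_mod_four (by omega), if_neg h, if_pos rfl]

theorem z2 (a : ZMod 2) : a + a = 0 := by
  revert a
  decide

/-- the kernel and the symbols of a divisor -/
theorem crit_key {D : ℕ} (hD : Squarefree D) (hF : Fm D) (T : Finset ℕ) (hT : T ⊆ D.primeFactors)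
    (x : ℕ → ZMod 2) (hx : ∀ q ∈ D.primeFactors, x q = if q ∈ T then 1 else 0) :
    Sol D.primeFactors x ↔
      ((∀ p : ℕ, p.Prime → p ∣ D → ¬ p ∣ (∏ q ∈ T, q) → jacobiSym ((∏ q ∈ T, q : ℕ) : ℤ) p = 1) ∧
      (∀ p : ℕ, p.Prime → p ∣ (∏ q ∈ T, q) →
        jacobiSym (-((D / (∏ q ∈ T, q) : ℕ) : ℤ)) p = 1) ∧
      jacobiSym ((∏ q ∈ T, q : ℕ) : ℤ) 5 = 1) := by
  set S := D.primeFactors with hS
  have hpr : ∀ q ∈ S, q.Prime := fun q hq => Nat.prime_of_mem_primeFactors hq
  have hD2 : ∀ q ∈ S, q ≠ 2 := by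
    intro q hq h2
    have h3 := Nat.dvd_of_mem_primeFactors hq
    rw [h2] at h3
    rcases hF with h | h <;> omega
  have hD5 : ∀ q ∈ S, q % 5 ≠ 0 := by
    intro q hq h0
    have h3 := Nat.dvd_of_mem_primeFactors hq
    have h5 : 5 ∣ D := (Nat.dvd_of_mod_eq_zero h0).trans h3
    rcases hF with h | h <;> omega
  have hDprod : ∏ q ∈ S, q = D := Nat.prod_primeFactors_of_squarefree hD
  have hsplit : (∏ q ∈ T, q) * ∏ q ∈ S \ T, q = D := by
    rw [mul_comm, prod_sdiff hT, hDprod]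
  have hTpos : 0 < ∏ q ∈ T, q := prod_pos fun q hq => (hpr q (hT hq)).pos
  have hquot : D / (∏ q ∈ T, q) = ∏ q ∈ S \ T, q := by
    rw [← hsplit]
    exact Nat.mul_div_cancel_left _ hTpos
  have hdvd : ∀ p : ℕ, p.Prime → (p ∣ ∏ q ∈ T, q ↔ p ∈ T) := by
    intro p hp
    constructor
    · intro h
      obtain ⟨q, hq, hpq⟩ := (Prime.dvd_finset_prod_iff hp.prime _).1 h
      have := (Nat.prime_dvd_prime_iff_eq hp (hpr q (hT hq))).1 hpq
      rw [this]
      exact hq
    · intro h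
      exact dvd_prod_of_mem _ h
  have hmemS : ∀ p : ℕ, p.Prime → (p ∣ D ↔ p ∈ S) := by
    intro p hp
    rw [hS, Nat.mem_primeFactors]
    exact ⟨fun h => ⟨hp, h, hD.ne_zero⟩, fun h => h.2.1⟩
  -- the symbols
  have hsym : ∀ (p : ℕ), p.Prime → ∀ T' : Finset ℕ, T' ⊆ S → p ∉ T' →
      jacobiSym ((∏ q ∈ T', q : ℕ) : ℤ) p = sI (∑ q ∈ T', nr p q) := by
    intro p hp T' hT' hpT
    rw [jac_prod, sI_sum]
    refine prod_congr rfl fun q hq => ?_
    exact jac_nr hp (hpr q (hT' hq)) (fun h => hpT (h ▸ hq))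
  -- the equations
  have hsumT : ∀ g : ℕ → ZMod 2, ∑ q ∈ S, g q * x q = ∑ q ∈ T, g q := by
    intro g
    rw [← sum_sdiff hT]
    have h1 : ∑ q ∈ S \ T, g q * x q = 0 := by
      refine sum_eq_zero fun q hq => ?_
      obtain ⟨h1, h2⟩ := mem_sdiff.1 hq
      rw [hx q h1, if_neg h2, mul_zero]
    have h2 : ∑ q ∈ T, g q * x q = ∑ q ∈ T, g q := by
      refine sum_congr rfl fun q hq => ?_
      rw [hx q (hT hq), if_pos hq, mul_one]
    rw [h1, h2, zero_add]
  have hsumC : ∀ g : ℕ → ZMod 2, ∑ q ∈ S, g q * (x q + 1) = ∑ q ∈ S \ T, g q := by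
    intro g
    rw [← sum_sdiff hT]
    have h1 : ∑ q ∈ S \ T, g q * (x q + 1) = ∑ q ∈ S \ T, g q := by
      refine sum_congr rfl fun q hq => ?_
      obtain ⟨h1, h2⟩ := mem_sdiff.1 hq
      rw [hx q h1, if_neg h2, zero_add, mul_one]
    have h2 : ∑ q ∈ T, g q * (x q + 1) = 0 := by
      refine sum_eq_zero fun q hq => ?_
      rw [hx q (hT hq), if_pos hq, z2, mul_zero]
    rw [h1, h2, add_zero]
  have eq0 : ∀ p ∈ S, p ∉ T → ((∑ q ∈ S, nr p q * (x q + x p) + aa p * x p = 0) ↔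
      jacobiSym ((∏ q ∈ T, q : ℕ) : ℤ) p = 1) := by
    intro p hp hpT
    have h1 : x p = 0 := by rw [hx p hp, if_neg hpT]
    rw [hsym p (hpr p hp) T hT hpT, sI_eq, h1, mul_zero, add_zero]
    simp only [add_zero]
    rw [hsumT]
  have eq1 : ∀ p ∈ S, p ∈ T → ((∑ q ∈ S, nr p q * (x q + x p) + aa p * x p = 0) ↔
      jacobiSym (-((D / (∏ q ∈ T, q) : ℕ) : ℤ)) p = 1) := by
    intro p hp hpT
    have h1 : x p = 1 := by rw [hx p hp, if_pos hpT]
    have h2 : p ∉ S \ T := fun h => (mem_sdiff.1 h).2 hpT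
    rw [hquot, neg_eq_neg_one_mul, jacobiSym.mul_left, hsym p (hpr p hp) _ sdiff_subset h2,
      jac_neg (hpr p hp) (hD2 p hp), ← sI_add, sI_eq, h1, mul_one, hsumC, add_comm]
  have eq2 : (∑ q ∈ S, bb q * x q = 0) ↔ jacobiSym ((∏ q ∈ T, q : ℕ) : ℤ) 5 = 1 := by
    rw [hsumT, jac_prod, prod_congr rfl fun q hq => jac_five (hD5 q (hT hq)), ← sI_sum, sI_eq]
  unfold Sol
  constructor
  · rintro ⟨h1, h2⟩
    refine ⟨fun p hp hpD hpT => ?_, fun p hp hpT => ?_, eq2.1 h2⟩
    · have h3 := (hmemS p hp).1 hpD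
      exact (eq0 p h3 (fun h => hpT ((hdvd p hp).2 h))).1 (h1 p h3)
    · have h3 := (hdvd p hp).1 hpT
      exact (eq1 p (hT h3) h3).1 (h1 p (hT h3))
  · rintro ⟨h1, h2, h3⟩
    refine ⟨fun p hp => ?_, eq2.2 h3⟩
    by_cases hpT : p ∈ T
    · exact (eq1 p hp hpT).2 (h2 p (hpr p hp) ((hdvd p (hpr p hp)).2 hpT))
    · exact (eq0 p hp hpT).2 (h1 p (hpr p hp) ((hmemS p (hpr p hp)).2 hp)
        (fun h => hpT ((hdvd p (hpr p hp)).1 h)))

theorem t_CRIT : S_CRIT := by
  intro D hD hF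
  constructor
  · intro hC x hx p hp
    by_contra hne
    set T := D.primeFactors.filter (fun q => x q ≠ 0) with hT
    have hTs : T ⊆ D.primeFactors := filter_subset _ _
    have hx2 : ∀ q ∈ D.primeFactors, x q = if q ∈ T then 1 else 0 := by
      intro q hq
      by_cases h : x q = 0
      · have h' : q ∉ T := by
          rw [hT, mem_filter]
          rintro ⟨_, h'⟩
          exact h' h
        rw [if_neg h', h]
      · rw [if_pos (mem_filter.2 ⟨hq, h⟩)]
        have : ∀ a : ZMod 2, a ≠ 0 → a = 1 := by decide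
        exact this _ h
    obtain ⟨h1, h2, h3⟩ := (crit_key hD hF T hTs x hx2).1 hx
    have hdv : (∏ q ∈ T, q) ∣ D := by
      conv_rhs => rw [← Nat.prod_primeFactors_of_squarefree hD]
      exact prod_dvd_prod_of_subset _ _ _ hTs
    have h4 := hC _ hdv h1 h2 h3
    have hpT : p ∈ T := mem_filter.2 ⟨hp, hne⟩
    have h5 : p ∣ ∏ q ∈ T, q := dvd_prod_of_mem _ hpT
    rw [h4] at h5
    exact (Nat.prime_of_mem_primeFactors hp).one_lt.ne' (Nat.dvd_one.1 h5)
  · intro hG d hd h1 h2 h3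
    have hdsq : Squarefree d := hD.squarefree_of_dvd hd
    have hTs : d.primeFactors ⊆ D.primeFactors := Nat.primeFactors_mono hd hD.ne_zero
    have hprod : ∏ q ∈ d.primeFactors, q = d := Nat.prod_primeFactors_of_squarefree hdsq
    have hsol : Sol D.primeFactors (fun q => if q ∈ d.primeFactors then 1 else 0) := by
      refine (crit_key hD hF d.primeFactors hTs _ (fun q _ => rfl)).2 ?_
      rw [hprod]
      exact ⟨h1, h2, h3⟩
    have h4 := hG _ hsol
    have h5 : d.primeFactors = ∅ := by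
      rw [Finset.eq_empty_iff_forall_notMem]
      intro p hp
      have := h4 p (hTs hp)
      simp only [if_pos hp] at this
      exact one_ne_zero this
    rw [← hprod, h5, prod_empty]

theorem card_eq (X : ℕ) (Q : Finset ℕ → Prop) :
    ((Icc 1 X).filter fun D => Squarefree D ∧ Fm D ∧ Q D.primeFactors).card =
      ((SS X).filter Q).card := by
  refine Finset.card_bij (fun D _ => D.primeFactors) ?_ ?_ ?_
  · intro D hD
    obtain ⟨h1, h2, hcl, h4⟩ := Finset.mem_filter.1 hD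
    obtain ⟨h5, h6⟩ := Finset.mem_Icc.1 h1
    have hprod := Nat.prod_primeFactors_of_squarefree h2
    refine Finset.mem_filter.2 ⟨Finset.mem_filter.2 ⟨?_, ⟨?_, ?_⟩, ?_⟩, h4⟩
    · rw [Finset.mem_powerset]
      intro p hp
      have := Nat.le_of_dvd (by omega) (Nat.dvd_of_mem_primeFactors hp)
      exact Finset.mem_range.2 (by omega)
    · intro p hp
      refine ⟨Nat.prime_of_mem_primeFactors hp, fun h => ?_⟩
      have h3 := Nat.dvd_of_mem_primeFactors hp
      rw [h] at h3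
      rcases hcl with h | h <;> omega
    · rw [hprod]
      exact hcl
    · rw [hprod]
      exact h6
  · intro D hD E hE h
    have h2 := (Finset.mem_filter.1 hD).2.1
    have h3 := (Finset.mem_filter.1 hE).2.1
    have h' : D.primeFactors = E.primeFactors := h
    rw [← Nat.prod_primeFactors_of_squarefree h2, ← Nat.prod_primeFactors_of_squarefree h3, h']
  · intro S hS
    obtain ⟨h1, h2⟩ := Finset.mem_filter.1 hS
    obtain ⟨h3, h4, h5⟩ := Finset.mem_filter.1 h1
    have hpr : ∀ p ∈ S, p.Prime := fun p hp => (h4.1 p hp).1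
    have hpf : (∏ p ∈ S, p).primeFactors = S := Nat.primeFactors_prod hpr
    have hsq : Squarefree (∏ p ∈ S, p) := by
      refine Finset.squarefree_prod_of_pairwise_isCoprime (fun p hp q hq hpq => ?_)
        fun p hp => (hpr p hp).squarefree
      show IsRelPrime p q
      rw [← Nat.coprime_iff_isRelPrime]
      exact (Nat.coprime_primes (hpr p hp) (hpr q hq)).mpr hpq
    refine ⟨∏ p ∈ S, p, ?_, hpf⟩
    refine Finset.mem_filter.2 ⟨Finset.mem_Icc.2 ⟨?_, h5⟩, hsq, h4.2, ?_⟩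
    · exact Nat.one_le_iff_ne_zero.2 hsq.ne_zero
    · rw [hpf]
      exact h2

theorem t_NS : S_NS := by
  intro hcrit hdq
  refine hdq.congr fun X => ?_
  have e1 := card_eq X Gd
  have e2 := card_eq X (fun _ => True)
  rw [Finset.filter_true] at e2
  simp only [and_true] at e2
  have e3 : ((Icc 1 X).filter fun D => Squarefree D ∧ Fm D ∧ Crit D) =
      ((Icc 1 X).filter fun D => Squarefree D ∧ Fm D ∧ Gd D.primeFactors) := by
    refine Finset.filter_congr fun D _ => ?_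
    constructor
    · rintro ⟨h1, h2, h3⟩
      exact ⟨h1, h2, (hcrit D h1 h2).1 h3⟩
    · rintro ⟨h1, h2, h3⟩
      exact ⟨h1, h2, (hcrit D h1 h2).2 h3⟩
  rw [e3, ← e1, ← e2]

end Pool.Agent.H757_X15.DD
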