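import Pool.Agent.H757_X15.StmD

/-!
# X15-D1: the `q`-binomial inclusion-exclusion, Euler's identity, numerical bounds
-/

set_option autoImplicit false
set_option linter.unusedVariables false

open scoped Classical

namespace Pool.Agent.H757_X15.DD

open Finset Filter

namespace LA1

/-- the denominators -/
noncomputable def Dn (j : ℕ) : ℝ := ∏ i ∈ range j, ((2 : ℝ) ^ (i + 1) - 1)

/-- the partial products -/
noncomputable def Pn (j : ℕ) : ℝ := ∏ i ∈ range j, (1 - (1 / 2 : ℝ) ^ (i + 1))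

lemma one_lt (i : ℕ) : (1 : ℝ) < 2 ^ (i + 1) := one_lt_pow₀ (by norm_num) (by omega)

lemma Dn_pos (j : ℕ) : 0 < Dn j :=
  Finset.prod_pos fun i _ => by linarith [one_lt i]

lemma Dn_succ (j : ℕ) : Dn (j + 1) = Dn j * ((2 : ℝ) ^ (j + 1) - 1) := Finset.prod_range_succ _ _

lemma Pn_succ (j : ℕ) : Pn (j + 1) = Pn j * (1 - (1 / 2 : ℝ) ^ (j + 1)) :=
  Finset.prod_range_succ _ _

lemma part (r m : ℕ) : ∑ j ∈ range (m + 1), (-1 : ℝ) ^ j *
      (∏ i ∈ range j, ((2 : ℝ) ^ r - 2 ^ i)) / ∏ i ∈ range j, ((2 : ℝ) ^ (i + 1) - 1) =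
    (-1 : ℝ) ^ m * (∏ i ∈ range m, ((2 : ℝ) ^ r - 2 ^ (i + 1))) /
      ∏ i ∈ range m, ((2 : ℝ) ^ (i + 1) - 1) := by
  induction m with
  | zero => simp
  | succ m ih =>
    rw [Finset.sum_range_succ, ih, Finset.prod_range_succ' (fun i => (2 : ℝ) ^ r - 2 ^ i),
      Finset.prod_range_succ (fun i => (2 : ℝ) ^ r - 2 ^ (i + 1)),
      Finset.prod_range_succ (fun i => (2 : ℝ) ^ (i + 1) - 1)]
    have h1 : (∏ i ∈ range m, ((2 : ℝ) ^ (i + 1) - 1)) ≠ 0 := (Dn_pos m).ne'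
    have h2 : (2 : ℝ) ^ (m + 1) - 1 ≠ 0 := by
      have := one_lt m
      exact (by linarith : (0 : ℝ) < 2 ^ (m + 1) - 1).ne'
    field_simp
    ring

lemma binom (r : ℕ) : ∑ j ∈ range (r + 1), (-1 : ℝ) ^ j *
      (∏ i ∈ range j, ((2 : ℝ) ^ r - 2 ^ i)) / ∏ i ∈ range j, ((2 : ℝ) ^ (i + 1) - 1) =
        if r = 0 then 1 else 0 := by
  rw [part]
  split_ifs with h
  · subst h
    simp
  · obtain ⟨s, rfl⟩ := Nat.exists_eq_succ_of_ne_zero h
    have : ∏ i ∈ range (s + 1), ((2 : ℝ) ^ (s + 1) - 2 ^ (i + 1)) = 0 :=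
      Finset.prod_eq_zero (i := s) (by simp) (by ring)
    rw [Nat.succ_eq_add_one, this]
    simp

lemma pow_bd (i : ℕ) : 0 < (1 / 2 : ℝ) ^ i ∧ (1 / 2 : ℝ) ^ i ≤ 1 :=
  ⟨by positivity, pow_le_one₀ (by norm_num) (by norm_num)⟩

lemma Pn_lower (j : ℕ) : 1 / 4 + (1 / 2 : ℝ) ^ (j + 1) ≤ Pn j := by
  rcases Nat.eq_zero_or_pos j with h | h
  · subst h
    simp [Pn]
    norm_num
  · induction j, h using Nat.le_induction with
    | base =>
      simp [Pn]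
      norm_num
    | succ j hj ih =>
      rw [Pn_succ]
      have h1 : (1 / 2 : ℝ) ^ (j + 1) ≤ 1 / 4 := by
        calc (1 / 2 : ℝ) ^ (j + 1) ≤ (1 / 2 : ℝ) ^ 2 :=
              pow_le_pow_of_le_one (by norm_num) (by norm_num) (by omega)
          _ = 1 / 4 := by norm_num
      have h2 := (pow_bd (j + 1)).1
      have h3 : (1 / 2 : ℝ) ^ (j + 1 + 1) = 1 / 2 * (1 / 2 : ℝ) ^ (j + 1) := by ring
      rw [h3]
      nlinarith

lemma Dn_eq (j : ℕ) : Dn j = 2 ^ (j.choose 2) * 2 ^ j * Pn j := by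
  induction j with
  | zero => simp [Dn, Pn]
  | succ j ih =>
    rw [Dn_succ, Pn_succ, ih]
    have h1 : (j + 1).choose 2 = j + j.choose 2 := by
      rw [Nat.choose_succ_succ' j 1, Nat.choose_one_right]
    have h2 : (2 : ℝ) ^ (j + 1) - 1 = 2 ^ (j + 1) * (1 - (1 / 2 : ℝ) ^ (j + 1)) := by
      rw [mul_sub, ← mul_pow]
      norm_num
    rw [h1, h2, pow_add]
    ring

lemma tail_bd (j : ℕ) : (2 : ℝ) ^ (j.choose 2) / Dn j ≤ 4 / 2 ^ j := by
  have h1 := Pn_lower j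
  have h2 := (pow_bd (j + 1)).1
  rw [div_le_div_iff₀ (Dn_pos j) (by positivity), Dn_eq]
  have h3 : (0 : ℝ) < 2 ^ (j.choose 2) * 2 ^ j := by positivity
  nlinarith

/-- the terms -/
noncomputable def u (j : ℕ) : ℝ := (-1 : ℝ) ^ j / Dn j

lemma u_bd (j : ℕ) : ‖u j‖ ≤ 4 * (1 / 2 : ℝ) ^ j := by
  unfold u
  rw [norm_div, norm_pow, norm_neg, norm_one, one_pow, Real.norm_of_nonneg (Dn_pos j).le]
  calc 1 / Dn j ≤ (2 : ℝ) ^ (j.choose 2) / Dn j :=
        div_le_div_of_nonneg_right (one_le_pow₀ (by norm_num)) (Dn_pos j).le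
    _ ≤ 4 / 2 ^ j := tail_bd j
    _ = 4 * (1 / 2 : ℝ) ^ j := by rw [one_div, inv_pow]; rfl

lemma u_succ (j : ℕ) : u (j + 1) * ((2 : ℝ) ^ (j + 1) - 1) = - u j := by
  unfold u
  rw [Dn_succ]
  have h1 := (Dn_pos j).ne'
  have h2 : (2 : ℝ) ^ (j + 1) - 1 ≠ 0 := by
    have := one_lt j
    exact (by linarith : (0 : ℝ) < 2 ^ (j + 1) - 1).ne'
  field_simp
  ring

lemma sum_geo : Summable (fun j : ℕ => 4 * (1 / 2 : ℝ) ^ j) :=
  (summable_geometric_of_lt_one (by norm_num) (by norm_num)).mul_left _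

lemma term_bd (n j : ℕ) : ‖u j * ((1 / 2 : ℝ) ^ n) ^ j‖ ≤ 4 * (1 / 2 : ℝ) ^ j := by
  rw [norm_mul, norm_pow, norm_pow]
  have h1 : ‖(1 / 2 : ℝ)‖ = 1 / 2 := by norm_num
  rw [h1]
  calc ‖u j‖ * ((1 / 2 : ℝ) ^ n) ^ j ≤ ‖u j‖ * 1 :=
        mul_le_mul_of_nonneg_left (pow_le_one₀ (pow_bd n).1.le (pow_bd n).2) (norm_nonneg _)
    _ ≤ _ := by rw [mul_one]; exact u_bd j

lemma summable_n (n : ℕ) : Summable (fun j : ℕ => u j * ((1 / 2 : ℝ) ^ n) ^ j) :=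
  Summable.of_norm_bounded sum_geo (term_bd n)

noncomputable def g (n : ℕ) : ℝ := ∑' j, u j * ((1 / 2 : ℝ) ^ n) ^ j

lemma g_succ (n : ℕ) : g n = (1 - (1 / 2 : ℝ) ^ (n + 1)) * g (n + 1) := by
  have h1 : g n - g (n + 1) = ∑' j, (u j * ((1 / 2 : ℝ) ^ n) ^ j - u j * ((1 / 2 : ℝ) ^ (n + 1)) ^ j) :=
    ((summable_n n).tsum_sub (summable_n (n + 1))).symm
  have h2 : Summable (fun j => u j * ((1 / 2 : ℝ) ^ n) ^ j - u j * ((1 / 2 : ℝ) ^ (n + 1)) ^ j) :=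
    (summable_n n).sub (summable_n (n + 1))
  rw [h2.tsum_eq_zero_add] at h1
  have h3 : ∀ j, u (j + 1) * ((1 / 2 : ℝ) ^ n) ^ (j + 1) -
      u (j + 1) * ((1 / 2 : ℝ) ^ (n + 1)) ^ (j + 1) =
      -(1 / 2 : ℝ) ^ (n + 1) * (u j * ((1 / 2 : ℝ) ^ (n + 1)) ^ j) := by
    intro j
    have h4 : ((1 / 2 : ℝ) ^ (n + 1)) ^ (j + 1) = ((1 / 2 : ℝ) ^ n) ^ (j + 1) * (1 / 2 : ℝ) ^ (j + 1) := by
      rw [pow_succ (1 / 2 : ℝ) n, mul_pow]
    have h5 : (1 : ℝ) - (1 / 2 : ℝ) ^ (j + 1) = (1 / 2 : ℝ) ^ (j + 1) * ((2 : ℝ) ^ (j + 1) - 1) := by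
      rw [mul_sub, ← mul_pow]
      norm_num
    have h6 : u (j + 1) * ((1 / 2 : ℝ) ^ n) ^ (j + 1) -
        u (j + 1) * (((1 / 2 : ℝ) ^ n) ^ (j + 1) * (1 / 2 : ℝ) ^ (j + 1)) =
        ((1 / 2 : ℝ) ^ n) ^ (j + 1) * (u (j + 1) * (1 - (1 / 2 : ℝ) ^ (j + 1))) := by ring
    rw [h4, h6, h5]
    have h7 : u (j + 1) * ((1 / 2 : ℝ) ^ (j + 1) * ((2 : ℝ) ^ (j + 1) - 1)) =
        (1 / 2 : ℝ) ^ (j + 1) * (u (j + 1) * ((2 : ℝ) ^ (j + 1) - 1)) := by ring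
    rw [h7, u_succ]
    ring
  simp only [h3, pow_zero, mul_one, sub_self, zero_add] at h1
  rw [tsum_mul_left] at h1
  have h8 : g n - g (n + 1) = -(1 / 2 : ℝ) ^ (n + 1) * g (n + 1) := h1
  linarith

lemma g_zero (n : ℕ) : g 0 = Pn n * g n := by
  induction n with
  | zero => simp [Pn]
  | succ n ih =>
    rw [ih, g_succ n, Pn_succ]
    ring

lemma g_lim : Tendsto g atTop (nhds 1) := by
  have h1 : Tendsto (fun n => ∑' j, u j * ((1 / 2 : ℝ) ^ n) ^ j) atTop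
      (nhds (∑' j, if j = 0 then (1 : ℝ) else 0)) := by
    refine tendsto_tsum_of_dominated_convergence sum_geo ?_ (Eventually.of_forall fun n j => term_bd n j)
    intro j
    by_cases h : j = 0
    · subst h
      simp [u, Dn]
    · rw [if_neg h]
      have h2 : Tendsto (fun n : ℕ => (1 / 2 : ℝ) ^ n) atTop (nhds 0) :=
        tendsto_pow_atTop_nhds_zero_of_lt_one (by norm_num) (by norm_num)
      have h3 := (h2.pow j).const_mul (u j)
      rwa [zero_pow h, mul_zero] at h3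
  rw [tsum_ite_eq] at h1
  exact h1

lemma Pn_lim : Tendsto Pn atTop (nhds c1) := by
  have hsum : Summable (fun i : ℕ => (1 / 2 : ℝ) ^ (i + 1)) := by
    simp_rw [pow_succ]
    exact (summable_geometric_of_lt_one (by norm_num) (by norm_num)).mul_right _
  have hmul : Multipliable (fun i : ℕ => 1 - (1 / 2 : ℝ) ^ (i + 1)) := by
    have := multipliable_one_add_of_summable (f := fun i : ℕ => -(1 / 2 : ℝ) ^ (i + 1))
      (by simpa [norm_neg, norm_pow] using hsum)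
    simpa [sub_eq_add_neg] using this
  exact hmul.hasProd.tendsto_prod_nat

lemma hasSum_u : HasSum u c1 := by
  have h1 : Tendsto (fun n => Pn n * g n) atTop (nhds (c1 * 1)) := Pn_lim.mul g_lim
  have h2 : (fun n => Pn n * g n) = fun _ => g 0 := by
    funext n
    exact (g_zero n).symm
  rw [h2, mul_one] at h1
  have h3 : g 0 = c1 := tendsto_nhds_unique tendsto_const_nhds h1
  have h4 : Summable u := Summable.of_norm_bounded sum_geo u_bd
  have h5 : g 0 = ∑' j, u j := by simp [g]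
  rw [← h3, h5]
  exact h4.hasSum

lemma Pn_bd (n : ℕ) : 0 ≤ Pn n ∧ Pn n ≤ 1 := by
  refine ⟨Finset.prod_nonneg fun i _ => ?_, Finset.prod_le_one (fun i _ => ?_) fun i _ => ?_⟩
  · linarith [(pow_bd (i + 1)).2]
  · linarith [(pow_bd (i + 1)).2]
  · linarith [(pow_bd (i + 1)).1]

lemma c1_le (n : ℕ) : c1 ≤ Pn n := by
  have hanti : Antitone Pn := by
    apply antitone_nat_of_succ_le
    intro n
    rw [Pn_succ]
    nlinarith [(Pn_bd n).1, (pow_bd (n + 1)).1]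
  exact hanti.le_of_tendsto Pn_lim n

lemma le_c1 (n : ℕ) : Pn n - (1 / 2 : ℝ) ^ n ≤ c1 := by
  have hmono : Monotone (fun n => Pn n - (1 / 2 : ℝ) ^ n) := by
    apply monotone_nat_of_le_succ
    intro n
    rw [Pn_succ]
    have e : (1 / 2 : ℝ) ^ (n + 1) = 1 / 2 * (1 / 2 : ℝ) ^ n := by ring
    rw [e]
    have h1 := (pow_bd n).1
    have h2 := (Pn_bd n).2
    nlinarith [mul_nonneg h1.le (sub_nonneg.mpr h2)]
  have hlim2 : Tendsto (fun n => Pn n - (1 / 2 : ℝ) ^ n) atTop (nhds c1) := by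
    have h1 : Tendsto (fun n : ℕ => (1 / 2 : ℝ) ^ n) atTop (nhds 0) :=
      tendsto_pow_atTop_nhds_zero_of_lt_one (by norm_num) (by norm_num)
    have := Pn_lim.sub h1
    simpa using this
  exact hmono.ge_of_tendsto hlim2 n

end LA1

open LA1 in
theorem t_LA1 : S_LA1 := by
  refine ⟨binom, hasSum_u, tail_bd, ?_, ?_⟩
  · refine lt_of_lt_of_le ?_ (le_c1 15)
    simp only [Pn, Finset.prod_range_succ, Finset.prod_range_zero]
    norm_num
  · refine (c1_le 15).trans_lt ?_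
    simp only [Pn, Finset.prod_range_succ, Finset.prod_range_zero]
    norm_num

end Pool.Agent.H757_X15.DD
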