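import Pool.Agent.H757_X15.StmD

/-!
# X15-D2: the number of the random symmetric completions with given Laplacian on `j` vectors
-/

set_option autoImplicit false
set_option linter.unusedVariables false
set_option linter.unusedSectionVars false

open scoped Classical

namespace Pool.Agent.H757_X15.DD

open Finset
open Pool.Agent.Y703.CQ (prs ext)

namespace LA2

/-! ### signs -/

noncomputable def sn (a : ZMod 2) : ℝ := if a = 0 then 1 else -1

lemma two_cases (a : ZMod 2) : a = 0 ∨ a = 1 := by
  revert a
  decide

lemma add_self' (a : ZMod 2) : a + a = 0 := by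
  rcases two_cases a with h | h <;> subst h <;> decide

lemma sn_add (a b : ZMod 2) : sn (a + b) = sn a * sn b := by
  rcases two_cases a with h | h <;> rcases two_cases b with h' | h' <;> subst h <;> subst h'
  · simp [sn]
  · simp [sn]
  · simp [sn]
  · have : (1 : ZMod 2) + 1 = 0 := by decide
    simp [sn, this]

lemma sum_sn {G : Type*} [AddCommGroup G] [Fintype G] (φ : G →+ ZMod 2) :
    ∑ g, sn (φ g) = if (∀ g, φ g = 0) then (Fintype.card G : ℝ) else 0 := by
  split_ifs with h
  · simp [h, sn]
  · push Not at h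
    obtain ⟨g0, hg0⟩ := h
    have h1 : φ g0 = 1 := (two_cases _).resolve_left hg0
    have h2 : ∑ g, sn (φ g) = ∑ g, sn (φ (g + g0)) :=
      (Equiv.sum_comp (Equiv.addRight g0) (fun g => sn (φ g))).symm
    have h3 : ∑ g, sn (φ (g + g0)) = - ∑ g, sn (φ g) := by
      rw [← Finset.sum_neg_distrib]
      refine Finset.sum_congr rfl fun g _ => ?_
      rw [map_add, sn_add, h1]
      simp [sn]
    linarith

/-! ### pairs -/

section pairs

variable {J : Type} [Fintype J] [LinearOrder J]

lemma mem_prs (e : J × J) : e ∈ prs (univ : Finset J) ↔ e.1 < e.2 := by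
  simp only [prs, mem_filter, mem_univ, true_and, forall_const]
  exact ⟨fun h => h.2, fun h => ⟨h.ne', h⟩⟩

lemma ext_lt (α : prs (univ : Finset J) → ZMod 2) {k l : J} (h : k < l) :
    ext α k l = α ⟨(k, l), (mem_prs _).2 h⟩ := by
  unfold Pool.Agent.Y703.CQ.ext
  rw [dif_pos]

lemma ext_gt (α : prs (univ : Finset J) → ZMod 2) {k l : J} (h : l < k) :
    ext α k l = α ⟨(l, k), (mem_prs _).2 h⟩ := by
  unfold Pool.Agent.Y703.CQ.ext
  rw [dif_neg, dif_pos]
  · exact ⟨(mem_prs _).2 h, mem_univ _⟩
  · rw [mem_prs]
    exact not_lt.2 h.le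

lemma ext_self (α : prs (univ : Finset J) → ZMod 2) (k : J) : ext α k k = 0 := by
  unfold Pool.Agent.Y703.CQ.ext
  rw [dif_neg, dif_neg]
  · rw [mem_prs]
    simp
  · rw [mem_prs]
    simp

lemma ext_symm (α : prs (univ : Finset J) → ZMod 2) (k l : J) : ext α k l = ext α l k := by
  rcases lt_trichotomy k l with h | h | h
  · rw [ext_lt α h, ext_gt α h]
  · rw [h]
  · rw [ext_lt α h, ext_gt α h]

lemma ext_add (α β : prs (univ : Finset J) → ZMod 2) (k l : J) :
    ext (α + β) k l = ext α k l + ext β k l := by
  rcases lt_trichotomy k l with h | h | h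
  · simp only [ext_lt _ h, Pi.add_apply]
  · subst h
    simp only [ext_self, add_zero]
  · simp only [ext_gt _ h, Pi.add_apply]

lemma sum_prs (G : J → J → ZMod 2) :
    ∑ e : prs (univ : Finset J), G e.1.1 e.1.2 = ∑ k, ∑ l, if k < l then G k l else 0 := by
  rw [Finset.sum_coe_sort (prs (univ : Finset J)) (fun e => G e.1 e.2)]
  rw [← Finset.sum_product', ← Finset.sum_filter]
  refine Finset.sum_congr ?_ fun _ _ => rfl
  ext e
  rw [mem_prs]
  simp

lemma sum_ext (α : prs (univ : Finset J) → ZMod 2) (F : J → J → ZMod 2) :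
    ∑ k, ∑ l, ext α k l * F k l =
      ∑ e : prs (univ : Finset J), α e * (F e.1.1 e.1.2 + F e.1.2 e.1.1) := by
  have h1 : ∑ e : prs (univ : Finset J), α e * (F e.1.1 e.1.2 + F e.1.2 e.1.1) =
      ∑ e : prs (univ : Finset J), (fun k l => ext α k l * (F k l + F l k)) e.1.1 e.1.2 := by
    refine Finset.sum_congr rfl fun e _ => ?_
    simp only []
    rw [ext_lt α ((mem_prs _).1 e.2)]
  rw [h1, sum_prs (fun k l => ext α k l * (F k l + F l k))]
  have h2 : ∀ k l : J, (if k < l then ext α k l * (F k l + F l k) else 0) =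
      (if k < l then ext α k l * F k l else 0) + (if k < l then ext α k l * F l k else 0) := by
    intro k l
    split_ifs
    · ring
    · simp
  simp only [h2, Finset.sum_add_distrib]
  have h3 : ∑ k, ∑ l, (if k < l then ext α k l * F l k else 0) =
      ∑ k, ∑ l, (if l < k then ext α k l * F k l else 0) := by
    rw [Finset.sum_comm]
    refine Finset.sum_congr rfl fun k _ => Finset.sum_congr rfl fun l _ => ?_
    rw [ext_symm α l k]
  rw [h3, ← Finset.sum_add_distrib]
  refine Finset.sum_congr rfl fun k _ => ?_
  rw [← Finset.sum_add_distrib]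
  refine Finset.sum_congr rfl fun l _ => ?_
  rcases lt_trichotomy k l with h | h | h
  · rw [if_pos h, if_neg (not_lt.2 h.le), add_zero]
  · subst h
    simp [ext_self]
  · rw [if_neg (not_lt.2 h.le), if_pos h, zero_add]

/-- all the values vanish iff the coefficients do -/
lemma forall_sum_ext (F : J → J → ZMod 2) :
    (∀ α : prs (univ : Finset J) → ZMod 2, ∑ k, ∑ l, ext α k l * F k l = 0) ↔
      ∀ k l, k ≠ l → F k l + F l k = 0 := by
  constructor
  · intro h
    have key : ∀ k l, k < l → F k l + F l k = 0 := by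
      intro k l hkl
      have := h (Pi.single ⟨(k, l), (mem_prs _).2 hkl⟩ 1)
      rw [sum_ext] at this
      rw [Finset.sum_eq_single (⟨(k, l), (mem_prs _).2 hkl⟩ : prs (univ : Finset J))] at this
      · simpa using this
      · intro b _ hb
        rw [Pi.single_eq_of_ne hb, zero_mul]
      · intro hb
        exact absurd (mem_univ _) hb
    intro k l hkl
    rcases lt_or_gt_of_ne hkl with h1 | h1
    · exact key k l h1
    · rw [add_comm]
      exact key l k h1
  · intro h α
    rw [sum_ext]
    refine Finset.sum_eq_zero fun e _ => ?_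
    rw [h _ _ ((mem_prs _).1 e.2).ne, mul_zero]

end pairs

lemma card_prs_fin (j : ℕ) : (prs (univ : Finset (Fin j))).card = j.choose 2 := by
  have h1 : (prs (univ : Finset (Fin j))).card = ∑ k : Fin j, ∑ l : Fin j, if k < l then 1 else 0 := by
    rw [Finset.card_eq_sum_ones, ← Finset.sum_product', ← Finset.sum_filter]
    refine Finset.sum_congr ?_ fun _ _ => rfl
    ext e
    rw [mem_prs]
    simp
  rw [h1]
  have h2 : ∀ l : Fin j, (∑ k : Fin j, if k < l then 1 else 0) = (l : ℕ) := by
    intro l
    rw [← Finset.sum_filter, ← Finset.card_eq_sum_ones]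
    have : (univ.filter fun k : Fin j => k < l) = Finset.Iio l := by
      ext k
      simp
    rw [this, Fin.card_Iio]
  rw [Finset.sum_comm]
  simp only [h2]
  rw [Fin.sum_univ_eq_sum_range (fun i => i) j, Finset.sum_range_id, Nat.choose_two_right]

/-! ### the duals -/

variable {J : Type} [Fintype J] [LinearOrder J] {j : ℕ}

lemma exists_dual (y : Fin j → J → ZMod 2)
    (hy : LinearIndependent (ZMod 2) (Fin.cons (fun _ => 1) y : Fin (j + 1) → J → ZMod 2)) :
    ∃ e : Fin j → J → ZMod 2, (∀ i, ∑ k, e i k = 0) ∧
      ∀ i i', ∑ k, e i k * y i' k = if i = i' then 1 else 0 := by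
  set v : Fin (j + 1) → J → ZMod 2 := Fin.cons (fun _ => 1) y with hv
  have hinj : LinearMap.ker (Fintype.linearCombination (ZMod 2) v) = ⊥ :=
    LinearMap.ker_eq_bot.2 (linearIndependent_iff_injective_fintypeLinearCombination.1 hy)
  obtain ⟨g, hg⟩ := LinearMap.exists_leftInverse_of_injective _ hinj
  have hgv : ∀ a b : Fin (j + 1), g (v a) b = if a = b then 1 else 0 := by
    intro a b
    have h1 : Fintype.linearCombination (ZMod 2) v (Pi.single a 1) = v a := by
      rw [Fintype.linearCombination_apply]
      rw [Finset.sum_eq_single a]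
      · simp
      · intro b _ hb
        rw [Pi.single_eq_of_ne hb, zero_smul]
      · intro hb
        exact absurd (mem_univ _) hb
    have h2 := LinearMap.congr_fun hg (Pi.single a 1)
    rw [LinearMap.comp_apply, h1, LinearMap.id_apply] at h2
    rw [h2]
    by_cases hab : a = b
    · subst hab
      simp
    · rw [Pi.single_eq_of_ne (Ne.symm hab), if_neg hab]
  have hgs : ∀ (w : J → ZMod 2) (b : Fin (j + 1)), g w b = ∑ k, g (Pi.single k 1) b * w k := by
    intro w b
    have h1 : w = ∑ k, w k • (Pi.single k 1 : J → ZMod 2) := by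
      ext l
      rw [Finset.sum_apply, Finset.sum_eq_single l]
      · simp
      · intro k _ hk
        simp [Pi.single_eq_of_ne (Ne.symm hk)]
      · intro hb
        exact absurd (mem_univ _) hb
    conv_lhs => rw [h1]
    rw [map_sum, Finset.sum_apply]
    refine Finset.sum_congr rfl fun k _ => ?_
    rw [map_smul, Pi.smul_apply, smul_eq_mul, mul_comm]
  refine ⟨fun i k => g (Pi.single k 1) i.succ, fun i => ?_, fun i i' => ?_⟩
  · have h := hgs (v 0) i.succ
    rw [hgv, if_neg (Fin.succ_ne_zero i).symm] at h
    rw [h]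
    refine Finset.sum_congr rfl fun k _ => ?_
    simp [hv]
  · have h := hgs (v i'.succ) i.succ
    rw [hgv] at h
    have h2 : (if i'.succ = i.succ then (1 : ZMod 2) else 0) = if i = i' then 1 else 0 := by
      by_cases hii : i = i'
      · subst hii
        simp
      · rw [if_neg hii, if_neg]
        intro hh
        exact hii (Fin.succ_injective _ hh).symm
    rw [← h2, h]
    refine Finset.sum_congr rfl fun k _ => ?_
    simp [hv]

lemma nonempty_J (y : Fin j → J → ZMod 2)
    (hy : LinearIndependent (ZMod 2) (Fin.cons (fun _ => 1) y : Fin (j + 1) → J → ZMod 2)) :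
    Nonempty J := by
  by_contra h
  rw [not_nonempty_iff] at h
  exact hy.ne_zero 0 (Subsingleton.elim _ _)

/-- the parametrisation of the annihilator -/
noncomputable def S (y : Fin j → J → ZMod 2)
    (p : (Fin j → ZMod 2) × (prs (univ : Finset (Fin j)) → ZMod 2)) (i : Fin j) (k : J) : ZMod 2 :=
  p.1 i + ∑ i', ext p.2 i i' * y i' k

lemma S_add (y : Fin j → J → ZMod 2)
    (p q : (Fin j → ZMod 2) × (prs (univ : Finset (Fin j)) → ZMod 2)) (i : Fin j) (k : J) :
    S y (p + q) i k = S y p i k + S y q i k := by
  unfold S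
  rw [Prod.fst_add, Prod.snd_add, Pi.add_apply]
  simp only [ext_add, add_mul, Finset.sum_add_distrib]
  ring

lemma S_inj (y : Fin j → J → ZMod 2)
    (hy : LinearIndependent (ZMod 2) (Fin.cons (fun _ => 1) y : Fin (j + 1) → J → ZMod 2)) :
    Function.Injective (S y) := by
  obtain ⟨e, he1, he2⟩ := exists_dual y hy
  obtain ⟨k0⟩ := nonempty_J y hy
  intro p q hpq
  have h : ∀ i k, S y p i k = S y q i k := fun i k => by rw [hpq]
  have hc : ∀ (r : (Fin j → ZMod 2) × (prs (univ : Finset (Fin j)) → ZMod 2)) (i i' : Fin j),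
      ∑ k, e i' k * S y r i k = ext r.2 i i' := by
    intro r i i'
    unfold S
    simp only [mul_add, Finset.sum_add_distrib]
    rw [← Finset.sum_mul, he1, zero_mul, zero_add]
    simp only [Finset.mul_sum]
    rw [Finset.sum_comm]
    have : ∀ a : Fin j, ∑ k, e i' k * (ext r.2 i a * y a k) = ext r.2 i a * if i' = a then 1 else 0 := by
      intro a
      rw [← he2 i' a, Finset.mul_sum]
      refine Finset.sum_congr rfl fun k _ => ?_
      ring
    simp only [this, mul_ite, mul_one, mul_zero, Finset.sum_ite_eq, mem_univ, if_true]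
  have h2 : ∀ i i', ext p.2 i i' = ext q.2 i i' := by
    intro i i'
    rw [← hc p i i', ← hc q i i']
    exact Finset.sum_congr rfl fun k _ => by rw [h]
  have h3 : p.2 = q.2 := by
    funext e
    have := h2 e.1.1 e.1.2
    rwa [ext_lt _ ((mem_prs _).1 e.2), ext_lt _ ((mem_prs _).1 e.2)] at this
  have h4 : p.1 = q.1 := by
    funext i
    have := h i k0
    unfold S at this
    rw [h3] at this
    exact add_right_cancel this
  exact Prod.ext h4 h3

/-- the annihilator of the range -/
lemma mem_N (y : Fin j → J → ZMod 2)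
    (hy : LinearIndependent (ZMod 2) (Fin.cons (fun _ => 1) y : Fin (j + 1) → J → ZMod 2))
    (d : Fin j → J → ZMod 2) :
    (∀ k l, ∑ i, (d i k + d i l) * (y i k + y i l) = 0) ↔ ∃ p, S y p = d := by
  obtain ⟨e, he1, he2⟩ := exists_dual y hy
  constructor
  · intro h
    -- the contraction with `e`
    have hcon : ∀ (i : Fin j) (A : Fin j → ZMod 2) (q : ZMod 2),
        ∑ l, e i l * (q + ∑ a, A a * y a l) = A i := by
      intro i A q
      simp only [mul_add, Finset.sum_add_distrib]
      rw [← Finset.sum_mul, he1, zero_mul, zero_add]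
      simp only [Finset.mul_sum]
      rw [Finset.sum_comm]
      have : ∀ a : Fin j, ∑ k, e i k * (A a * y a k) = A a * if i = a then 1 else 0 := by
        intro a
        rw [← he2 i a, Finset.mul_sum]
        refine Finset.sum_congr rfl fun k _ => ?_
        ring
      simp only [this, mul_ite, mul_one, mul_zero, Finset.sum_ite_eq, mem_univ, if_true]
    set A : Fin j → Fin j → ZMod 2 := fun i a => ∑ l, e i l * d a l with hA
    set c0 : Fin j → ZMod 2 := fun i => ∑ l, e i l * ∑ a, d a l * y a l with hc0
    have hd : ∀ i k, d i k = c0 i + ∑ a, A i a * y a k := by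
      intro i k
      have h1 : ∀ l, (∑ a, d a k * y a k + ∑ a, d a k * y a l) +
          (∑ a, d a l * y a k + ∑ a, d a l * y a l) = 0 := by
        intro l
        rw [← h k l, ← Finset.sum_add_distrib, ← Finset.sum_add_distrib, ← Finset.sum_add_distrib]
        refine Finset.sum_congr rfl fun a _ => ?_
        ring
      have h2 : ∑ l, e i l * ((∑ a, d a k * y a k + ∑ a, d a k * y a l) +
          (∑ a, d a l * y a k + ∑ a, d a l * y a l)) = 0 := by
        simp only [h1, mul_zero, Finset.sum_const_zero]
      simp only [mul_add (e i _) (∑ a, d a k * y a k + _) _, Finset.sum_add_distrib] at h2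
      rw [hcon i (fun a => d a k) (∑ a, d a k * y a k)] at h2
      simp only [mul_add, Finset.sum_add_distrib] at h2
      have h3 : ∑ l, e i l * ∑ a, d a l * y a k = ∑ a, A i a * y a k := by
        simp only [hA, Finset.sum_mul, Finset.mul_sum]
        rw [Finset.sum_comm]
        refine Finset.sum_congr rfl fun a _ => Finset.sum_congr rfl fun l _ => ?_
        ring
      rw [h3] at h2
      have h4 : d i k + (d i k + (∑ a, A i a * y a k + c0 i)) = d i k := by
        rw [h2, add_zero]
      rw [← add_assoc, add_self', zero_add] at h4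
      rw [← h4, add_comm]
    -- the quadratic form
    have hq : ∀ k l, ∑ i, (∑ a, A i a * (y a k + y a l)) * (y i k + y i l) = 0 := by
      intro k l
      rw [← h k l]
      refine Finset.sum_congr rfl fun i _ => ?_
      congr 1
      rw [hd i k, hd i l]
      have : c0 i + ∑ a, A i a * y a k + (c0 i + ∑ a, A i a * y a l) =
          (c0 i + c0 i) + (∑ a, A i a * y a k + ∑ a, A i a * y a l) := by ring
      rw [this, add_self', zero_add, ← Finset.sum_add_distrib]
      refine Finset.sum_congr rfl fun a _ => ?_
      ring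
    have hsym : ∀ i i', A i i' = A i' i := by
      have hB : ∀ k l, (∑ i, (∑ a, A i a * y a k) * y i k +
          ∑ a, (∑ a', (A a a' + A a' a) * y a' k) * y a l) +
          ∑ i, (∑ a, A i a * y a l) * y i l = 0 := by
        intro k l
        rw [← hq k l]
        have e1 : ∑ i, (∑ a, A i a * (y a k + y a l)) * (y i k + y i l) =
            ∑ i, (∑ a, A i a * y a k) * y i k + ∑ i, (∑ a, A i a * y a k) * y i l +
            (∑ i, (∑ a, A i a * y a l) * y i k + ∑ i, (∑ a, A i a * y a l) * y i l) := by
          rw [← Finset.sum_add_distrib, ← Finset.sum_add_distrib, ← Finset.sum_add_distrib]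
          refine Finset.sum_congr rfl fun i _ => ?_
          simp only [mul_add, Finset.sum_add_distrib]
          ring
        have e2 : ∑ i, (∑ a, A i a * y a l) * y i k = ∑ a, (∑ a', A a' a * y a' k) * y a l := by
          simp only [Finset.sum_mul]
          rw [Finset.sum_comm]
          refine Finset.sum_congr rfl fun a _ => Finset.sum_congr rfl fun i _ => ?_
          ring
        have e3 : ∑ a, (∑ a', (A a a' + A a' a) * y a' k) * y a l =
            ∑ i, (∑ a, A i a * y a k) * y i l + ∑ a, (∑ a', A a' a * y a' k) * y a l := by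
          rw [← Finset.sum_add_distrib]
          refine Finset.sum_congr rfl fun i _ => ?_
          simp only [add_mul, Finset.sum_add_distrib]
        rw [e1, e2, e3]
        ring
      intro i i'
      have h1 : ∀ k, (∑ l, e i l * ∑ i, (∑ a, A i a * y a l) * y i l) +
          ∑ a', (A i a' + A a' i) * y a' k = 0 := by
        intro k
        have h2 := hcon i (fun a => ∑ a', (A a a' + A a' a) * y a' k) (∑ i, (∑ a, A i a * y a k) * y i k)
        have h3 : ∑ l, e i l * ((∑ i, (∑ a, A i a * y a k) * y i k +
          ∑ a, (∑ a', (A a a' + A a' a) * y a' k) * y a l) +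
          ∑ i, (∑ a, A i a * y a l) * y i l) = 0 := by
          simp only [hB, mul_zero, Finset.sum_const_zero]
        simp only [mul_add (e i _) (∑ i, (∑ a, A i a * y a k) * y i k + _) _,
          Finset.sum_add_distrib] at h3
        rw [h2, add_comm] at h3
        exact h3
      have h4 := hcon i' (fun a' => A i a' + A a' i) (∑ l, e i l * ∑ i, (∑ a, A i a * y a l) * y i l)
      simp only [h1, mul_zero, Finset.sum_const_zero] at h4
      have h5 : A i i' + (A i' i + A i' i) = A i' i := by
        rw [← add_assoc, ← h4, zero_add]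
      rwa [add_self', add_zero] at h5
    have hdiag : ∀ i, A i i = 0 := by
      have h1 : ∀ i a, A i a = ext (fun e : prs (univ : Finset (Fin j)) => A e.1.1 e.1.2) i a +
          if i = a then A i i else 0 := by
        intro i a
        rcases lt_trichotomy i a with h1 | h1 | h1
        · rw [ext_lt _ h1, if_neg h1.ne, add_zero]
        · subst h1
          rw [ext_self, if_pos rfl, zero_add]
        · rw [ext_gt _ h1, if_neg h1.ne', add_zero]
          exact hsym _ _
      have h2 : ∀ k l, ∑ i, A i i * y i k + ∑ i, A i i * y i l = 0 := by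
        intro k l
        have h3 := hq k l
        have h4 : ∑ i, (∑ a, A i a * (y a k + y a l)) * (y i k + y i l) =
            ∑ i, ∑ a, ext (fun e : prs (univ : Finset (Fin j)) => A e.1.1 e.1.2) i a *
              ((y a k + y a l) * (y i k + y i l)) +
            ∑ i, A i i * ((y i k + y i l) * (y i k + y i l)) := by
          rw [← Finset.sum_add_distrib]
          refine Finset.sum_congr rfl fun i _ => ?_
          rw [Finset.sum_mul]
          have : ∀ a, A i a * (y a k + y a l) * (y i k + y i l) =
              ext (fun e : prs (univ : Finset (Fin j)) => A e.1.1 e.1.2) i a *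
              ((y a k + y a l) * (y i k + y i l)) +
              if i = a then A i i * ((y i k + y i l) * (y i k + y i l)) else 0 := by
            intro a
            conv_lhs => rw [h1 i a]
            split_ifs with h5
            · subst h5
              ring
            · ring
          simp only [this, Finset.sum_add_distrib, Finset.sum_ite_eq, mem_univ, if_true]
        rw [h4, sum_ext] at h3
        have h5 : ∀ e : prs (univ : Finset (Fin j)),
            (fun e : prs (univ : Finset (Fin j)) => A e.1.1 e.1.2) e *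
            ((y e.1.2 k + y e.1.2 l) * (y e.1.1 k + y e.1.1 l) +
            (y e.1.1 k + y e.1.1 l) * (y e.1.2 k + y e.1.2 l)) = 0 := by
          intro e
          rw [mul_comm (y e.1.2 k + y e.1.2 l), add_self', mul_zero]
        rw [Finset.sum_congr rfl (fun e _ => h5 e), Finset.sum_const_zero, zero_add] at h3
        rw [← h3, ← Finset.sum_add_distrib]
        refine Finset.sum_congr rfl fun i _ => ?_
        have h6 : ∀ a : ZMod 2, a * a = a := by decide
        rw [h6, mul_add]
      intro i
      obtain ⟨k0⟩ := nonempty_J y hy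
      have h3 := hcon i (fun a => A a a) (∑ i, A i i * y i k0)
      simp only [h2, mul_zero, Finset.sum_const_zero] at h3
      exact h3.symm
    refine ⟨(c0, fun e => A e.1.1 e.1.2), ?_⟩
    funext i k
    rw [hd i k]
    unfold S
    congr 1
    refine Finset.sum_congr rfl fun a _ => ?_
    congr 1
    rcases lt_trichotomy i a with h1 | h1 | h1
    · rw [ext_lt _ h1]
    · subst h1
      rw [ext_self, hdiag]
    · rw [ext_gt _ h1, hsym]
  · rintro ⟨p, rfl⟩ k l
    have h1 : ∀ i, S y p i k + S y p i l = ∑ a, ext p.2 i a * (y a k + y a l) := by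
      intro i
      unfold S
      have : p.1 i + ∑ a, ext p.2 i a * y a k + (p.1 i + ∑ a, ext p.2 i a * y a l) =
          (p.1 i + p.1 i) + (∑ a, ext p.2 i a * y a k + ∑ a, ext p.2 i a * y a l) := by ring
      rw [this, add_self', zero_add, ← Finset.sum_add_distrib]
      refine Finset.sum_congr rfl fun a _ => ?_
      ring
    simp only [h1]
    have h2 : ∑ i, (∑ a, ext p.2 i a * (y a k + y a l)) * (y i k + y i l) =
        ∑ i, ∑ a, ext p.2 i a * ((y a k + y a l) * (y i k + y i l)) := by
      refine Finset.sum_congr rfl fun i _ => ?_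
      rw [Finset.sum_mul]
      exact Finset.sum_congr rfl fun a _ => by ring
    rw [h2, sum_ext]
    refine Finset.sum_eq_zero fun e _ => ?_
    rw [mul_comm (y e.1.2 k + y e.1.2 l), add_self', mul_zero]

/-! ### the three character sums -/

/-- the pairing -/
def pr (v : Fin j → J → ZMod 2) : (Fin j → J → ZMod 2) →+ ZMod 2 where
  toFun d := ∑ i, ∑ k, d i k * v i k
  map_zero' := by simp
  map_add' a b := by simp only [Pi.add_apply, add_mul, Finset.sum_add_distrib]

lemma pr_single (v : Fin j → J → ZMod 2) (i : Fin j) (k : J) :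
    pr v (Pi.single i (Pi.single k 1)) = v i k := by
  change ∑ a, ∑ b, (Pi.single i (Pi.single k 1 : J → ZMod 2) : Fin j → J → ZMod 2) a b * v a b = v i k
  rw [Finset.sum_eq_single i]
  · rw [Pi.single_eq_same, Finset.sum_eq_single k]
    · rw [Pi.single_eq_same, one_mul]
    · intro b _ hb
      rw [Pi.single_eq_of_ne hb, zero_mul]
    · intro hb
      exact absurd (mem_univ _) hb
  · intro a _ ha
    rw [Pi.single_eq_of_ne ha]
    simp
  · intro hb
    exact absurd (mem_univ _) hb

lemma sum_d (v : Fin j → J → ZMod 2) :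
    ∑ d : Fin j → J → ZMod 2, sn (∑ i, ∑ k, d i k * v i k) =
      if ∀ i k, v i k = 0 then (2 : ℝ) ^ (Fintype.card J * j) else 0 := by
  have h := sum_sn (pr v)
  have h1 : (∀ g, pr v g = 0) ↔ ∀ i k, v i k = 0 := by
    constructor
    · intro h i k
      rw [← pr_single v i k]
      exact h _
    · intro h g
      change ∑ i, ∑ k, g i k * v i k = 0
      simp only [h, mul_zero, Finset.sum_const_zero]
  have h2 : (Fintype.card (Fin j → J → ZMod 2) : ℝ) = 2 ^ (Fintype.card J * j) := by
    rw [Fintype.card_fun, Fintype.card_fun, ZMod.card, Fintype.card_fin, ← pow_mul]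
    push_cast
    rfl
  rw [← h2]
  rw [show (∑ d : Fin j → J → ZMod 2, sn (∑ i, ∑ k, d i k * v i k)) = ∑ g, sn (pr v g) from rfl, h]
  by_cases h3 : ∀ i k, v i k = 0
  · rw [if_pos h3, if_pos (h1.2 h3)]
  · rw [if_neg h3, if_neg (fun h4 => h3 (h1.1 h4))]

/-- the form on the completions -/
noncomputable def fo (F : J → J → ZMod 2) : (prs (univ : Finset J) → ZMod 2) →+ ZMod 2 where
  toFun α := ∑ k, ∑ l, ext α k l * F k l
  map_zero' := by
    rw [sum_ext]
    simp
  map_add' a b := by simp only [ext_add, add_mul, Finset.sum_add_distrib]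

lemma sum_al (F : J → J → ZMod 2) :
    ∑ α : prs (univ : Finset J) → ZMod 2, sn (∑ k, ∑ l, ext α k l * F k l) =
      if ∀ k l, k ≠ l → F k l + F l k = 0 then (2 : ℝ) ^ (prs (univ : Finset J)).card else 0 := by
  have h := sum_sn (fo F)
  have h2 : (Fintype.card (prs (univ : Finset J) → ZMod 2) : ℝ) = 2 ^ (prs (univ : Finset J)).card := by
    rw [Fintype.card_fun, ZMod.card, Fintype.card_coe]
    push_cast
    rfl
  rw [← h2]
  rw [show (∑ α : prs (univ : Finset J) → ZMod 2, sn (∑ k, ∑ l, ext α k l * F k l)) =
    ∑ g, sn (fo F g) from rfl, h]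
  have h1 : (∀ g, fo F g = 0) ↔ ∀ k l, k ≠ l → F k l + F l k = 0 := forall_sum_ext F
  by_cases h3 : ∀ k l, k ≠ l → F k l + F l k = 0
  · rw [if_pos h3, if_pos (h1.2 h3)]
  · rw [if_neg h3, if_neg (fun h4 => h3 (h1.1 h4))]

/-- the form on the annihilator -/
noncomputable def an (y c : Fin j → J → ZMod 2) :
    ((Fin j → ZMod 2) × (prs (univ : Finset (Fin j)) → ZMod 2)) →+ ZMod 2 where
  toFun p := ∑ i, ∑ k, S y p i k * c i k
  map_zero' := by
    have h : ∀ i k, S y 0 i k = 0 := by
      intro i k
      have := S_add y 0 0 i k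
      rw [add_zero] at this
      have h2 := add_self' (S y 0 i k)
      rw [← this] at h2
      exact h2
    simp only [h, zero_mul, Finset.sum_const_zero]
  map_add' a b := by simp only [S_add, add_mul, Finset.sum_add_distrib]

lemma an_apply (y c : Fin j → J → ZMod 2)
    (p : (Fin j → ZMod 2) × (prs (univ : Finset (Fin j)) → ZMod 2)) :
    an y c p = ∑ i, p.1 i * ∑ k, c i k + ∑ i, ∑ i', ext p.2 i i' * ∑ k, y i' k * c i k := by
  change ∑ i, ∑ k, S y p i k * c i k = _
  rw [← Finset.sum_add_distrib]
  refine Finset.sum_congr rfl fun i _ => ?_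
  unfold S
  simp only [add_mul, Finset.sum_add_distrib, Finset.mul_sum, Finset.sum_mul]
  congr 1
  rw [Finset.sum_comm]
  refine Finset.sum_congr rfl fun a _ => Finset.sum_congr rfl fun k _ => ?_
  ring

lemma an_iff (y c : Fin j → J → ZMod 2) : (∀ p, an y c p = 0) ↔
    (∀ i, ∑ k, c i k = 0) ∧ (∀ i i', ∑ k, (y i' k * c i k + y i k * c i' k) = 0) := by
  have h0 : ∀ i i', ext (0 : prs (univ : Finset (Fin j)) → ZMod 2) i i' = 0 := by
    intro i i'
    rcases lt_trichotomy i i' with h1 | h1 | h1
    · rw [ext_lt _ h1, Pi.zero_apply]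
    · subst h1
      rw [ext_self]
    · rw [ext_gt _ h1, Pi.zero_apply]
  constructor
  · intro h
    have h1 : ∀ i, ∑ k, c i k = 0 := by
      intro i
      have := h (Pi.single i 1, 0)
      rw [an_apply] at this
      simp only [h0, zero_mul, Finset.sum_const_zero, add_zero] at this
      rw [Finset.sum_eq_single i] at this
      · simpa using this
      · intro b _ hb
        rw [Pi.single_eq_of_ne hb, zero_mul]
      · intro hb
        exact absurd (mem_univ _) hb
    refine ⟨h1, ?_⟩
    have h2 : ∀ α : prs (univ : Finset (Fin j)) → ZMod 2,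
        ∑ i, ∑ i', ext α i i' * (fun i i' => ∑ k, y i' k * c i k) i i' = 0 := by
      intro α
      have := h (0, α)
      rw [an_apply] at this
      simpa [h1] using this
    rw [forall_sum_ext] at h2
    intro i i'
    rw [Finset.sum_add_distrib]
    by_cases hii : i = i'
    · subst hii
      exact add_self' _
    · exact h2 i i' hii
  · rintro ⟨h1, h2⟩ p
    rw [an_apply]
    simp only [h1, mul_zero, Finset.sum_const_zero, zero_add]
    refine (forall_sum_ext (fun i i' => ∑ k, y i' k * c i k)).2 ?_ p.2
    intro i i' _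
    rw [← h2 i i', Finset.sum_add_distrib]

lemma sum_p (y c : Fin j → J → ZMod 2) :
    ∑ p : (Fin j → ZMod 2) × (prs (univ : Finset (Fin j)) → ZMod 2),
      sn (∑ i, ∑ k, S y p i k * c i k) =
      if (∀ i, ∑ k, c i k = 0) ∧ (∀ i i', ∑ k, (y i' k * c i k + y i k * c i' k) = 0)
      then (2 : ℝ) ^ (j + j.choose 2) else 0 := by
  have h := sum_sn (an y c)
  have h2 : (Fintype.card ((Fin j → ZMod 2) × (prs (univ : Finset (Fin j)) → ZMod 2)) : ℝ) =
      2 ^ (j + j.choose 2) := by
    rw [Fintype.card_prod, Fintype.card_fun, Fintype.card_fun, ZMod.card, Fintype.card_coe,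
      Fintype.card_fin, card_prs_fin, pow_add]
    push_cast
    rfl
  rw [← h2]
  rw [show (∑ p : (Fin j → ZMod 2) × (prs (univ : Finset (Fin j)) → ZMod 2),
      sn (∑ i, ∑ k, S y p i k * c i k)) = ∑ g, sn (an y c g) from rfl, h]
  have h1 := an_iff y c
  by_cases h3 : (∀ i, ∑ k, c i k = 0) ∧ (∀ i i', ∑ k, (y i' k * c i k + y i k * c i' k) = 0)
  · rw [if_pos h3, if_pos (h1.2 h3)]
  · rw [if_neg h3, if_neg (fun h4 => h3 (h1.1 h4))]

end LA2

open LA2 in
theorem t_LA2 : S_LA2 := by
  intro J _ _ j y c hy
  have s1 : ((univ.filter fun α : prs (univ : Finset J) → ZMod 2 =>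
      ∀ i k, ∑ l, ext α k l * (y i l + y i k) = c i k).card : ℝ) * 2 ^ (Fintype.card J * j) =
      ∑ α : prs (univ : Finset J) → ZMod 2, ∑ d : Fin j → J → ZMod 2,
        sn (∑ i, ∑ k, d i k * (∑ l, ext α k l * (y i l + y i k) + c i k)) := by
    rw [Finset.card_filter]
    push_cast
    rw [Finset.sum_mul]
    refine Finset.sum_congr rfl fun α _ => ?_
    rw [sum_d (fun i k => ∑ l, ext α k l * (y i l + y i k) + c i k)]
    have h1 : (∀ i k, ∑ l, ext α k l * (y i l + y i k) = c i k) ↔
        ∀ i k, ∑ l, ext α k l * (y i l + y i k) + c i k = 0 := by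
      refine forall_congr' fun i => forall_congr' fun k => ?_
      constructor
      · intro h
        rw [h, add_self']
      · intro h
        have h2 := add_self' (c i k)
        rw [← h2] at h
        exact add_right_cancel h
    by_cases h3 : ∀ i k, ∑ l, ext α k l * (y i l + y i k) = c i k
    · rw [if_pos h3, if_pos (h1.1 h3), one_mul]
    · rw [if_neg h3, if_neg (fun h4 => h3 (h1.2 h4)), zero_mul]
  rw [s1, Finset.sum_comm]
  have s2 : ∀ d : Fin j → J → ZMod 2, ∑ α : prs (univ : Finset J) → ZMod 2,
      sn (∑ i, ∑ k, d i k * (∑ l, ext α k l * (y i l + y i k) + c i k)) =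
      if (∀ k l, ∑ i, (d i k + d i l) * (y i k + y i l) = 0) then
        (2 : ℝ) ^ (prs (univ : Finset J)).card * sn (∑ i, ∑ k, d i k * c i k) else 0 := by
    intro d
    have h1 : ∀ α : prs (univ : Finset J) → ZMod 2,
        sn (∑ i, ∑ k, d i k * (∑ l, ext α k l * (y i l + y i k) + c i k)) =
        sn (∑ k, ∑ l, ext α k l * ∑ i, d i k * (y i l + y i k)) * sn (∑ i, ∑ k, d i k * c i k) := by
      intro α
      rw [← sn_add]
      congr 1
      have h5 : ∀ i k, d i k * (∑ l, ext α k l * (y i l + y i k) + c i k) =
          (∑ l, ext α k l * (d i k * (y i l + y i k))) + d i k * c i k := by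
        intro i k
        rw [mul_add, Finset.mul_sum]
        congr 1
        refine Finset.sum_congr rfl fun l _ => ?_
        ring
      simp only [h5]
      have h6 : ∀ (X Y : Fin j → J → ZMod 2), ∑ i, ∑ k, (X i k + Y i k) =
          ∑ i, ∑ k, X i k + ∑ i, ∑ k, Y i k := by
        intro X Y
        simp only [Finset.sum_add_distrib]
      rw [h6]
      congr 1
      rw [Finset.sum_comm]
      refine Finset.sum_congr rfl fun k _ => ?_
      rw [Finset.sum_comm]
      refine Finset.sum_congr rfl fun l _ => ?_
      rw [Finset.mul_sum]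
    simp only [h1]
    rw [← Finset.sum_mul, sum_al (fun k l => ∑ i, d i k * (y i l + y i k))]
    have h2 : (∀ k l, k ≠ l → ∑ i, d i k * (y i l + y i k) + ∑ i, d i l * (y i k + y i l) = 0) ↔
        ∀ k l, ∑ i, (d i k + d i l) * (y i k + y i l) = 0 := by
      have h3 : ∀ k l, ∑ i, d i k * (y i l + y i k) + ∑ i, d i l * (y i k + y i l) =
          ∑ i, (d i k + d i l) * (y i k + y i l) := by
        intro k l
        rw [← Finset.sum_add_distrib]
        refine Finset.sum_congr rfl fun i _ => ?_
        ring
      constructor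
      · intro h k l
        by_cases hkl : k = l
        · subst hkl
          simp only [add_self', zero_mul, Finset.sum_const_zero]
        · rw [← h3]
          exact h k l hkl
      · intro h k l _
        rw [h3]
        exact h k l
    by_cases h3 : ∀ k l, ∑ i, (d i k + d i l) * (y i k + y i l) = 0
    · rw [if_pos h3, if_pos (h2.2 h3)]
    · rw [if_neg h3, if_neg (fun h4 => h3 (h2.1 h4)), zero_mul]
  simp only [s2]
  rw [← Finset.sum_filter]
  have s3 : (univ.filter fun d : Fin j → J → ZMod 2 =>
      ∀ k l, ∑ i, (d i k + d i l) * (y i k + y i l) = 0) = univ.image (S y) := by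
    ext d
    rw [mem_filter, mem_image, mem_N y hy d]
    simp
  rw [s3, Finset.sum_image (fun a _ b _ h => S_inj y hy h), ← Finset.mul_sum, sum_p]
  split_ifs
  · rw [← pow_add]
    congr 1
    ring
  · rw [mul_zero]

end Pool.Agent.H757_X15.DD
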