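import Pool.Agent.H757_X15.StmD
import Pool.Agent.Y362.CQ.FEW

/-!
# X15-D10: few sets have few large primes `≡ 3` modulo `4`
-/

set_option autoImplicit false
set_option linter.all false

open scoped Classical

namespace Pool.Agent.H757_X15.DD

namespace FewA

open Finset Filter
open Pool.Agent.Y703.CX (sm la eL zz S_SIE)
open Pool.Agent.Y495.CX.Few (PN euler prod_pos' le_of_mem_prod mert eL_tendsto log_small zz_ge
  loglog_zz rpow_eq)
open Pool.Agent.Y362.CQ (moment)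

/-- primes `≡ 3` -/
def P3 (p : ℕ) : Prop := p.Prime ∧ p % 4 = 3

/-- primes `≡ 1` -/
def P1 (p : ℕ) : Prop := p.Prime ∧ p % 4 = 1

lemma P31 {p : ℕ} (h : p.Prime ∧ p ≠ 2) : P3 p ∨ P1 p := by
  have h1 := Nat.odd_iff.1 (h.1.odd_of_ne_two h.2)
  have h2 : p % 4 = 3 ∨ p % 4 = 1 := by omega
  rcases h2 with h2 | h2
  · exact Or.inl ⟨h.1, h2⟩
  · exact Or.inr ⟨h.1, h2⟩

lemma pr {p : ℕ} (h : P3 p ∨ P1 p) : p.Prime := by
  rcases h with h | h
  · exact h.1
  · exact h.1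

lemma SS_mem {X : ℕ} {S : Finset ℕ} (h : S ∈ SS X) :
    (∀ p ∈ S, P3 p ∨ P1 p) ∧ ∏ p ∈ S, p ≤ X := by
  unfold SS at h
  rw [mem_filter] at h
  exact ⟨fun p hp => P31 (h.2.1.1 p hp), h.2.2⟩

/-- sets with many small primes -/
lemma part1 : ∃ C : ℝ, 0 ≤ C ∧ ∀ᶠ X : ℕ in atTop,
    (((SS X).filter fun S => eL X / 80 < ((sm (zz X) S).card : ℝ)).card : ℝ) ≤
      C * X * Real.exp (-(4 / 5) * eL X) := by
  obtain ⟨C, hC0, hC⟩ := mert
  set κ : ℝ := Real.exp 80 with hκ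
  have κ0 : 0 < κ := Real.exp_pos _
  refine ⟨Real.exp (κ * C), (Real.exp_pos _).le, ?_⟩
  filter_upwards [eL_tendsto.eventually (log_small (3 * κ) (1 / 5) (by norm_num)),
    eL_tendsto.eventually (eventually_ge_atTop 2)] with X h1 h2
  have h3 := moment X (zz X) (SS X)
    (fun S hS => ⟨fun p hp => pr ((SS_mem hS).1 p hp), (SS_mem hS).2⟩) κ κ0.le
  have h4 := hC (zz X) (zz_ge h2)
  have h5 := loglog_zz h2
  have h6 : (((SS X).filter fun S => eL X / 80 < ((sm (zz X) S).card : ℝ)).card : ℝ) *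
      Real.exp (eL X) ≤ ∑ S ∈ SS X, κ ^ (sm (zz X) S).card := by
    rw [← nsmul_eq_mul, ← sum_const]
    refine le_trans ?_ (sum_le_sum_of_subset_of_nonneg
      (filter_subset (fun S => eL X / 80 < ((sm (zz X) S).card : ℝ)) (SS X))
      fun S _ _ => by positivity)
    refine sum_le_sum fun S hS => ?_
    rw [mem_filter] at hS
    rw [hκ, ← Real.exp_nat_mul]
    apply Real.exp_le_exp.2
    linarith [hS.2]
  have h7 := h6.trans h3
  have h8 : κ * ∑ p ∈ PN (zz X), (1 : ℝ) / p ≤ κ * C + 1 / 5 * eL X := by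
    have : κ * ∑ p ∈ PN (zz X), (1 : ℝ) / p ≤ κ * (3 * Real.log (eL X) + C) :=
      mul_le_mul_of_nonneg_left (by linarith) κ0.le
    nlinarith
  have h9 : (X : ℝ) * Real.exp (κ * ∑ p ∈ PN (zz X), (1 : ℝ) / p) ≤
      X * (Real.exp (κ * C) * Real.exp (1 / 5 * eL X)) := by
    rw [← Real.exp_add]
    exact mul_le_mul_of_nonneg_left (Real.exp_le_exp.2 h8) (Nat.cast_nonneg _)
  have h10 := h7.trans h9
  have h11 : (Real.exp (κ * C) * X * Real.exp (-(4 / 5) * eL X)) * Real.exp (eL X) =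
      X * (Real.exp (κ * C) * Real.exp (1 / 5 * eL X)) := by
    have : Real.exp (1 / 5 * eL X) = Real.exp (-(4 / 5) * eL X) * Real.exp (eL X) := by
      rw [← Real.exp_add]
      congr 1
      ring
    rw [this]
    ring
  rw [← h11] at h10
  exact le_of_mul_le_mul_right h10 (Real.exp_pos _)

/-- the reciprocals of the primes of one class -/
lemma mer_a (hm : S_MER) (a : ℕ) (ha : a = 1 ∨ a = 3) : ∃ C : ℝ, 0 ≤ C ∧ ∀ y : ℕ, 3 ≤ y →
    ∑ p ∈ (PN y).filter (fun p => p.Prime ∧ p % 4 = a), (1 : ℝ) / p ≤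
      1 / 2 * Real.log (Real.log y) + C := by
  obtain ⟨C, hC⟩ := hm a ha
  refine ⟨|C|, abs_nonneg _, fun y hy => ?_⟩
  have h4 := (abs_le.1 (hC y hy)).2
  have h5 : ∑ p ∈ (PN y).filter (fun p => p.Prime ∧ p % 4 = a), (1 : ℝ) / p ≤
      ∑ p ∈ (range (y + 1)).filter (fun p => p.Prime ∧ p % 4 = a), (1 : ℝ) / p := by
    refine sum_le_sum_of_subset_of_nonneg ?_ fun p _ _ => by positivity
    intro p hp
    rw [mem_filter, mem_filter, mem_Icc] at hp
    rw [mem_filter, mem_range]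
    exact ⟨by omega, hp.2⟩
  have h6 := le_abs_self C
  linarith

/-- a family of sets of odd primes with a condition on the large primes -/
noncomputable def LL (X : ℕ) (Q : Finset ℕ → Prop) : Finset (Finset ℕ) :=
  (range (X + 1)).powerset.filter fun S => (∀ p ∈ S, P3 p ∨ P1 p) ∧ ∏ p ∈ S, p ≤ X ∧ Q S

lemma mem_LL {X : ℕ} {Q : Finset ℕ → Prop} {S : Finset ℕ} :
    S ∈ LL X Q ↔ S ⊆ range (X + 1) ∧
      (∀ p ∈ S, P3 p ∨ P1 p) ∧ ∏ p ∈ S, p ≤ X ∧ Q S := by
  unfold LL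
  rw [mem_filter, mem_powerset]

lemma LL_sub {X : ℕ} {Q : Finset ℕ → Prop} (hQ : ∀ S, Q S → ∀ T, T ⊆ S → Q T)
    {S T : Finset ℕ} (hS : S ∈ LL X Q) (h : T ⊆ S) : T ∈ LL X Q := by
  rw [mem_LL] at hS ⊢
  obtain ⟨a0, a1, a2, a3⟩ := hS
  refine ⟨h.trans a0, fun p hp => a1 p (h hp), ?_, hQ S a3 T h⟩
  refine le_trans ?_ a2
  exact prod_le_prod_of_subset_of_one_le' h fun p hp _ => (pr (a1 p hp)).one_lt.le

lemma mem_LL_of {X : ℕ} {Q : Finset ℕ → Prop} {S : Finset ℕ}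
    (hS : S ∈ SS X) (hQ : Q S) : S ∈ LL X Q := by
  obtain ⟨a1, a3⟩ := SS_mem hS
  rw [mem_LL]
  refine ⟨?_, a1, a3, hQ⟩
  intro p hp
  rw [mem_range]
  have := le_of_mem_prod (fun p hp => pr (a1 p hp)) a3 hp
  omega

/-- the logarithmic density of a family -/
lemma LL_sum (X z : ℕ) (Q : Finset ℕ → Prop) (w : ℕ → ℝ) (M s t : ℝ)
    (hw : ∀ p, 0 ≤ w p) (hM : 0 ≤ M) (hs : 0 ≤ s) (ht : 0 ≤ t)
    (h1w : ∀ S ∈ LL X Q, 1 ≤ M * ∏ p ∈ S, w p)
    (hz : ∀ p, p ≤ z → w p ≤ 1) (hS : ∀ p, P3 p → z < p → w p ≤ s)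
    (hI : ∀ p, P1 p → z < p → w p ≤ t) :
    ∑ S ∈ LL X Q, (1 : ℝ) / ((∏ p ∈ S, p : ℕ) : ℝ) ≤ M *
      Real.exp (∑ p ∈ PN z, (1 : ℝ) / p + s * ∑ p ∈ (PN X).filter P3, (1 : ℝ) / p +
        t * ∑ p ∈ (PN X).filter P1, (1 : ℝ) / p) := by
  have h1 : ∀ S ∈ LL X Q, (1 : ℝ) / ((∏ p ∈ S, p : ℕ) : ℝ) ≤
      M * ∏ p ∈ S, (w p * (1 / p)) := by
    intro S hS
    have h2 := h1w S hS
    have h3 : (0 : ℝ) ≤ ∏ p ∈ S, (1 : ℝ) / p := prod_nonneg fun p _ => by positivity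
    have h4 : (1 : ℝ) / ((∏ p ∈ S, p : ℕ) : ℝ) = ∏ p ∈ S, (1 : ℝ) / p := by
      rw [prod_div_distrib, prod_const_one]
      push_cast
      rfl
    rw [h4, prod_mul_distrib]
    calc ∏ p ∈ S, (1 : ℝ) / p = 1 * ∏ p ∈ S, (1 : ℝ) / p := (one_mul _).symm
      _ ≤ (M * ∏ p ∈ S, w p) * ∏ p ∈ S, (1 : ℝ) / p :=
          mul_le_mul_of_nonneg_right h2 h3
      _ = _ := by ring
  refine (sum_le_sum h1).trans ?_
  rw [← mul_sum]
  apply mul_le_mul_of_nonneg_left _ hM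
  have hnn : ∀ p : ℕ, 0 ≤ w p * (1 / (p : ℝ)) := fun p => mul_nonneg (hw p) (by positivity)
  have h5 : ∑ S ∈ LL X Q, ∏ p ∈ S, (w p * (1 / (p : ℝ))) ≤
      ∑ S ∈ ((PN X).filter fun p => P3 p ∨ P1 p).powerset, ∏ p ∈ S, (w p * (1 / (p : ℝ))) := by
    refine sum_le_sum_of_subset_of_nonneg ?_ fun S _ _ => prod_nonneg fun p _ => hnn p
    intro S hS
    rw [mem_LL] at hS
    rw [mem_powerset]
    intro p hp
    have h6 := pr (hS.2.1 p hp)
    rw [mem_filter, mem_filter, mem_Icc]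
    exact ⟨⟨⟨h6.one_lt.le, le_of_mem_prod (fun p hp => pr (hS.2.1 p hp)) hS.2.2.1 hp⟩, h6⟩,
      hS.2.1 p hp⟩
  refine h5.trans ((euler _ _ fun p _ => hnn p).trans ?_)
  apply Real.exp_le_exp.2
  have h6 : ∀ p ∈ (PN X).filter fun p => P3 p ∨ P1 p, w p * (1 / (p : ℝ)) ≤
      (if p ≤ z then (1 : ℝ) / p else 0) + ((if P3 p then s * (1 / (p : ℝ)) else 0) +
        (if P1 p then t * (1 / (p : ℝ)) else 0)) := by
    intro p hp
    have hp0 : (0 : ℝ) ≤ 1 / p := by positivity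
    have e1 : (0 : ℝ) ≤ if P3 p then s * (1 / (p : ℝ)) else 0 := by
      split_ifs
      · positivity
      · exact le_refl _
    have e2 : (0 : ℝ) ≤ if P1 p then t * (1 / (p : ℝ)) else 0 := by
      split_ifs
      · positivity
      · exact le_refl _
    by_cases hpz : p ≤ z
    · rw [if_pos hpz]
      have := mul_le_mul_of_nonneg_right (hz p hpz) hp0
      linarith
    · rw [if_neg hpz]
      rcases (mem_filter.1 hp).2 with h | h
      · rw [if_pos h]
        have := mul_le_mul_of_nonneg_right (hS p h (not_le.1 hpz)) hp0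
        linarith
      · have h3 : ¬ P3 p := by
          rintro ⟨_, h3⟩
          have := h.2
          omega
        rw [if_pos h, if_neg h3]
        have := mul_le_mul_of_nonneg_right (hI p h (not_le.1 hpz)) hp0
        linarith
  refine (sum_le_sum h6).trans ?_
  have h7 : ∑ p ∈ (PN X).filter (fun p => P3 p ∨ P1 p),
      ((if p ≤ z then (1 : ℝ) / p else 0) + ((if P3 p then s * (1 / (p : ℝ)) else 0) +
        (if P1 p then t * (1 / (p : ℝ)) else 0))) ≤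
      ∑ p ∈ PN X, ((if p ≤ z then (1 : ℝ) / p else 0) +
        ((if P3 p then s * (1 / (p : ℝ)) else 0) +
        (if P1 p then t * (1 / (p : ℝ)) else 0))) := by
    refine sum_le_sum_of_subset_of_nonneg (filter_subset _ _) fun p _ _ => ?_
    have hp0 : (0 : ℝ) ≤ 1 / p := by positivity
    have e0 : (0 : ℝ) ≤ if p ≤ z then (1 : ℝ) / p else 0 := by
      split_ifs
      · exact hp0
      · exact le_refl _
    have e1 : (0 : ℝ) ≤ if P3 p then s * (1 / (p : ℝ)) else 0 := by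
      split_ifs
      · positivity
      · exact le_refl _
    have e2 : (0 : ℝ) ≤ if P1 p then t * (1 / (p : ℝ)) else 0 := by
      split_ifs
      · positivity
      · exact le_refl _
    linarith
  refine h7.trans ?_
  rw [sum_add_distrib, sum_add_distrib, ← sum_filter, ← sum_filter, ← sum_filter, ← mul_sum,
    ← mul_sum, ← add_assoc]
  gcongr
  intro p hp
  rw [mem_filter, mem_filter, mem_Icc] at hp
  rw [mem_filter, mem_Icc]
  exact ⟨⟨hp.1.1.1, hp.2⟩, hp.1.2⟩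

/-- the number of the elements of a family closed under subsets -/
lemma part2 (hs : S_SIE) (hm : S_MER) (s t e : ℝ) (hs0 : 0 ≤ s)
    (ht0 : 0 ≤ t) (Q : ℕ → Finset ℕ → Prop) (hQ : ∀ X S, Q X S → ∀ T, T ⊆ S → Q X T)
    (w : ℕ → ℕ → ℝ) (hw : ∀ X p, 0 ≤ w X p) (hz : ∀ X p, p ≤ zz X → w X p ≤ 1)
    (hS : ∀ X p, P3 p → zz X < p → w X p ≤ s) (hN : ∀ X p, P1 p → zz X < p → w X p ≤ t)
    (h1w : ∀ X, 2 ≤ eL X → ∀ S ∈ LL X (Q X), 1 ≤ Real.exp (e * eL X) * ∏ p ∈ S, w X p)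
    {r : ℝ} (hr : -1 + e + s / 2 + t / 2 < r) :
    ∃ C : ℝ, 0 ≤ C ∧ ∀ᶠ X : ℕ in atTop,
    ((LL X (Q X)).card : ℝ) ≤ C * X * Real.exp (r * eL X) := by
  obtain ⟨C, hC0, hC⟩ := mert
  obtain ⟨C₁, hC₁0, hC₁⟩ := mer_a hm 3 (Or.inr rfl)
  obtain ⟨C₂, hC₂0, hC₂⟩ := mer_a hm 1 (Or.inl rfl)
  obtain ⟨C', hC'1, hC'⟩ := hs
  refine ⟨C' * Real.exp (C + s * C₁ + t * C₂), by positivity, ?_⟩
  have hε : 0 < r - (-1 + e + s / 2 + t / 2) := by linarith
  filter_upwards [eL_tendsto.eventually (log_small 3 _ hε),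
    eL_tendsto.eventually (eventually_ge_atTop 2), eventually_ge_atTop 3] with X h1 h2 h3
  set l := eL X with hl
  have h4 := hC (zz X) (zz_ge h2)
  have h5 := loglog_zz h2
  have h6 := hC₁ X h3
  have h6' := hC₂ X h3
  rw [← hl] at h5
  have ea : (PN X).filter P3 = (PN X).filter (fun p => p.Prime ∧ p % 4 = 3) := by
    ext p
    simp only [mem_filter, P3, P1]
  have eb : (PN X).filter P1 = (PN X).filter (fun p => p.Prime ∧ p % 4 = 1) := by
    ext p
    simp only [mem_filter, P3, P1]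
  rw [← ea] at h6
  rw [← eb] at h6'
  change ∑ p ∈ (PN X).filter P3, (1 : ℝ) / p ≤ 1 / 2 * l + C₁ at h6
  change ∑ p ∈ (PN X).filter P1, (1 : ℝ) / p ≤ 1 / 2 * l + C₂ at h6'
  have h7 := hC' X (LL X (Q X)) (by omega)
    (fun S hS => ⟨fun p hp => pr ((mem_LL.1 hS).2.1 p hp), (mem_LL.1 hS).2.2.1⟩)
    (fun S hS T hT => LL_sub (hQ X) hS hT)
  have h8 := LL_sum X (zz X) (Q X) (w X) (Real.exp (e * l)) s t (hw X) (Real.exp_pos _).le
    hs0 ht0 (h1w X h2) (hz X) (hS X) (hN X)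
  have hlX : Real.log X = Real.exp l := by
    have := rpow_eq (X := X) h2 1
    rwa [Real.rpow_one, one_mul] at this
  rw [hlX] at h7
  have h9 : s * ∑ p ∈ (PN X).filter P3, (1 : ℝ) / p ≤ s * (1 / 2 * l + C₁) :=
    mul_le_mul_of_nonneg_left h6 hs0
  have h10 : t * ∑ p ∈ (PN X).filter P1, (1 : ℝ) / p ≤ t * (1 / 2 * l + C₂) :=
    mul_le_mul_of_nonneg_left h6' ht0
  have h12 : Real.exp (e * l) * Real.exp (∑ p ∈ PN (zz X), (1 : ℝ) / p +
      s * ∑ p ∈ (PN X).filter P3, (1 : ℝ) / p +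
        t * ∑ p ∈ (PN X).filter P1, (1 : ℝ) / p) ≤
      Real.exp (C + s * C₁ + t * C₂) * Real.exp ((r + 1) * l) := by
    rw [← Real.exp_add, ← Real.exp_add]
    apply Real.exp_le_exp.2
    have e1 : ∑ p ∈ PN (zz X), (1 : ℝ) / p ≤ 3 * Real.log l + C := by linarith
    calc e * l + (∑ p ∈ PN (zz X), (1 : ℝ) / p + s * ∑ p ∈ (PN X).filter P3, (1 : ℝ) / p +
        t * ∑ p ∈ (PN X).filter P1, (1 : ℝ) / p)
        ≤ e * l + ((r - (-1 + e + s / 2 + t / 2)) * l + C +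
          s * (1 / 2 * l + C₁) + t * (1 / 2 * l + C₂)) := by linarith
      _ = C + s * C₁ + t * C₂ + (r + 1) * l := by ring
  have h13 : ((LL X (Q X)).card : ℝ) * Real.exp l ≤
      C' * X * (Real.exp (C + s * C₁ + t * C₂) * Real.exp ((r + 1) * l)) := by
    refine h7.trans ?_
    exact mul_le_mul_of_nonneg_left (h8.trans h12) (by positivity)
  have h14 : (C' * Real.exp (C + s * C₁ + t * C₂) * X * Real.exp (r * l)) * Real.exp l =
      C' * X * (Real.exp (C + s * C₁ + t * C₂) * Real.exp ((r + 1) * l)) := by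
    have : Real.exp ((r + 1) * l) = Real.exp (r * l) * Real.exp l := by
      rw [← Real.exp_add]
      congr 1
      ring
    rw [this]
    ring
  rw [← h14] at h13
  exact le_of_mul_le_mul_right h13 (Real.exp_pos _)

/-- sets with few large primes of the class `3` -/
lemma part4 (hs : S_SIE) (hm : S_MER) {r : ℝ}
    (hr : -1 / 3 ≤ r) : ∃ C : ℝ, 0 ≤ C ∧ ∀ᶠ X : ℕ in atTop,
    ((LL X fun S => ((la (zz X) S).filter fun p => p % 4 = 3).card ≤ ⌊eL X / 32⌋₊).card : ℝ) ≤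
      C * X * Real.exp (r * eL X) := by
  have hl4 : Real.log 4 / 32 < 3 / 64 := by
    have h1 : (4 : ℝ) = 2 ^ 2 := by norm_num
    rw [h1, Real.log_pow]
    have := Real.log_two_lt_d9
    push_cast
    linarith
  refine part2 hs hm (1 / 8) 1 (Real.log 8 / 32) (by norm_num) zero_le_one
    (fun X S => ((la (zz X) S).filter fun p => p % 4 = 3).card ≤ ⌊eL X / 32⌋₊) ?_
    (fun X p => if ¬ p ≤ zz X ∧ p % 4 = 3 then 1 / 8 else 1) ?_ ?_ ?_ ?_ ?_ ?_
  · intro X S h T hT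
    refine (card_le_card (filter_subset_filter _ ?_)).trans h
    unfold la
    exact filter_subset_filter _ hT
  · intro X p
    split_ifs <;> norm_num
  · intro X p _
    split_ifs <;> norm_num
  · intro X p h h'
    rw [if_pos ⟨not_le.2 h', h.2⟩]
  · intro X p _ _
    split_ifs <;> norm_num
  · intro X hX S hS
    rw [mem_LL] at hS
    rw [← prod_filter, prod_const]
    have h1 : (S.filter fun p => ¬ p ≤ zz X ∧ p % 4 = 3).card ≤ ⌊eL X / 32⌋₊ := by
      refine (card_le_card ?_).trans hS.2.2.2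
      intro p hp
      rw [mem_filter] at hp
      unfold la
      rw [mem_filter, mem_filter]
      exact ⟨⟨hp.1, hp.2.1⟩, hp.2.2⟩
    have h2 : (1 / 8 : ℝ) ^ ⌊eL X / 32⌋₊ ≤
        (1 / 8 : ℝ) ^ (S.filter fun p => ¬ p ≤ zz X ∧ p % 4 = 3).card :=
      pow_le_pow_of_le_one (by norm_num) (by norm_num) h1
    have h3 : Real.exp (-(Real.log 8 / 32 * eL X)) ≤ (1 / 8 : ℝ) ^ ⌊eL X / 32⌋₊ := by
      have e1 : (1 / 8 : ℝ) = Real.exp (-Real.log 8) := by
        rw [Real.exp_neg, Real.exp_log (by norm_num)]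
        norm_num
      rw [e1, ← Real.exp_nat_mul]
      apply Real.exp_le_exp.2
      have e2 : ((⌊eL X / 32⌋₊ : ℕ) : ℝ) ≤ eL X / 32 := Nat.floor_le (by linarith)
      have e4 : 0 ≤ Real.log 8 := Real.log_nonneg (by norm_num)
      have e5 := mul_le_mul_of_nonneg_right e2 e4
      linarith
    calc (1 : ℝ) = Real.exp (Real.log 8 / 32 * eL X) *
          Real.exp (-(Real.log 8 / 32 * eL X)) := by
          rw [← Real.exp_add, add_neg_cancel, Real.exp_zero]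
      _ ≤ _ := mul_le_mul_of_nonneg_left (h3.trans h2) (Real.exp_pos _).le
  · have h8 : Real.log 8 = 3 * Real.log 2 := by
      have h1 : (8 : ℝ) = 2 ^ 3 := by norm_num
      rw [h1, Real.log_pow]
      push_cast
      ring
    have := Real.log_two_lt_d9
    rw [h8]
    linarith

end FewA

open Finset Filter
open Pool.Agent.Y703.CX (sm la eL zz S_SIE)
open Pool.Agent.Y495.CX.Few (eL_tendsto rpow_eq)

theorem t_FEW : S_FEW := by
  intro hs hm V
  set r : ℝ := -(1 / 32) with hr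
  obtain ⟨C₁, hC₁, h1⟩ := FewA.part1
  obtain ⟨C₃, hC₃, h3⟩ := FewA.part4 hs hm (r := r) (by norm_num [hr])
  have h4 := (h1.and h3).and
    (eL_tendsto.eventually (eventually_ge_atTop (max 2 (160 * (V : ℝ)))))
  rw [eventually_atTop] at h4
  obtain ⟨X₀, hX₀⟩ := h4
  refine ⟨C₁ + C₃, X₀, fun X hX => ?_⟩
  obtain ⟨⟨h5, h7⟩, h8⟩ := hX₀ X hX
  have h9 : 2 ≤ eL X := (le_max_left _ _).trans h8
  have h10 : 160 * (V : ℝ) ≤ eL X := (le_max_right _ _).trans h8
  rw [rpow_eq h9]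
  have h11 : ((SS X).filter fun S => ((la (zz X) S).filter fun p => p % 4 = 3).card ≤
      2 * (sm (zz X) S).card + V) ⊆
      ((SS X).filter fun S => eL X / 80 < ((sm (zz X) S).card : ℝ)) ∪
        FewA.LL X fun S => ((la (zz X) S).filter fun p => p % 4 = 3).card ≤ ⌊eL X / 32⌋₊ := by
    intro S hS
    rw [mem_filter] at hS
    rw [mem_union, mem_filter]
    have h := hS.2
    by_cases hc : eL X / 80 < ((sm (zz X) S).card : ℝ)
    · exact Or.inl ⟨hS.1, hc⟩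
    · right
      rw [not_lt] at hc
      refine FewA.mem_LL_of hS.1 ?_
      apply Nat.le_floor
      have h12 : ((((la (zz X) S).filter fun p => p % 4 = 3).card : ℕ) : ℝ) ≤
          2 * ((sm (zz X) S).card : ℝ) + V := by exact_mod_cast h
      linarith
  have h12 : (((SS X).filter fun S => ((la (zz X) S).filter fun p => p % 4 = 3).card ≤
      2 * (sm (zz X) S).card + V).card : ℝ) ≤
      (((SS X).filter fun S => eL X / 80 < ((sm (zz X) S).card : ℝ)).card : ℝ) +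
      ((FewA.LL X fun S => ((la (zz X) S).filter fun p => p % 4 = 3).card ≤
        ⌊eL X / 32⌋₊).card : ℝ) := by
    exact_mod_cast (card_le_card h11).trans (card_union_le _ _)
  have h13 : C₁ * X * Real.exp (-(4 / 5) * eL X) ≤ C₁ * X * Real.exp (r * eL X) := by
    apply mul_le_mul_of_nonneg_left _ (by positivity)
    apply Real.exp_le_exp.2
    apply mul_le_mul_of_nonneg_right _ (by linarith)
    rw [hr]
    norm_num
  refine h12.trans ((add_le_add (h5.trans h13) h7).trans (le_of_eq ?_))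
  ring

end Pool.Agent.H757_X15.DD
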