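import Pool.Agent.H757_X15.StmD
import Pool.Agent.Y405.CQ.MER

/-!
# X15-D, part MER: Mertens' theorem modulo 4 (helper539)
-/

set_option autoImplicit false

open scoped Classical

namespace Pool.Agent.H757_X15.DD

open Finset

theorem t_MER : S_MER := by
  intro a ha
  have ha4 : a < 4 := by omega
  have hac : a.Coprime 4 := by
    rcases ha with h | h <;> rw [h] <;> norm_num
  obtain ⟨C, -, hC⟩ := Pool.Agent.Y405.CQ.mertens_ap 4 (by norm_num) a ha4 hac
  refine ⟨C, fun y hy => ?_⟩
  have h1 := hC y hy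
  have h2 : Nat.totient 4 = 2 := by decide
  rw [h2] at h1
  have h3 : (range (y + 1)).filter (fun p => p.Prime ∧ p % 4 = a) =
      (Icc 1 y).filter (fun p => p.Prime ∧ p % 4 = a) := by
    ext p
    rw [mem_filter, mem_filter, mem_range, mem_Icc]
    constructor
    · rintro ⟨g1, g2, g3⟩
      exact ⟨⟨g2.one_lt.le, by omega⟩, g2, g3⟩
    · rintro ⟨⟨g0, g1⟩, g2, g3⟩
      exact ⟨by omega, g2, g3⟩
  rw [h3]
  exact_mod_cast h1

end Pool.Agent.H757_X15.DD
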