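import Pool.Agent.H757_X15.StmD
import Pool.Agent.Y710.CQ.BIL

/-!
# X15-D5: bilinear sums of quadratic symbols for all odd primes
-/

set_option autoImplicit false
set_option linter.all false

open Finset

namespace Pool.Agent.H757_X15.DD

open Pool.Agent.Y703.CQ (nr sg)
open Pool.Agent.Y710.CQ (xi bil sg_xi)

/-- the sign of `q` modulo `4` -/
noncomputable def e4 (q : ℕ) : ℂ := if q % 4 = 3 then -1 else 1

theorem e4_norm (q : ℕ) : ‖e4 q‖ ≤ 1 := by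
  unfold e4
  split_ifs <;> simp

theorem xi_rec {p q : ℕ} (hp : p.Prime) (hq : q.Prime) (hp2 : p ≠ 2) (hq2 : q ≠ 2) :
    xi p q = (if p % 4 = 3 then e4 q else 1) * xi q p := by
  have hpo := hp.odd_of_ne_two hp2
  have hqo := hq.odd_of_ne_two hq2
  unfold xi e4
  by_cases h3 : p % 4 = 3
  · rw [if_pos h3]
    by_cases h4 : q % 4 = 3
    · rw [if_pos h4, jacobiSym.quadratic_reciprocity_three_mod_four h4 h3]
      push_cast
      ring
    · rw [if_neg h4, one_mul]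
      have : q % 4 = 1 := by
        have := Nat.odd_iff.1 hqo
        omega
      rw [jacobiSym.quadratic_reciprocity_one_mod_four this hpo]
  · rw [if_neg h3, one_mul]
    have : p % 4 = 1 := by
      have := Nat.odd_iff.1 hpo
      omega
    rw [jacobiSym.quadratic_reciprocity_one_mod_four' hqo this]

theorem pow12 (a b : ℝ) (ha : 0 ≤ a) (hb : 0 ≤ b) : (a + b) ^ 12 ≤ 2 ^ 12 * (a ^ 12 + b ^ 12) := by
  rcases le_total a b with h | h
  · have h1 : (a + b) ^ 12 ≤ (2 * b) ^ 12 := pow_le_pow_left₀ (by linarith) (by linarith) 12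
    have h2 : (0:ℝ) ≤ a ^ 12 := by positivity
    rw [mul_pow] at h1
    linarith
  · have h1 : (a + b) ^ 12 ≤ (2 * a) ^ 12 := pow_le_pow_left₀ (by linarith) (by linarith) 12
    have h2 : (0:ℝ) ≤ b ^ 12 := by positivity
    rw [mul_pow] at h1
    linarith

theorem t_BIL : S_BIL := by
  refine ⟨2 ^ 13 * (3 * 6 ^ 6), by norm_num, ?_⟩
  intro P Q A B z c d hP hQ hdis hz hzA hzB hc hd
  have hne : ∀ p ∈ P, ∀ q ∈ Q, p ≠ q := fun p hp q hq he =>
    (Finset.disjoint_left.1 hdis) hp (he ▸ hq)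
  have hzr : (1 : ℝ) ≤ z := by exact_mod_cast hz
  rcases le_total B A with hBA | hAB
  · -- the moduli are the primes of `Q`
    have hb : ∀ P' ⊆ P, ∀ d' : ℕ → ℂ, (∀ q, ‖d' q‖ ≤ 1) →
        ‖∑ q ∈ Q, ∑ p ∈ P', d' q * c p * xi q p‖ ^ 12 * z ≤ 3 * 6 ^ 6 * ((A : ℝ) * B) ^ 12 := by
      intro P' hP' d' hd'
      have h1 := bil (hz.trans hzB) hBA hQ (fun p hp => hP p (hP' hp)) d' c hd' hc
      have h2 : (z : ℝ) ≤ B := by exact_mod_cast hzB
      calc ‖∑ q ∈ Q, ∑ p ∈ P', d' q * c p * xi q p‖ ^ 12 * z ≤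
          (3 * 6 ^ 6 * ((B : ℝ) ^ 11 * (A : ℝ) ^ 12)) * B := by
            apply mul_le_mul h1 h2 (by positivity) (by positivity)
        _ = 3 * 6 ^ 6 * ((A : ℝ) * B) ^ 12 := by ring
    have e1 : ∑ p ∈ P, ∑ q ∈ Q, c p * d q * sg (nr p q) =
        ∑ q ∈ Q, ∑ p ∈ P.filter (fun p => p % 4 = 3), (d q * e4 q) * c p * xi q p +
        ∑ q ∈ Q, ∑ p ∈ P.filter (fun p => ¬ p % 4 = 3), d q * c p * xi q p := by
      rw [sum_comm, ← sum_add_distrib]
      refine sum_congr rfl fun q hq => ?_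
      rw [← sum_filter_add_sum_filter_not P (fun p => p % 4 = 3)]
      obtain ⟨q1, q2, -⟩ := hQ q hq
      congr 1
      · refine sum_congr rfl fun p hp => ?_
        obtain ⟨hp, h3⟩ := mem_filter.1 hp
        obtain ⟨p1, p2, -⟩ := hP p hp
        rw [sg_xi p1 q1 (hne p hp q hq), xi_rec p1 q1 p2 q2, if_pos h3]
        ring
      · refine sum_congr rfl fun p hp => ?_
        obtain ⟨hp, h3⟩ := mem_filter.1 hp
        obtain ⟨p1, p2, -⟩ := hP p hp
        rw [sg_xi p1 q1 (hne p hp q hq), xi_rec p1 q1 p2 q2, if_neg h3]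
        ring
    have b1 := hb (P.filter (fun p => p % 4 = 3)) (filter_subset _ _) (fun q => d q * e4 q) (fun q => by
      show ‖d q * e4 q‖ ≤ 1
      rw [norm_mul]
      exact mul_le_one₀ (hd q) (norm_nonneg _) (e4_norm q))
    have b2 := hb (P.filter (fun p => ¬ p % 4 = 3)) (filter_subset _ _) d hd
    rw [e1]
    set s1 := ∑ q ∈ Q, ∑ p ∈ P.filter (fun p => p % 4 = 3), (d q * e4 q) * c p * xi q p with hs1
    set s2 := ∑ q ∈ Q, ∑ p ∈ P.filter (fun p => ¬ p % 4 = 3), d q * c p * xi q p with hs2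
    have h3 : ‖s1 + s2‖ ^ 12 ≤ 2 ^ 12 * (‖s1‖ ^ 12 + ‖s2‖ ^ 12) :=
      (pow_le_pow_left₀ (norm_nonneg _) (norm_add_le _ _) 12).trans
        (pow12 _ _ (norm_nonneg _) (norm_nonneg _))
    calc ‖s1 + s2‖ ^ 12 * z ≤ (2 ^ 12 * (‖s1‖ ^ 12 + ‖s2‖ ^ 12)) * z :=
          mul_le_mul_of_nonneg_right h3 (by linarith)
      _ = 2 ^ 12 * (‖s1‖ ^ 12 * z + ‖s2‖ ^ 12 * z) := by ring
      _ ≤ 2 ^ 12 * (3 * 6 ^ 6 * ((A : ℝ) * B) ^ 12 + 3 * 6 ^ 6 * ((A : ℝ) * B) ^ 12) := by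
          apply mul_le_mul_of_nonneg_left (add_le_add b1 b2) (by positivity)
      _ = 2 ^ 13 * (3 * 6 ^ 6) * ((A : ℝ) * B) ^ 12 := by ring
  · have e1 : ∑ p ∈ P, ∑ q ∈ Q, c p * d q * sg (nr p q) =
        ∑ p ∈ P, ∑ q ∈ Q, c p * d q * xi p q := by
      refine sum_congr rfl fun p hp => sum_congr rfl fun q hq => ?_
      rw [sg_xi (hP p hp).1 (hQ q hq).1 (hne p hp q hq)]
    rw [e1]
    have h1 := bil (hz.trans hzA) hAB hP hQ c d hc hd
    have h2 : (z : ℝ) ≤ A := by exact_mod_cast hzA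
    calc ‖∑ p ∈ P, ∑ q ∈ Q, c p * d q * xi p q‖ ^ 12 * z ≤
        (3 * 6 ^ 6 * ((A : ℝ) ^ 11 * (B : ℝ) ^ 12)) * A := by
          apply mul_le_mul h1 h2 (by positivity) (by positivity)
      _ = 3 * 6 ^ 6 * ((A : ℝ) * B) ^ 12 := by ring
      _ ≤ 2 ^ 13 * (3 * 6 ^ 6) * ((A : ℝ) * B) ^ 12 := by
          apply mul_le_mul_of_nonneg_right _ (by positivity)
          norm_num

end Pool.Agent.H757_X15.DD
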