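import Pool.Agent.H757_X15.StmD
import Pool.Agent.Y475.CQ.HalA

/-!
# X15-D, part HAL: the logarithmic density for a quadratic character (helper539)
-/

set_option autoImplicit false

open scoped Classical

namespace Pool.Agent.H757_X15.DD

open Finset
open Pool.Agent.Y703.CQ (nr)
open Pool.Agent.Y475.CQ (main_le tsum_le part_le sum_zero zeta_le pow_small)

namespace Hal

/-- the character modulo 4 -/
noncomputable def c0 : ℕ →* ℝ where
  toFun n := ((ZMod.χ₄ (n : ZMod 4) : ℤ) : ℝ)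
  map_one' := by simp
  map_mul' m n := by push_cast; rw [map_mul]; push_cast; rfl

/-- the Jacobi symbol modulo M -/
noncomputable def cJ (M : ℕ) : ℕ →* ℝ where
  toFun n := ((jacobiSym (n : ℤ) M : ℤ) : ℝ)
  map_one' := by simp
  map_mul' m n := by push_cast; rw [jacobiSym.mul_left]; push_cast; rfl

/-- the character -/
noncomputable def ch (e : ZMod 2) (M : ℕ) : ℕ →* ℝ := (if e = 0 then 1 else c0) * cJ M

theorem ch_apply (e : ZMod 2) (M n : ℕ) :
    ch e M n = (if e = 0 then 1 else ((ZMod.χ₄ (n : ZMod 4) : ℤ) : ℝ)) *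
      ((jacobiSym (n : ℤ) M : ℤ) : ℝ) := by
  unfold ch
  rw [MonoidHom.mul_apply]
  split_ifs with h
  · rfl
  · rfl

theorem ch_val (e : ZMod 2) (M n : ℕ) : ch e M n = 0 ∨ ch e M n = 1 ∨ ch e M n = -1 := by
  rw [ch_apply]
  have h1 : (jacobiSym (n : ℤ) M) = 0 ∨ jacobiSym (n : ℤ) M = 1 ∨ jacobiSym (n : ℤ) M = -1 :=
    jacobiSym.trichotomy (n : ℤ) M
  have h2 : ∀ z : ZMod 4, ZMod.χ₄ z = 0 ∨ ZMod.χ₄ z = 1 ∨ ZMod.χ₄ z = -1 := by decide
  rcases h1 with h | h | h <;> rcases h2 (n : ZMod 4) with h' | h' | h' <;> rw [h, h'] <;>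
    split_ifs <;> norm_num

theorem ch_mod (e : ZMod 2) (M a b : ℕ) (h : a ≡ b [MOD 4 * M]) : ch e M a = ch e M b := by
  have h4 : a ≡ b [MOD 4] := h.of_dvd (dvd_mul_right _ _)
  have hM : a ≡ b [MOD M] := h.of_dvd (dvd_mul_left _ _)
  rw [ch_apply, ch_apply, (ZMod.natCast_eq_natCast_iff a b 4).2 h4,
    jacobiSym.mod_left' (b := M) ((Int.natCast_modEq_iff).2 hM)]

theorem leg (p : ℕ) [Fact p.Prime] (n : ℕ) : jacobiSym (n : ℤ) p = legendreSym p n :=
  (jacobiSym.legendreSym.to_jacobiSym p n).symm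

/-- a number with the value `-1` of the character -/
theorem exK (e : ZMod 2) (W : Finset ℕ) (hp : ∀ u ∈ W, u.Prime ∧ u ≠ 2)
    (hn : W.Nonempty ∨ e ≠ 0) :
    ∃ k : ℕ, Nat.Coprime k (4 * ∏ u ∈ W, u) ∧ ch e (∏ u ∈ W, u) k = -1 := by
  rcases W.eq_empty_or_nonempty with hW | hW
  · subst hW
    have he : e ≠ 0 := by
      rcases hn with h | h
      · exact absurd h (by simp)
      · exact h
    refine ⟨3, by norm_num, ?_⟩
    rw [ch_apply, if_neg he, prod_empty, jacobiSym.one_right]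
    have : ZMod.χ₄ ((3 : ℕ) : ZMod 4) = -1 := by decide
    rw [this]
    norm_num
  obtain ⟨v, hv⟩ := hW
  have hvp := (hp v hv).1
  have hvf : Fact v.Prime := ⟨hvp⟩
  have hv2 : v ≠ 2 := (hp v hv).2
  obtain ⟨g, hg⟩ := FiniteField.exists_nonsquare (F := ZMod v) (by rw [ZMod.ringChar_zmod_n]; exact hv2)
  set Q := ∏ u ∈ W.erase v, u with hQ
  have hM : ∏ u ∈ W, u = v * Q := (mul_prod_erase W (fun u => u) hv).symm
  have hcop : Nat.Coprime v (4 * Q) := by
    refine Nat.Coprime.mul_right ?_ ?_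
    · rw [Nat.Prime.coprime_iff_not_dvd hvp]
      intro h
      have h1 : v ∣ 2 ^ 2 := by simpa using h
      exact hv2 ((Nat.prime_dvd_prime_iff_eq hvp Nat.prime_two).1 (hvp.dvd_of_dvd_pow h1))
    · rw [Nat.coprime_prod_right_iff]
      intro u hu
      exact (Nat.coprime_primes hvp (hp u (mem_of_mem_erase hu)).1).2 (ne_of_mem_erase hu).symm
  obtain ⟨k, hk1, hk2⟩ := Nat.chineseRemainder hcop g.val 1
  have hk4 : k ≡ 1 [MOD 4] := hk2.of_dvd (dvd_mul_right _ _)
  have hkQ : k ≡ 1 [MOD Q] := hk2.of_dvd (dvd_mul_left _ _)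
  have hkv : ((k : ℕ) : ZMod v) = g := by
    rw [(ZMod.natCast_eq_natCast_iff k g.val v).2 hk1, ZMod.natCast_zmod_val]
  have hJQ : jacobiSym (k : ℤ) Q = 1 := by
    have h1 : jacobiSym (k : ℤ) Q = jacobiSym ((1 : ℕ) : ℤ) Q :=
      jacobiSym.mod_left' ((Int.natCast_modEq_iff).2 hkQ)
    rw [h1, Nat.cast_one, jacobiSym.one_left]
  have hJv : jacobiSym (k : ℤ) v = -1 := by
    rw [leg, legendreSym.eq_neg_one_iff]
    rw [Int.cast_natCast, hkv]
    exact hg
  have hQ0 : Q ≠ 0 := by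
    rw [hQ, prod_ne_zero_iff]
    intro u hu
    exact (hp u (mem_of_mem_erase hu)).1.ne_zero
  have : NeZero v := ⟨hvp.ne_zero⟩
  have : NeZero Q := ⟨hQ0⟩
  refine ⟨k, ?_, ?_⟩
  · rw [hM]
    refine Nat.Coprime.mul_right ?_ (Nat.Coprime.mul_right ?_ ?_)
    · have := hk4.gcd_eq
      rw [Nat.gcd_one_left] at this
      exact this
    · rw [Nat.coprime_comm, Nat.Prime.coprime_iff_not_dvd hvp]
      intro h
      rw [← ZMod.natCast_eq_zero_iff, hkv] at h
      exact hg (h ▸ IsSquare.zero)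
    · have := hkQ.gcd_eq
      rw [Nat.gcd_one_left] at this
      exact this
  · rw [ch_apply, hM, jacobiSym.mul_right, hJv, hJQ, (ZMod.natCast_eq_natCast_iff k 1 4).2 hk4]
    simp

/-- the bound of the L-function -/
theorem L_le (e : ZMod 2) (W : Finset ℕ) (hp : ∀ u ∈ W, u.Prime ∧ u ≠ 2)
    (hn : W.Nonempty ∨ e ≠ 0) (σ : ℝ) (hσ : 1 < σ) :
    ∑' n : ℕ, ch e (∏ u ∈ W, u) n * (n : ℝ) ^ (-σ) ≤
      3 + Real.log ((4 * ∏ u ∈ W, u : ℕ) : ℝ) := by
  set M := ∏ u ∈ W, u with hM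
  obtain ⟨k, hk1, hk2⟩ := exK e W hp hn
  have hM0 : 0 < M := prod_pos fun u hu => (hp u hu).1.pos
  have hq : 1 ≤ 4 * M := by omega
  have habs : ∀ n, |ch e M n| ≤ 1 := by
    intro n
    rcases ch_val e M n with h | h | h <;> rw [h] <;> norm_num
  have hper : ∀ n, ch e M (4 * M + n) = ch e M n := by
    intro n
    refine ch_mod e M _ _ ?_
    show (4 * M + n) % (4 * M) = n % (4 * M)
    rw [Nat.add_mod_left]
  have hz := sum_zero (ch e M) (4 * M) hq hper k hk1 hk2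
  exact tsum_le (fun n => ch e M n) (4 * M) hq habs (part_le _ (4 * M) hq habs hper hz) σ hσ

/-- the sign -/
def sn (a : ZMod 2) : ℤ := if a = 0 then 1 else -1

theorem sn_add (a b : ZMod 2) : sn (a + b) = sn a * sn b := by
  revert a b; decide

theorem zne (s : ZMod 2) (h : s ≠ 0) : s = 1 := by
  revert s; decide

theorem sncomb (e a : ZMod 2) : (if e = 0 then (1 : ℤ) else sn a) = sn (e * a) := by
  revert e a; decide

theorem chi4 (p : ℕ) (h : p.Prime) (h2 : p ≠ 2) : ZMod.χ₄ ((p : ℕ) : ZMod 4) = sn (aa p) := by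
  have hodd : p % 2 = 1 := by
    rcases h.eq_two_or_odd with h' | h'
    · exact absurd h' h2
    · exact h'
  have h4 : p % 4 = 1 ∨ p % 4 = 3 := by omega
  rw [← ZMod.natCast_mod p 4]
  unfold aa sn
  rcases h4 with h' | h' <;> rw [h'] <;> decide

theorem J5 (p : ℕ) (h : p.Prime) (h5 : p ≠ 5) : jacobiSym (p : ℤ) 5 = sn (bb p) := by
  have h1 : p % 5 ≠ 0 := by
    intro h0
    exact h5 ((Nat.prime_dvd_prime_iff_eq (by norm_num) h).1 (Nat.dvd_of_mod_eq_zero h0)).symm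
  have h2 : jacobiSym (p : ℤ) 5 = jacobiSym ((p % 5 : ℕ) : ℤ) 5 :=
    jacobiSym.mod_left' ((Int.natCast_modEq_iff).2 (Nat.mod_modEq p 5).symm)
  have h3 : p % 5 = 1 ∨ p % 5 = 2 ∨ p % 5 = 3 ∨ p % 5 = 4 := by omega
  rw [h2]
  unfold bb sn
  rcases h3 with h | h | h | h <;> rw [h] <;> norm_num

/-- reciprocity -/
theorem Jp (p u : ℕ) (h : p.Prime) (h2 : p ≠ 2) (hu : u.Prime) (hu2 : u ≠ 2) (hne : p ≠ u) :
    jacobiSym (p : ℤ) u = sn (nr p u + aa p * aa u) := by
  have hpf : Fact p.Prime := ⟨h⟩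
  have huf : Fact u.Prime := ⟨hu⟩
  have ho : p % 2 = 1 := by
    rcases h.eq_two_or_odd with h' | h'
    · exact absurd h' h2
    · exact h'
  have huo : u % 2 = 1 := by
    rcases hu.eq_two_or_odd with h' | h'
    · exact absurd h' hu2
    · exact h'
  have hval : jacobiSym (u : ℤ) p = sn (nr p u) := by
    have hne0 : ((u : ℤ) : ZMod p) ≠ 0 := by
      intro h0
      rw [Int.cast_natCast, ZMod.natCast_eq_zero_iff] at h0
      exact hne ((Nat.prime_dvd_prime_iff_eq h hu).1 h0)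
    rw [leg]
    unfold nr sn
    by_cases hsq : IsSquare (u : ZMod p)
    · rw [if_pos hsq, if_pos rfl]
      exact (legendreSym.eq_one_iff p hne0).2 (by rwa [Int.cast_natCast])
    · rw [if_neg hsq, if_neg (by decide)]
      exact (legendreSym.eq_neg_one_iff p).2 (by rwa [Int.cast_natCast])
  have h4 : p % 4 = 1 ∨ p % 4 = 3 := by omega
  have hu4 : u % 4 = 1 ∨ u % 4 = 3 := by omega
  have hodd : Odd p := Nat.odd_iff.2 ho
  have huodd : Odd u := Nat.odd_iff.2 huo
  rcases h4 with h' | h'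
  · have ha : aa p = 0 := by unfold aa; rw [if_neg (by omega)]
    rw [ha, zero_mul, add_zero, ← hval]
    exact jacobiSym.quadratic_reciprocity_one_mod_four h' huodd
  · rcases hu4 with hu' | hu'
    · have ha : aa u = 0 := by unfold aa; rw [if_neg (by omega)]
      rw [ha, mul_zero, add_zero, ← hval]
      exact (jacobiSym.quadratic_reciprocity_one_mod_four hu' hodd).symm
    · have ha : aa p = 1 := by unfold aa; rw [if_pos h']
      have hau : aa u = 1 := by unfold aa; rw [if_pos hu']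
      rw [ha, hau, one_mul, sn_add, ← hval]
      have := jacobiSym.quadratic_reciprocity_three_mod_four h' hu'
      rw [this]
      have : sn 1 = -1 := by decide
      rw [this]
      ring

/-- the symbol of a product -/
theorem Jprod (p : ℕ) (h : p.Prime) (h2 : p ≠ 2) (W : Finset ℕ)
    (hW : ∀ u ∈ W, u.Prime ∧ u ≠ 2 ∧ p ≠ u) :
    jacobiSym (p : ℤ) (∏ u ∈ W, u) = sn (∑ u ∈ W, nr p u + aa p * ∑ u ∈ W, aa u) := by
  induction W using Finset.induction_on with
  | empty => simp [sn]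
  | insert a s ha ih =>
    have ihs := ih fun u hu => hW u (mem_insert_of_mem hu)
    obtain ⟨h3, h4, h5⟩ := hW a (mem_insert_self a s)
    have : NeZero a := ⟨h3.ne_zero⟩
    have : NeZero (∏ u ∈ s, u) := ⟨by
      rw [prod_ne_zero_iff]
      intro u hu
      exact (hW u (mem_insert_of_mem hu)).1.ne_zero⟩
    rw [prod_insert ha, sum_insert ha, sum_insert ha, jacobiSym.mul_right, ihs,
      Jp p a h h2 h3 h4 h5, ← sn_add]
    congr 1
    ring

end Hal

open Hal

theorem t_HAL : S_HAL := by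
  refine ⟨1000, by norm_num, fun W t s T hne hW hT => ?_⟩
  -- the modulus
  obtain ⟨W', hW'd⟩ : ∃ W' : Finset ℕ, W' = if s = 0 then W else insert 5 W := ⟨_, rfl⟩
  obtain ⟨e, hed⟩ : ∃ e : ZMod 2, e = t + ∑ u ∈ W, aa u := ⟨_, rfl⟩
  have h5W : 5 ∉ W := fun h => by have := (hW 5 h).2; omega
  have hp' : ∀ u ∈ W', u.Prime ∧ u ≠ 2 := by
    intro u hu
    rw [hW'd] at hu
    split_ifs at hu with h0
    · exact ⟨(hW u hu).1, by have := (hW u hu).2; omega⟩
    · rcases mem_insert.1 hu with h | h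
      · subst h; norm_num
      · exact ⟨(hW u h).1, by have := (hW u h).2; omega⟩
  have hn' : W'.Nonempty ∨ e ≠ 0 := by
    by_cases hs : s = 0
    · rw [hW'd, if_pos hs]
      rcases W.eq_empty_or_nonempty with h | h
      · right
        rw [hed, h, sum_empty, add_zero]
        rcases hne with h1 | h1 | h1
        · rw [h] at h1; exact absurd h1 (by simp)
        · exact h1
        · exact absurd hs h1
      · left; exact h
    · left
      rw [hW'd, if_neg hs]
      exact insert_nonempty _ _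
  set M := ∏ u ∈ W, u with hM
  have hM0 : 0 < M := prod_pos fun u hu => (hW u hu).1.pos
  have hM' : ∏ u ∈ W', u ≤ 5 * M := by
    rw [hW'd]
    split_ifs with h0
    · rw [← hM]; omega
    · rw [prod_insert h5W]
  have hM'0 : 0 < ∏ u ∈ W', u := prod_pos fun u hu => (hp' u hu).1.pos
  have lT : 0 < Real.log T := Real.log_pos (by exact_mod_cast (by omega : 1 < T))
  obtain ⟨σ, hσd⟩ : ∃ σ : ℝ, σ = 1 + 1 / Real.log T := ⟨_, rfl⟩
  have hσ : 1 < σ := by
    rw [hσd]
    have : 0 < 1 / Real.log T := by positivity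
    linarith
  obtain ⟨P, hPd⟩ : ∃ P : Finset ℕ, P = (range (T + 1)).filter
    (fun p => (p.Prime ∧ p ≠ 2 ∧ p ∉ W ∧ ∑ u ∈ W, nr p u + t * aa p + s * bb p = 0) ∧ p ≠ 5) :=
    ⟨_, rfl⟩
  have hP : ∀ p ∈ P, (p.Prime ∧ p ≠ 2 ∧ p ∉ W ∧ ∑ u ∈ W, nr p u + t * aa p + s * bb p = 0) ∧
      p ≠ 5 := by
    intro p hp
    rw [hPd, mem_filter] at hp
    exact hp.2
  -- the symbols
  have hone : ∀ p ∈ P, ch e (∏ u ∈ W', u) p = 1 := by
    intro p hp
    obtain ⟨⟨g1, g2, g3, g4⟩, g5⟩ := hP p hp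
    have hJW := Jprod p g1 g2 W fun u hu =>
      ⟨(hW u hu).1, by have := (hW u hu).2; omega, fun h => g3 (h ▸ hu)⟩
    have hJ : jacobiSym (p : ℤ) (∏ u ∈ W', u) =
        sn (∑ u ∈ W, nr p u + aa p * ∑ u ∈ W, aa u + s * bb p) := by
      rw [hW'd]
      split_ifs with h0
      · rw [h0, zero_mul, add_zero, hJW]
      · have hs1 : s = 1 := zne s h0
        have : NeZero (∏ u ∈ W, u) := ⟨hM0.ne'⟩
        rw [prod_insert h5W, jacobiSym.mul_right, hJW, J5 p g1 g5, ← sn_add, hs1, one_mul]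
        congr 1
        ring
    rw [ch_apply, chi4 p g1 g2, hJ]
    have hcomb : (if e = 0 then (1 : ℤ) else sn (aa p)) = sn (e * aa p) := sncomb e (aa p)
    have hcomb' : (if e = 0 then (1 : ℝ) else ((sn (aa p) : ℤ) : ℝ)) = ((sn (e * aa p) : ℤ) : ℝ) := by
      rw [← hcomb]
      split_ifs <;> simp
    rw [hcomb', ← Int.cast_mul, ← sn_add]
    have hz : e * aa p + (∑ u ∈ W, nr p u + aa p * ∑ u ∈ W, aa u + s * bb p) = 0 := by
      rw [hed]
      have : (t + ∑ u ∈ W, aa u) * aa p + (∑ u ∈ W, nr p u + aa p * ∑ u ∈ W, aa u + s * bb p) =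
          (∑ u ∈ W, nr p u + t * aa p + s * bb p) + 2 * (aa p * ∑ u ∈ W, aa u) := by ring
      rw [this, g4]
      have h2 : (2 : ZMod 2) = 0 := by decide
      rw [h2]
      ring
    rw [hz]
    simp [sn]
  have hmain := main_le (fun _ : Unit => ch e (∏ u ∈ W', u)) (univ : Finset Unit)
    (fun i _ n => ch_val _ _ n) σ hσ P (fun p h => (hP p h).1.1) (fun i _ p h => hone p h)
  have hlog2 := Real.log_two_gt_d9
  have lT2 : Real.log 2 ≤ Real.log T := Real.log_le_log (by norm_num) (by exact_mod_cast hT)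
  set Y := Real.log ((20 * M : ℕ) : ℝ) with hY
  have hY1 : 2 ≤ Y := by
    have h1 : Real.log 16 ≤ Y := by
      rw [hY]
      refine Real.log_le_log (by norm_num) ?_
      have : (16 : ℕ) ≤ 20 * M := by omega
      exact_mod_cast this
    have h2 : Real.log 16 = 4 * Real.log 2 := by
      rw [← Real.log_rpow (by norm_num)]
      norm_num
    linarith
  have hprod : ∏ V ∈ (univ : Finset Unit).powerset,
      ∑' n : ℕ, (∏ i ∈ V, (fun _ : Unit => ch e (∏ u ∈ W', u)) i) n * (n : ℝ) ^ (-σ) ≤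
      3 * Real.log T * (3 * Y) := by
    have hpw : (univ : Finset Unit).powerset = {∅, {()}} := by decide
    rw [hpw, prod_pair (by decide)]
    have e1 : ∑' n : ℕ, (∏ i ∈ (∅ : Finset Unit), (fun _ : Unit => ch e (∏ u ∈ W', u)) i) n *
        (n : ℝ) ^ (-σ) = ∑' n : ℕ, (1 : ℝ) * (n : ℝ) ^ (-σ) := by
      refine tsum_congr fun n => ?_
      rw [prod_empty]
      rfl
    have b1 : ∑' n : ℕ, (∏ i ∈ (∅ : Finset Unit), (fun _ : Unit => ch e (∏ u ∈ W', u)) i) n *
        (n : ℝ) ^ (-σ) ≤ 3 * Real.log T := by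
      rw [e1]
      refine (zeta_le σ hσ).trans ?_
      have e2 : 1 / (σ - 1) = Real.log T := by
        rw [hσd]
        field_simp
        ring
      rw [e2]
      linarith
    have b2 : ∑' n : ℕ, (∏ i ∈ ({()} : Finset Unit), (fun _ : Unit => ch e (∏ u ∈ W', u)) i) n *
        (n : ℝ) ^ (-σ) ≤ 3 * Y := by
      rw [prod_singleton]
      refine (L_le e W' hp' hn' σ hσ).trans ?_
      have h1 : Real.log ((4 * ∏ u ∈ W', u : ℕ) : ℝ) ≤ Y := by
        rw [hY]
        refine Real.log_le_log (by exact_mod_cast (by omega : 0 < 4 * ∏ u ∈ W', u)) ?_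
        exact_mod_cast (by omega : 4 * ∏ u ∈ W', u ≤ 20 * M)
      linarith
    have b3 := hmain.2 ∅ (by decide)
    exact mul_le_mul b1 b2 (hmain.2 {()} (by decide)) (b3.trans b1)
  have hbig := hmain.1.trans hprod
  have hc : 2 ^ (univ : Finset Unit).card = 2 := by decide
  rw [hc] at hbig
  -- the sum
  have hx : ∀ p ∈ P, 0 < (p : ℝ) ^ (-σ) ∧ (p : ℝ) ^ (-σ) < 1 := fun p h =>
    pow_small p (hP p h).1.1.two_le σ hσ
  have hPprime : ∀ p ∈ insert 5 P, p.Prime := by
    intro p h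
    rcases mem_insert.1 h with h | h
    · rw [h]; norm_num
    · exact (hP p h).1.1
  have h5P : 5 ∉ P := fun h => (hP 5 h).2 rfl
  have hsum : ∑ S ∈ HD W t s T, (1 : ℝ) / ((∏ p ∈ S, p : ℕ) : ℝ) ≤
      6 * ∏ p ∈ P, (1 - (p : ℝ) ^ (-σ))⁻¹ := by
    have s1 : ∑ S ∈ HD W t s T, (1 : ℝ) / ((∏ p ∈ S, p : ℕ) : ℝ) ≤
        ∑ S ∈ (insert 5 P).powerset, 3 * ∏ p ∈ S, (p : ℝ) ^ (-σ) := by
      have hsub : HD W t s T ⊆ (insert 5 P).powerset := by
        intro S hS
        unfold HD at hS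
        rw [mem_filter, mem_powerset] at hS
        rw [mem_powerset]
        intro p hpS
        by_cases h5 : p = 5
        · rw [h5]; exact mem_insert_self _ _
        · refine mem_insert_of_mem ?_
          rw [hPd, mem_filter]
          exact ⟨hS.1 hpS, hS.2.1 p hpS, h5⟩
      refine le_trans (sum_le_sum fun S hS => ?_) (sum_le_sum_of_subset_of_nonneg hsub
        fun S hS _ => ?_)
      · have hSP := hsub hS
        rw [mem_powerset] at hSP
        unfold HD at hS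
        rw [mem_filter] at hS
        have hle := hS.2.2
        have hpos : 0 < ∏ p ∈ S, p := prod_pos fun p h => (hPprime p (hSP h)).pos
        have e : ∏ p ∈ S, (p : ℝ) ^ (-σ) = ((∏ p ∈ S, p : ℕ) : ℝ) ^ (-σ) := by
          rw [Nat.cast_prod, Real.finsetProd_rpow]
          intro p _
          exact Nat.cast_nonneg p
        rw [e]
        generalize ∏ p ∈ S, p = N at hle hpos ⊢
        have hN : (0 : ℝ) < (N : ℝ) := by exact_mod_cast hpos
        have hNT : (N : ℝ) ≤ (T : ℝ) := by exact_mod_cast hle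
        have hN1 : (1 : ℝ) ≤ (N : ℝ) := by exact_mod_cast hpos
        have h2 : (N : ℝ) ^ (σ - 1) ≤ 3 := by
          have a1 : (N : ℝ) ^ (σ - 1) = Real.exp (Real.log N * (σ - 1)) :=
            Real.rpow_def_of_pos hN _
          have a2 : Real.log N * (σ - 1) ≤ 1 := by
            have a3 : σ - 1 = 1 / Real.log T := by rw [hσd]; ring
            rw [a3, mul_one_div, div_le_one lT]
            exact Real.log_le_log hN hNT
          rw [a1]
          exact (Real.exp_le_exp.2 a2).trans (Real.exp_one_lt_d9.le.trans (by norm_num))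
        have h3 : (N : ℝ) ^ (σ - 1) * (N : ℝ) ^ (-σ) = 1 / N := by
          rw [← Real.rpow_add hN]
          have : σ - 1 + -σ = -1 := by ring
          rw [this, Real.rpow_neg_one, one_div]
        rw [← h3]
        exact mul_le_mul_of_nonneg_right h2 (Real.rpow_nonneg hN.le _)
      · refine mul_nonneg (by norm_num) (prod_nonneg fun p _ => Real.rpow_nonneg (Nat.cast_nonneg _) _)
    refine s1.trans ?_
    rw [← mul_sum, ← prod_one_add, prod_insert h5P]
    have a5 := pow_small 5 (by norm_num) σ hσ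
    have b5 : ∏ p ∈ P, (1 + (p : ℝ) ^ (-σ)) ≤ ∏ p ∈ P, (1 - (p : ℝ) ^ (-σ))⁻¹ := by
      refine prod_le_prod (fun p h => ?_) fun p h => ?_
      · have := (hx p h).1
        positivity
      · obtain ⟨a1, a2⟩ := hx p h
        rw [← one_div, le_div_iff₀ (by linarith)]
        nlinarith
    have c5 : 0 ≤ ∏ p ∈ P, (1 + (p : ℝ) ^ (-σ)) := prod_nonneg fun p h => by
      have := (hx p h).1
      positivity
    have d5 : ((1 : ℝ) + ((5 : ℕ) : ℝ) ^ (-σ)) ≤ 2 := by linarith [a5.2]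
    calc 3 * ((1 + ((5 : ℕ) : ℝ) ^ (-σ)) * ∏ p ∈ P, (1 + (p : ℝ) ^ (-σ)))
        ≤ 3 * (2 * ∏ p ∈ P, (1 + (p : ℝ) ^ (-σ))) := by
          refine mul_le_mul_of_nonneg_left (mul_le_mul_of_nonneg_right d5 c5) (by norm_num)
      _ ≤ 3 * (2 * ∏ p ∈ P, (1 - (p : ℝ) ^ (-σ))⁻¹) := by
          refine mul_le_mul_of_nonneg_left (mul_le_mul_of_nonneg_left b5 (by norm_num)) (by norm_num)
      _ = 6 * ∏ p ∈ P, (1 - (p : ℝ) ^ (-σ))⁻¹ := by ring
  generalize ∏ p ∈ P, (1 - (p : ℝ) ^ (-σ))⁻¹ = Q at hbig hsum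
  have hH0 : 0 ≤ ∑ S ∈ HD W t s T, (1 : ℝ) / ((∏ p ∈ S, p : ℕ) : ℝ) :=
    sum_nonneg fun S _ => by positivity
  generalize ∑ S ∈ HD W t s T, (1 : ℝ) / ((∏ p ∈ S, p : ℕ) : ℝ) = H at hsum hH0 ⊢
  clear_value Y
  apply le_of_pow_le_pow_left₀ (n := 2) (by norm_num) (by positivity)
  have e1 : (1000 * Y ^ (1 / 2 : ℝ) * Real.log T ^ (1 / 2 : ℝ)) ^ 2 =
      1000 ^ 2 * (Y * Real.log T) := by
    rw [mul_pow, mul_pow, ← Real.rpow_natCast (Y ^ (1 / 2 : ℝ)), ← Real.rpow_mul (by linarith),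
      ← Real.rpow_natCast (Real.log T ^ (1 / 2 : ℝ)), ← Real.rpow_mul lT.le]
    norm_num
    ring
  rw [e1]
  have hYT : 0 ≤ Y * Real.log T := by positivity
  calc H ^ 2 ≤ (6 * Q) ^ 2 := pow_le_pow_left₀ hH0 hsum 2
    _ = 36 * Q ^ 2 := by ring
    _ ≤ 36 * (3 * Real.log T * (3 * Y)) := by
        exact mul_le_mul_of_nonneg_left hbig (by norm_num)
    _ = 324 * (Y * Real.log T) := by ring
    _ ≤ 1000 ^ 2 * (Y * Real.log T) := by
        apply mul_le_mul_of_nonneg_right (by norm_num) hYT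

end Pool.Agent.H757_X15.DD
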