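import Pool.Agent.H757_X15.StmD

/-!
# Project X15-D, part LA3: the number of the isotropic tuples
-/

set_option autoImplicit false

open scoped Classical

namespace Pool.Agent.H757_X15.DD

open Finset

namespace LA3

variable {V W : Type} [AddCommGroup V] [Module (ZMod 2) V] [Fintype V]
  [AddCommGroup W] [Module (ZMod 2) W]

/-- rank-nullity with cardinalities -/
theorem card_ker_range {j : ℕ} (f : V →ₗ[ZMod 2] (Fin j → ZMod 2)) :
    (univ.filter fun v : V => f v = 0).card * Fintype.card (LinearMap.range f) =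
      Fintype.card V := by
  have h1 : Fintype.card (LinearMap.ker f) = (univ.filter fun v : V => f v = 0).card := by
    rw [Fintype.card_subtype]
    congr 1
    ext v
    simp [LinearMap.mem_ker]
  rw [← h1]
  have e := (LinearMap.quotKerEquivRange f).toEquiv
  have h2 := Submodule.card_eq_card_quotient_mul_card (LinearMap.ker f)
  rw [Nat.card_eq_fintype_card, Nat.card_eq_fintype_card, Nat.card_eq_fintype_card] at h2
  rw [h2, Fintype.card_congr e, mul_comm]

/-- the radical -/
noncomputable def rad (ω : V →ₗ[ZMod 2] V →ₗ[ZMod 2] ZMod 2) : Finset V :=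
  univ.filter fun v : V => ∀ v', ω v v' = 0

/-- the kernel -/
noncomputable def kerp (π : V →ₗ[ZMod 2] W) : Finset V := univ.filter fun v : V => π v = 0

/-- the orthogonal -/
noncomputable def orth {j : ℕ} (ω : V →ₗ[ZMod 2] V →ₗ[ZMod 2] ZMod 2) (w : Fin j → V) : Finset V :=
  univ.filter fun v : V => ∀ i, ω (w i) v = 0

/-- the vectors dependent on the tuple -/
noncomputable def depn {j : ℕ} (π : V →ₗ[ZMod 2] W) (w : Fin j → V) : Finset V :=
  univ.filter fun v : V => π v ∈ Submodule.span (ZMod 2) (Set.range fun i => π (w i))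

/-- the extensions -/
noncomputable def extn {j : ℕ} (ω : V →ₗ[ZMod 2] V →ₗ[ZMod 2] ZMod 2) (π : V →ₗ[ZMod 2] W)
    (w : Fin j → V) : Finset V :=
  univ.filter fun v : V => π v ∉ Submodule.span (ZMod 2) (Set.range fun i => π (w i)) ∧
    ∀ i, ω (w i) v = 0

/-- the good tuples -/
noncomputable def good (ω : V →ₗ[ZMod 2] V →ₗ[ZMod 2] ZMod 2) (π : V →ₗ[ZMod 2] W)
    (j : ℕ) : Finset (Fin j → V) :=
  univ.filter fun w : Fin j → V => LinearIndependent (ZMod 2) (fun i => π (w i)) ∧
    ∀ i i', ω (w i) (w i') = 0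

/-- the tuples with a combination in the radical -/
noncomputable def badt (ω : V →ₗ[ZMod 2] V →ₗ[ZMod 2] ZMod 2) (j : ℕ) : Finset (Fin j → V) :=
  univ.filter fun w : Fin j → V => ∃ c : Fin j → ZMod 2, c ≠ 0 ∧ ∑ i, c i • w i ∈ rad ω

theorem orth_le {j : ℕ} (ω : V →ₗ[ZMod 2] V →ₗ[ZMod 2] ZMod 2) (w : Fin j → V) :
    Fintype.card V ≤ (orth ω w).card * 2 ^ j ∧ (orth ω w).card ≤ Fintype.card V := by
  have e : (orth ω w) = univ.filter fun v : V => (LinearMap.pi fun i => ω (w i)) v = 0 := by
    unfold orth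
    congr 1
    ext v
    simp [funext_iff]
  constructor
  · rw [e, ← card_ker_range (LinearMap.pi fun i => ω (w i))]
    apply Nat.mul_le_mul_left
    calc Fintype.card (LinearMap.range (LinearMap.pi fun i => ω (w i)))
        ≤ Fintype.card (Fin j → ZMod 2) := Fintype.card_subtype_le _
      _ = 2 ^ j := by simp [ZMod.card]
  · exact Finset.card_le_univ _

theorem orth_eq {j : ℕ} (ω : V →ₗ[ZMod 2] V →ₗ[ZMod 2] ZMod 2) (w : Fin j → V)
    (hw : w ∉ badt ω j) : (orth ω w).card * 2 ^ j = Fintype.card V := by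
  have e : (orth ω w) = univ.filter fun v : V => (LinearMap.pi fun i => ω (w i)) v = 0 := by
    unfold orth
    congr 1
    ext v
    simp [funext_iff]
  rw [e, ← card_ker_range (LinearMap.pi fun i => ω (w i))]
  congr 1
  have ht : LinearMap.range (LinearMap.pi fun i => ω (w i)) = ⊤ := by
    by_contra hne
    obtain ⟨f, hf, hle⟩ := Submodule.exists_le_ker_of_lt_top _ (lt_top_iff_ne_top.mpr hne)
    apply hw
    unfold badt
    rw [mem_filter]
    refine ⟨mem_univ _, fun i => f (Pi.single i 1), ?_, ?_⟩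
    · intro h0
      apply hf
      apply LinearMap.pi_ext'
      intro i
      ext
      simpa using congrFun h0 i
    · unfold rad
      rw [mem_filter]
      refine ⟨mem_univ _, fun v' => ?_⟩
      have h1 : (LinearMap.pi fun i => ω (w i)) v' ∈ LinearMap.ker f := hle ⟨v', rfl⟩
      rw [LinearMap.mem_ker] at h1
      rw [map_sum, LinearMap.sum_apply]
      have h2 : (LinearMap.pi fun i => ω (w i)) v' =
          ∑ i, ω (w i) v' • (Pi.single i (1 : ZMod 2) : Fin j → ZMod 2) := by
        ext k
        simp [Finset.sum_apply, Pi.single_apply]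
      rw [h2, map_sum] at h1
      rw [← h1]
      refine Finset.sum_congr rfl fun i _ => ?_
      simp only [map_smul, LinearMap.smul_apply, smul_eq_mul, mul_comm]
  rw [Fintype.card_congr (LinearEquiv.ofTop _ ht).toEquiv]
  simp [ZMod.card]

theorem depn_le {j : ℕ} (π : V →ₗ[ZMod 2] W) (w : Fin j → V) :
    (depn π w).card ≤ 2 ^ j * (kerp π).card := by
  have h : depn π w ⊆ ((univ : Finset (Fin j → ZMod 2)) ×ˢ kerp π).image
      fun p => ∑ i, p.1 i • w i + p.2 := by
    intro v hv
    unfold depn at hv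
    rw [mem_filter] at hv
    obtain ⟨c, hc⟩ := (Submodule.mem_span_range_iff_exists_fun _).mp hv.2
    rw [mem_image]
    refine ⟨(c, v - ∑ i, c i • w i), ?_, by simp⟩
    rw [mem_product]
    refine ⟨mem_univ _, ?_⟩
    unfold kerp
    rw [mem_filter]
    refine ⟨mem_univ _, ?_⟩
    rw [map_sub, map_sum, ← hc, sub_eq_zero]
    simp
  refine (card_le_card h).trans (card_image_le.trans ?_)
  rw [card_product]
  simp [ZMod.card]

theorem badt_le (ω : V →ₗ[ZMod 2] V →ₗ[ZMod 2] ZMod 2) (j : ℕ) :
    (badt ω j).card * Fintype.card V ≤ 2 ^ j * ((rad ω).card * Fintype.card V ^ j) := by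
  -- one vector of coefficients
  have one : ∀ c : Fin j → ZMod 2, c ≠ 0 →
      (univ.filter fun w : Fin j → V => ∑ i, c i • w i ∈ rad ω).card * Fintype.card V ≤
        (rad ω).card * Fintype.card V ^ j := by
    intro c hc
    obtain ⟨a, ha⟩ : ∃ a, c a ≠ 0 := by
      by_contra hcon
      push Not at hcon
      exact hc (funext hcon)
    have ha1 : c a = 1 := by
      have : ∀ x : ZMod 2, x ≠ 0 → x = 1 := by decide
      exact this _ ha
    have hcard : (rad ω).card * Fintype.card V ^ j =
        ((rad ω) ×ˢ (univ : Finset (Fin j → V))).card := by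
      rw [card_product]
      simp
    rw [hcard, ← card_univ (α := V), ← card_product]
    apply card_le_card_of_injOn
      (fun p : (Fin j → V) × V => (∑ i, c i • p.1 i, Function.update p.1 a (p.1 a + p.2)))
    · intro p hp
      have hp' := mem_coe.mp hp
      rw [mem_product, mem_filter] at hp'
      exact mem_coe.mpr (mem_product.mpr ⟨hp'.1.2, mem_univ _⟩)
    · rintro ⟨w, v⟩ _ ⟨w', v'⟩ _ h
      rw [Prod.mk.injEq] at h
      obtain ⟨h1, h2⟩ := h
      have hoff : ∀ i, i ≠ a → w i = w' i := by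
        intro i hi
        have := congrFun h2 i
        simpa [Function.update_of_ne hi] using this
      have hon : w a + v = w' a + v' := by
        have := congrFun h2 a
        simpa using this
      have hwa : w a = w' a := by
        have e1 : ∀ u : Fin j → V, ∑ i, c i • u i = u a + ∑ i ∈ univ.erase a, c i • u i := by
          intro u
          rw [← Finset.add_sum_erase univ (fun i => c i • u i) (mem_univ a), ha1, one_smul]
        simp only at h1
        rw [e1, e1] at h1
        have e2 : ∑ i ∈ univ.erase a, c i • w i = ∑ i ∈ univ.erase a, c i • w' i :=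
          Finset.sum_congr rfl fun i hi => by rw [hoff i (ne_of_mem_erase hi)]
        rw [e2] at h1
        exact add_right_cancel h1
      have hv : v = v' := by
        rw [hwa] at hon
        exact add_left_cancel hon
      have hw : w = w' := by
        funext i
        by_cases hi : i = a
        · rw [hi]; exact hwa
        · exact hoff i hi
      rw [hw, hv]
  have hsub : badt ω j ⊆ (univ.filter fun c : Fin j → ZMod 2 => c ≠ 0).biUnion fun c =>
      univ.filter fun w : Fin j → V => ∑ i, c i • w i ∈ rad ω := by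
    intro w hw
    unfold badt at hw
    rw [mem_filter] at hw
    obtain ⟨_, c, hc, hr⟩ := hw
    rw [mem_biUnion]
    exact ⟨c, by simp [hc], by rw [mem_filter]; exact ⟨mem_univ _, hr⟩⟩
  calc (badt ω j).card * Fintype.card V
      ≤ (∑ c ∈ univ.filter (fun c : Fin j → ZMod 2 => c ≠ 0),
          (univ.filter fun w : Fin j → V => ∑ i, c i • w i ∈ rad ω).card) * Fintype.card V :=
        Nat.mul_le_mul_right _ ((card_le_card hsub).trans card_biUnion_le)
    _ = ∑ c ∈ univ.filter (fun c : Fin j → ZMod 2 => c ≠ 0),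
          (univ.filter fun w : Fin j → V => ∑ i, c i • w i ∈ rad ω).card * Fintype.card V := by
        rw [Finset.sum_mul]
    _ ≤ ∑ c ∈ univ.filter (fun c : Fin j → ZMod 2 => c ≠ 0),
          (rad ω).card * Fintype.card V ^ j :=
        Finset.sum_le_sum fun c hc => one c (mem_filter.mp hc).2
    _ = (univ.filter (fun c : Fin j → ZMod 2 => c ≠ 0)).card *
          ((rad ω).card * Fintype.card V ^ j) := by
        rw [Finset.sum_const, smul_eq_mul]
    _ ≤ 2 ^ j * ((rad ω).card * Fintype.card V ^ j) := by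
        apply Nat.mul_le_mul_right
        refine (Finset.card_le_univ _).trans (le_of_eq ?_)
        simp [ZMod.card]

theorem good_succ (ω : V →ₗ[ZMod 2] V →ₗ[ZMod 2] ZMod 2) (π : V →ₗ[ZMod 2] W)
    (hω : ∀ v, ω v v = 0) (j : ℕ) :
    (good ω π (j + 1)).card = ∑ w ∈ good ω π j, (extn ω π w).card := by
  have alt : ∀ v v', ω v v' = 0 → ω v' v = 0 := by
    intro v v' h
    have h1 := hω (v + v')
    simp only [map_add, LinearMap.add_apply, hω, h, zero_add, add_zero] at h1
    exact h1
  have hπ : ∀ (v : V) (w : Fin j → V), (fun i => π ((Fin.cons v w : Fin (j + 1) → V) i)) =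
      (Fin.cons (π v) (fun i => π (w i)) : Fin (j + 1) → W) := by
    intro v w
    funext i
    refine Fin.cases ?_ (fun i => ?_) i
    · simp
    · simp
  have hgood : ∀ (v : V) (w : Fin j → V), (Fin.cons v w : Fin (j + 1) → V) ∈ good ω π (j + 1) ↔
      w ∈ good ω π j ∧ v ∈ extn ω π w := by
    intro v w
    unfold good extn
    rw [mem_filter, mem_filter, mem_filter, hπ, linearIndependent_finCons]
    constructor
    · rintro ⟨_, ⟨h1, h2⟩, h3⟩
      exact ⟨⟨mem_univ _, h1, fun i i' => by simpa using h3 i.succ i'.succ⟩, mem_univ _, h2,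
        fun i => by simpa using h3 i.succ 0⟩
    · rintro ⟨⟨_, h1, h3⟩, _, h2, h4⟩
      refine ⟨mem_univ _, ⟨h1, h2⟩, fun i i' => ?_⟩
      refine Fin.cases ?_ (fun i => ?_) i
      · refine Fin.cases ?_ (fun i' => ?_) i'
        · simpa using hω v
        · simpa using alt _ _ (h4 i')
      · refine Fin.cases ?_ (fun i' => ?_) i'
        · simpa using h4 i
        · simpa using h3 i i'
  rw [← Finset.card_sigma]
  symm
  apply Finset.card_bij (fun (p : Σ _ : Fin j → V, V) _ => (Fin.cons p.2 p.1 : Fin (j + 1) → V))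
  · intro p hp
    rw [mem_sigma] at hp
    exact (hgood p.2 p.1).mpr hp
  · rintro ⟨w, v⟩ _ ⟨w', v'⟩ _ h
    have h' := Fin.cons_injective2 h
    obtain ⟨h1, h2⟩ := h'
    simp only at h1 h2
    subst h1
    subst h2
    rfl
  · intro u hu
    refine ⟨⟨Fin.tail u, u 0⟩, ?_, Fin.cons_self_tail u⟩
    rw [mem_sigma]
    apply (hgood _ _).mp
    simp only [Fin.cons_self_tail]
    exact hu

/-- the number of the extensions -/
theorem extn_bound (ω : V →ₗ[ZMod 2] V →ₗ[ZMod 2] ZMod 2) (π : V →ₗ[ZMod 2] W) {j : ℕ}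
    (w : Fin j → V) :
    |((extn ω π w).card : ℝ) * 2 ^ j - (Fintype.card V : ℝ)| ≤
      2 ^ (2 * j) * ((kerp π).card : ℝ) +
        (if w ∈ badt ω j then 2 ^ j * (Fintype.card V : ℝ) else 0) := by
  have h1 : (extn ω π w).card ≤ (orth ω w).card := by
    apply card_le_card
    intro v hv
    unfold extn at hv
    unfold orth
    rw [mem_filter] at hv ⊢
    exact ⟨mem_univ _, hv.2.2⟩
  have h2 : (orth ω w).card ≤ (extn ω π w).card + (depn π w).card := by
    refine (card_le_card ?_).trans (card_union_le _ _)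
    intro v hv
    unfold orth at hv
    rw [mem_union]
    unfold extn depn
    rw [mem_filter] at hv ⊢
    rw [mem_filter]
    by_cases h : π v ∈ Submodule.span (ZMod 2) (Set.range fun i => π (w i))
    · right; exact ⟨mem_univ _, h⟩
    · left; exact ⟨mem_univ _, h, hv.2⟩
  have h3 := depn_le π w
  obtain ⟨h4, h5⟩ := orth_le ω w
  have h1r : ((extn ω π w).card : ℝ) ≤ (orth ω w).card := by exact_mod_cast h1
  have h2r : ((orth ω w).card : ℝ) ≤ (extn ω π w).card + (depn π w).card := by exact_mod_cast h2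
  have h3r : ((depn π w).card : ℝ) ≤ 2 ^ j * (kerp π).card := by exact_mod_cast h3
  have h4r : (Fintype.card V : ℝ) ≤ (orth ω w).card * 2 ^ j := by exact_mod_cast h4
  have h5r : ((orth ω w).card : ℝ) ≤ Fintype.card V := by exact_mod_cast h5
  have hp : (0 : ℝ) < 2 ^ j := by positivity
  have hpp : (2 : ℝ) ^ (2 * j) = 2 ^ j * 2 ^ j := by rw [two_mul, pow_add]
  have hk : (0 : ℝ) ≤ (kerp π).card := by positivity
  have low : -(2 ^ (2 * j) * ((kerp π).card : ℝ)) ≤
      ((extn ω π w).card : ℝ) * 2 ^ j - (Fintype.card V : ℝ) := by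
    have e1 : ((orth ω w).card : ℝ) * 2 ^ j ≤
        ((extn ω π w).card + 2 ^ j * (kerp π).card) * 2 ^ j :=
      mul_le_mul_of_nonneg_right (by linarith) hp.le
    rw [hpp]
    nlinarith
  rw [abs_le]
  split_ifs with hb
  · refine ⟨?_, ?_⟩
    · have : (0 : ℝ) ≤ 2 ^ j * (Fintype.card V : ℝ) := by positivity
      linarith
    · have e1 : ((extn ω π w).card : ℝ) * 2 ^ j ≤ Fintype.card V * 2 ^ j :=
        mul_le_mul_of_nonneg_right (by linarith) hp.le
      have e2 : (0 : ℝ) ≤ 2 ^ (2 * j) * ((kerp π).card : ℝ) := by positivity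
      have e3 : (0 : ℝ) ≤ (Fintype.card V : ℝ) := by positivity
      linarith
  · refine ⟨by linarith, ?_⟩
    have e0 := orth_eq ω w hb
    have e0r : ((orth ω w).card : ℝ) * 2 ^ j = Fintype.card V := by exact_mod_cast e0
    have e1 : ((extn ω π w).card : ℝ) * 2 ^ j ≤ (orth ω w).card * 2 ^ j :=
      mul_le_mul_of_nonneg_right h1r hp.le
    have e2 : (0 : ℝ) ≤ 2 ^ (2 * j) * ((kerp π).card : ℝ) := by positivity
    linarith

theorem main (ω : V →ₗ[ZMod 2] V →ₗ[ZMod 2] ZMod 2) (π : V →ₗ[ZMod 2] W)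
    (hω : ∀ v, ω v v = 0) (j : ℕ) :
    |((good ω π j).card : ℝ) * 2 ^ (j.choose 2) - (Fintype.card V : ℝ) ^ j| *
        (Fintype.card V : ℝ) ≤
      (Fintype.card V : ℝ) ^ j * 2 ^ ((j + 1) ^ 2) * (((rad ω).card : ℝ) + (kerp π).card) := by
  have hv : (0 : ℝ) ≤ (Fintype.card V : ℝ) := by positivity
  have hr : (0 : ℝ) ≤ ((rad ω).card : ℝ) := by positivity
  have hk : (0 : ℝ) ≤ ((kerp π).card : ℝ) := by positivity
  induction j with
  | zero =>
    have h0 : (good ω π 0).card = 1 := by
      have : good ω π 0 = univ := by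
        unfold good
        apply Finset.filter_true_of_mem
        intro w _
        exact ⟨linearIndependent_empty_type, fun i => i.elim0⟩
      rw [this]
      simp
    rw [h0]
    have : |((1 : ℕ) : ℝ) * 2 ^ (Nat.choose 0 2) - (Fintype.card V : ℝ) ^ 0| = 0 := by norm_num
    rw [this, zero_mul]
    positivity
  | succ j ih =>
    set v := (Fintype.card V : ℝ) with hvdef
    set r := ((rad ω).card : ℝ) with hrdef
    set k := ((kerp π).card : ℝ) with hkdef
    set N := ((good ω π j).card : ℝ) with hN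
    -- the recursion
    have hrec : ((good ω π (j + 1)).card : ℝ) * 2 ^ j =
        ∑ w ∈ good ω π j, ((extn ω π w).card : ℝ) * 2 ^ j := by
      rw [good_succ ω π hω j, ← Finset.sum_mul]
      push_cast
      rfl
    have hdiff : |((good ω π (j + 1)).card : ℝ) * 2 ^ j - N * v| ≤
        N * (2 ^ (2 * j) * k) + ((badt ω j).card : ℝ) * (2 ^ j * v) := by
      have e1 : ((good ω π (j + 1)).card : ℝ) * 2 ^ j - N * v =
          ∑ w ∈ good ω π j, (((extn ω π w).card : ℝ) * 2 ^ j - v) := by
        rw [hrec, Finset.sum_sub_distrib, Finset.sum_const, nsmul_eq_mul]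
      rw [e1]
      refine (Finset.abs_sum_le_sum_abs _ _).trans ?_
      refine (Finset.sum_le_sum fun w _ => extn_bound ω π w).trans ?_
      rw [Finset.sum_add_distrib, Finset.sum_const, nsmul_eq_mul]
      apply add_le_add le_rfl
      rw [← Finset.sum_filter, Finset.sum_const, nsmul_eq_mul]
      apply mul_le_mul_of_nonneg_right _ (by positivity)
      exact_mod_cast card_le_card fun w hw => (mem_filter.mp hw).2
    have hbad : ((badt ω j).card : ℝ) * v ≤ 2 ^ j * (r * v ^ j) := by
      rw [hvdef, hrdef]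
      exact_mod_cast badt_le ω j
    have hNle : N ≤ v ^ j := by
      have : (good ω π j).card ≤ Fintype.card V ^ j := by
        refine (Finset.card_le_univ _).trans (le_of_eq ?_)
        simp
      rw [hvdef, hN]
      exact_mod_cast this
    have hN0 : 0 ≤ N := by positivity
    -- the exponents
    have hch : (j + 1).choose 2 = j.choose 2 + j := by
      rw [Nat.choose_succ_succ' j 1, Nat.choose_one_right, add_comm]
    have hexp : (2 : ℝ) ^ (j.choose 2) * 2 ^ (2 * j) + 2 ^ ((j + 1) ^ 2) ≤
        2 ^ ((j + 1 + 1) ^ 2) := by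
      have h1 : j.choose 2 ≤ j ^ 2 := Nat.choose_le_pow j 2
      have h2 : (2 : ℝ) ^ (j.choose 2) * 2 ^ (2 * j) ≤ 2 ^ ((j + 1) ^ 2) := by
        rw [← pow_add]
        apply pow_le_pow_right₀ (by norm_num)
        nlinarith
      have h3 : (2 : ℝ) ^ ((j + 1) ^ 2 + 1) ≤ 2 ^ ((j + 1 + 1) ^ 2) := by
        apply pow_le_pow_right₀ (by norm_num)
        nlinarith
      rw [pow_succ] at h3
      linarith
    set P := (2 : ℝ) ^ (j.choose 2) with hP
    have hP0 : 0 ≤ P := by positivity
    have key : |((good ω π (j + 1)).card : ℝ) * 2 ^ ((j + 1).choose 2) - v ^ (j + 1)| ≤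
        P * |((good ω π (j + 1)).card : ℝ) * 2 ^ j - N * v| + |N * P - v ^ j| * v := by
      rw [hch, pow_add]
      have e : ((good ω π (j + 1)).card : ℝ) * (P * 2 ^ j) - v ^ (j + 1) =
          P * (((good ω π (j + 1)).card : ℝ) * 2 ^ j - N * v) + (N * P - v ^ j) * v := by
        ring
      rw [e]
      refine (abs_add_le _ _).trans ?_
      rw [abs_mul, abs_mul, abs_of_nonneg hP0, abs_of_nonneg hv]
    have a1 : P * |((good ω π (j + 1)).card : ℝ) * 2 ^ j - N * v| * v ≤
        P * (v ^ j * (2 ^ (2 * j) * k) * v + 2 ^ j * (2 ^ j * (r * v ^ j)) * v) := by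
      rw [mul_assoc]
      apply mul_le_mul_of_nonneg_left _ hP0
      have b1 : |((good ω π (j + 1)).card : ℝ) * 2 ^ j - N * v| ≤
          v ^ j * (2 ^ (2 * j) * k) + 2 ^ j * (2 ^ j * (r * v ^ j)) := by
        refine hdiff.trans (add_le_add ?_ ?_)
        · exact mul_le_mul_of_nonneg_right hNle (by positivity)
        · calc ((badt ω j).card : ℝ) * (2 ^ j * v) = 2 ^ j * (((badt ω j).card : ℝ) * v) := by ring
            _ ≤ 2 ^ j * (2 ^ j * (r * v ^ j)) := mul_le_mul_of_nonneg_left hbad (by positivity)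
      calc |((good ω π (j + 1)).card : ℝ) * 2 ^ j - N * v| * v
          ≤ (v ^ j * (2 ^ (2 * j) * k) + 2 ^ j * (2 ^ j * (r * v ^ j))) * v :=
            mul_le_mul_of_nonneg_right b1 hv
        _ = _ := by ring
    calc |((good ω π (j + 1)).card : ℝ) * 2 ^ ((j + 1).choose 2) - v ^ (j + 1)| * v
        ≤ (P * |((good ω π (j + 1)).card : ℝ) * 2 ^ j - N * v| + |N * P - v ^ j| * v) * v :=
          mul_le_mul_of_nonneg_right key hv
      _ = P * |((good ω π (j + 1)).card : ℝ) * 2 ^ j - N * v| * v +
            v * (|N * P - v ^ j| * v) := by ring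
      _ ≤ P * (v ^ j * (2 ^ (2 * j) * k) * v + 2 ^ j * (2 ^ j * (r * v ^ j)) * v) +
            v * (v ^ j * 2 ^ ((j + 1) ^ 2) * (r + k)) :=
          add_le_add a1 (mul_le_mul_of_nonneg_left ih hv)
      _ = v ^ (j + 1) * (P * 2 ^ (2 * j) + 2 ^ ((j + 1) ^ 2)) * (r + k) := by
          rw [two_mul, pow_add, pow_succ]
          ring
      _ ≤ v ^ (j + 1) * 2 ^ ((j + 1 + 1) ^ 2) * (r + k) := by
          apply mul_le_mul_of_nonneg_right _ (by positivity)
          exact mul_le_mul_of_nonneg_left hexp (by positivity)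

end LA3

/-- **D-LA3.** -/
theorem t_LA3 : S_LA3 := by
  intro V W _ _ _ _ _ ω π hω j
  have h := LA3.main ω π hω j
  have hV : (0 : ℝ) < (Fintype.card V : ℝ) := by
    exact_mod_cast Fintype.card_pos_iff.mpr ⟨(0 : V)⟩
  rw [le_div_iff₀ hV]
  exact h

end Pool.Agent.H757_X15.DD
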