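import Pool.Agent.H757_X15.StmD

/-!
# Project X15-D, part LA4: the assembly of the linear algebra
-/

set_option autoImplicit false
set_option linter.unusedVariables false
set_option linter.unusedSectionVars false

open scoped Classical

namespace Pool.Agent.H757_X15.DD
namespace LA4

open Finset
open Pool.Agent.Y703.CQ (prs ext)

/-! ### the bilinear identity -/

lemma two_zero (a : ZMod 2) : a + a = 0 := CharTwo.add_self_eq_zero a

lemma zmod2_cases (a : ZMod 2) : a = 0 ∨ a = 1 := by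
  revert a; decide

lemma sq_self (a : ZMod 2) : a * a = a := by
  revert a; decide

/-- the form -/
def om {ι : Type} [Fintype ι] (a : ι → ZMod 2) (w w' : ι → ZMod 2) : ZMod 2 :=
  (∑ p, a p * w p) * (∑ p, a p * w' p) + ∑ p, a p * (w p * w' p)

/-- the Laplacian -/
def Lp {ι : Type} [Fintype ι] (M : ι → ι → ZMod 2) (a w : ι → ZMod 2) (p : ι) : ZMod 2 :=
  ∑ q, M p q * (w q + w p) + a p * w p

lemma bil {ι : Type} [Fintype ι] (M : ι → ι → ZMod 2) (a w w' : ι → ZMod 2)
    (h : ∀ p q, p ≠ q → M p q + M q p = a p * a q) :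
    ∑ p, w' p * Lp M a w p + ∑ p, w p * Lp M a w' p = om a w w' := by
  have key : ∀ p q, (M p q + M q p + a p * a q) * (w' p * w q) =
      if p = q then a p * (w p * w' p) else 0 := by
    intro p q
    split_ifs with hpq
    · subst hpq
      have := two_zero (M p p)
      have h2 := sq_self (a p)
      rw [this, h2]; ring
    · rw [h p q hpq, two_zero, zero_mul]
  have hsum : ∑ p, ∑ q, (M p q + M q p + a p * a q) * (w' p * w q) =
      ∑ p, a p * (w p * w' p) := by
    apply Finset.sum_congr rfl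
    intro p _
    rw [Finset.sum_congr rfl (fun q _ => key p q)]
    simp
  have hexp : ∑ p, ∑ q, (M p q + M q p + a p * a q) * (w' p * w q) =
      ∑ p, ∑ q, M p q * (w' p * w q) + ∑ p, ∑ q, M p q * (w p * w' q) +
        (∑ p, a p * w p) * (∑ p, a p * w' p) := by
    have e1 : ∑ p, ∑ q, M p q * (w p * w' q) = ∑ p, ∑ q, M q p * (w' p * w q) := by
      rw [Finset.sum_comm]
      apply Finset.sum_congr rfl; intro p _
      apply Finset.sum_congr rfl; intro q _
      ring
    rw [e1, mul_comm (∑ p, a p * w p), Finset.sum_mul_sum, ← Finset.sum_add_distrib,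
      ← Finset.sum_add_distrib]
    apply Finset.sum_congr rfl; intro p _
    rw [← Finset.sum_add_distrib, ← Finset.sum_add_distrib]
    apply Finset.sum_congr rfl; intro q _
    ring
  have hL : ∀ x z : ι → ZMod 2, ∑ p, z p * Lp M a x p =
      ∑ p, ∑ q, M p q * (z p * x q) + ∑ p, ∑ q, M p q * (z p * x p) +
        ∑ p, a p * (x p * z p) := by
    intro x z
    rw [← Finset.sum_add_distrib, ← Finset.sum_add_distrib]
    apply Finset.sum_congr rfl; intro p _
    rw [Lp, mul_add, Finset.mul_sum, ← Finset.sum_add_distrib]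
    congr 1
    · apply Finset.sum_congr rfl; intro q _
      ring
    · ring
  rw [hL w w', hL w' w]
  have e2 : ∑ p, ∑ q, M p q * (w p * w' p) = ∑ p, ∑ q, M p q * (w' p * w p) := by
    apply Finset.sum_congr rfl; intro p _
    apply Finset.sum_congr rfl; intro q _
    ring
  have e3 : ∑ p, a p * (w' p * w p) = ∑ p, a p * (w p * w' p) := by
    apply Finset.sum_congr rfl; intro p _
    ring
  rw [e2, e3]
  rw [hexp] at hsum
  unfold om
  have t1 := two_zero (∑ p, ∑ q, M p q * (w' p * w p))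
  have t2 := two_zero (∑ p, a p * (w p * w' p))
  have t3 := two_zero ((∑ p, a p * w p) * (∑ p, a p * w' p))
  linear_combination hsum + t1 + t2 - t3

lemma colsum {ι : Type} [Fintype ι] (M : ι → ι → ZMod 2) (a w : ι → ZMod 2)
    (h : ∀ p q, p ≠ q → M p q + M q p = a p * a q) (ha : ∑ p, a p = 0) :
    ∑ p, Lp M a w p = 0 := by
  have h1 := bil M a w (fun _ => 1) h
  have h2 : ∀ p, Lp M a (fun _ => 1) p = a p := by
    intro p
    unfold Lp
    have : (1 : ZMod 2) + 1 = 0 := two_zero 1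
    simp [this]
  simp only [h2, one_mul, om, mul_one, ha, mul_zero, zero_add] at h1
  have h3 : ∑ p, w p * a p = ∑ p, a p * w p := Finset.sum_congr rfl fun p _ => mul_comm _ _
  rw [h3] at h1
  linear_combination h1

/-! ### the matrices -/

variable {U J : Type} [Fintype U] [Fintype J] [LinearOrder J]

/-- the total matrix -/
def MM (A : U → U → ZMod 2) (C : J → U → ZMod 2) (f : U → ZMod 2) (g : J → ZMod 2)
    (R : J → J → ZMod 2) : U ⊕ J → U ⊕ J → ZMod 2
  | Sum.inl u, Sum.inl v => A u v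
  | Sum.inl u, Sum.inr l => C l u + f u * g l
  | Sum.inr k, Sum.inl u => C k u
  | Sum.inr k, Sum.inr l => R k l

lemma ext_of_lt (α : prs (univ : Finset J) → ZMod 2) {k l : J} (h : k < l) :
    ∃ hh : (k, l) ∈ prs (univ : Finset J), ext α k l = α ⟨(k, l), hh⟩ ∧
      ext α l k = α ⟨(k, l), hh⟩ := by
  have h1 : (k, l) ∈ prs (univ : Finset J) := by
    simp only [prs, mem_filter, mem_univ, true_and]
    exact ⟨h.ne', fun _ => h⟩
  have h2 : (l, k) ∉ prs (univ : Finset J) := by
    simp only [prs, mem_filter, mem_univ, true_and, not_and, not_forall]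
    intro _
    exact ⟨trivial, not_lt.mpr h.le⟩
  refine ⟨h1, ?_, ?_⟩
  · simp only [Pool.Agent.Y703.CQ.ext, h1, dif_pos]
  · have h3 : (k, l) ∈ prs (univ : Finset J) ∧ l ∈ (univ : Finset J) := ⟨h1, mem_univ _⟩
    simp only [Pool.Agent.Y703.CQ.ext, h2]
    rw [dif_neg not_false, dif_pos h3]

lemma ext_symm (α : prs (univ : Finset J) → ZMod 2) (k l : J) : ext α k l = ext α l k := by
  rcases lt_trichotomy k l with h | h | h
  · obtain ⟨hh, h1, h2⟩ := ext_of_lt α h
    rw [h1, h2]
  · rw [h]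
  · obtain ⟨hh, h1, h2⟩ := ext_of_lt α h
    rw [h1, h2]

lemma MM_symm (A : U → U → ZMod 2) (C : J → U → ZMod 2) (f : U → ZMod 2) (g : J → ZMod 2)
    (α : prs (univ : Finset J) → ZMod 2)
    (hA : ∀ u v, u ≠ v → A u v = A v u + f u * f v) :
    ∀ p q, p ≠ q → MM A C f g (rec g α) p q + MM A C f g (rec g α) q p =
      Sum.elim f g p * Sum.elim f g q := by
  rintro (u | k) (v | l) hpq
  · have huv : u ≠ v := fun h => hpq (by rw [h])
    simp only [MM, Sum.elim_inl]
    rw [hA u v huv]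
    have := two_zero (A v u)
    linear_combination this
  · simp only [MM, Sum.elim_inl, Sum.elim_inr]
    have := two_zero (C l u)
    linear_combination this
  · simp only [MM, Sum.elim_inl, Sum.elim_inr]
    have := two_zero (C k v)
    linear_combination this
  · have hkl : k ≠ l := fun h => hpq (by rw [h])
    simp only [MM, Sum.elim_inr, rec]
    rw [ext_symm α k l]
    have h2 := two_zero (ext α l k)
    rcases lt_or_gt_of_ne hkl with h | h
    · rw [if_neg (not_lt.mpr h.le), if_pos h]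
      linear_combination h2
    · rw [if_pos h, if_neg (not_lt.mpr h.le)]
      linear_combination h2

lemma Lp_inl (A : U → U → ZMod 2) (C : J → U → ZMod 2) (f : U → ZMod 2) (g : J → ZMod 2)
    (R : J → J → ZMod 2) (w : U ⊕ J → ZMod 2) (u : U) :
    Lp (MM A C f g R) (Sum.elim f g) w (Sum.inl u) =
      ∑ v, A u v * (w (Sum.inl v) + w (Sum.inl u)) +
        ∑ l, (C l u + f u * g l) * (w (Sum.inr l) + w (Sum.inl u)) + f u * w (Sum.inl u) := by
  simp [Lp, Fintype.sum_sum_type, MM]

lemma Lp_inr (A : U → U → ZMod 2) (C : J → U → ZMod 2) (f : U → ZMod 2) (g : J → ZMod 2)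
    (R : J → J → ZMod 2) (w : U ⊕ J → ZMod 2) (k : J) :
    Lp (MM A C f g R) (Sum.elim f g) w (Sum.inr k) =
      ∑ u, C k u * (w (Sum.inl u) + w (Sum.inr k)) +
        ∑ l, R k l * (w (Sum.inr l) + w (Sum.inr k)) + g k * w (Sum.inr k) := by
  simp [Lp, Fintype.sum_sum_type, MM]

/-- the Laplacian as a linear map -/
def LpL {ι : Type} [Fintype ι] (M : ι → ι → ZMod 2) (a : ι → ZMod 2) :
    (ι → ZMod 2) →ₗ[ZMod 2] (ι → ZMod 2) where
  toFun w p := Lp M a w p
  map_add' x y := by
    funext p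
    simp only [Lp, Pi.add_apply]
    have : ∀ q, M p q * (x q + y q + (x p + y p)) = M p q * (x q + x p) + M p q * (y q + y p) := by
      intro q; ring
    simp only [this, Finset.sum_add_distrib]
    ring
  map_smul' c x := by
    funext p
    simp only [Lp, Pi.smul_apply, smul_eq_mul, RingHom.id_apply]
    have : ∀ q, M p q * (c * x q + c * x p) = c * (M p q * (x q + x p)) := by
      intro q; ring
    simp only [this, ← Finset.mul_sum]
    ring

/-- a linear functional -/
def fnl {ι : Type} [Fintype ι] (β : ι → ZMod 2) : (ι → ZMod 2) →ₗ[ZMod 2] ZMod 2 where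
  toFun w := ∑ p, β p * w p
  map_add' x y := by
    simp only [Pi.add_apply, mul_add, Finset.sum_add_distrib]
  map_smul' c x := by
    simp only [Pi.smul_apply, smul_eq_mul, RingHom.id_apply, Finset.mul_sum]
    exact Finset.sum_congr rfl fun p _ => by ring

/-- the kernel -/
def KK (A : U → U → ZMod 2) (C : J → U → ZMod 2) (f b : U → ZMod 2) (g h : J → ZMod 2)
    (R : J → J → ZMod 2) : Submodule (ZMod 2) (U ⊕ J → ZMod 2) :=
  LinearMap.ker (LpL (MM A C f g R) (Sum.elim f g)) ⊓ LinearMap.ker (fnl (Sum.elim b h))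

lemma mem_KK (A : U → U → ZMod 2) (C : J → U → ZMod 2) (f b : U → ZMod 2) (g h : J → ZMod 2)
    (R : J → J → ZMod 2) (w : U ⊕ J → ZMod 2) : w ∈ KK A C f b g h R ↔
      (∀ p, Lp (MM A C f g R) (Sum.elim f g) w p = 0) ∧ ∑ p, Sum.elim b h p * w p = 0 := by
  simp only [KK, Submodule.mem_inf, LinearMap.mem_ker]
  refine and_congr ?_ Iff.rfl
  exact funext_iff

/-- the map of the deterministic equations -/
def Ph (A : U → U → ZMod 2) (C : J → U → ZMod 2) (f b : U → ZMod 2) (g h : J → ZMod 2) :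
    (U ⊕ J → ZMod 2) →ₗ[ZMod 2] (U → ZMod 2) × ZMod 2 :=
  LinearMap.prod ((LinearMap.funLeft (ZMod 2) (ZMod 2) Sum.inl).comp
    (LpL (MM A C f g 0) (Sum.elim f g))) (fnl (Sum.elim b h))

/-- the space of the deterministic equations -/
def V0 (A : U → U → ZMod 2) (C : J → U → ZMod 2) (f b : U → ZMod 2) (g h : J → ZMod 2) :
    Submodule (ZMod 2) (U ⊕ J → ZMod 2) := LinearMap.ker (Ph A C f b g h)

lemma mem_V0 (A : U → U → ZMod 2) (C : J → U → ZMod 2) (f b : U → ZMod 2) (g h : J → ZMod 2)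
    (R : J → J → ZMod 2) (w : U ⊕ J → ZMod 2) : w ∈ V0 A C f b g h ↔
      (∀ u, Lp (MM A C f g R) (Sum.elim f g) w (Sum.inl u) = 0) ∧
        ∑ p, Sum.elim b h p * w p = 0 := by
  rw [V0, LinearMap.mem_ker]
  show ((fun u => Lp (MM A C f g 0) (Sum.elim f g) w (Sum.inl u)),
    ∑ p, Sum.elim b h p * w p) = (0 : (U → ZMod 2) × ZMod 2) ↔ _
  rw [Prod.ext_iff]
  refine and_congr ?_ Iff.rfl
  simp only [Lp_inl, Prod.fst_zero]
  exact funext_iff

lemma mem_KK_iff (A : U → U → ZMod 2) (C : J → U → ZMod 2) (f b : U → ZMod 2) (g h : J → ZMod 2)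
    (R : J → J → ZMod 2) (w : U ⊕ J → ZMod 2) : w ∈ KK A C f b g h R ↔ w ∈ V0 A C f b g h ∧
      ∀ k, Lp (MM A C f g R) (Sum.elim f g) w (Sum.inr k) = 0 := by
  rw [mem_KK, mem_V0 A C f b g h R, Sum.forall]
  tauto

lemma GdA_iff (A : U → U → ZMod 2) (C : J → U → ZMod 2) (f b : U → ZMod 2) (g h : J → ZMod 2)
    (R : J → J → ZMod 2) : GdA A C f b g h R ↔ KK A C f b g h R = ⊥ := by
  rw [Submodule.eq_bot_iff]
  constructor
  · intro H w hw
    rw [mem_KK, Sum.forall] at hw
    obtain ⟨⟨h1, h2⟩, h3⟩ := hw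
    simp only [Lp_inl] at h1
    simp only [Lp_inr] at h2
    simp only [Fintype.sum_sum_type, Sum.elim_inl, Sum.elim_inr] at h3
    obtain ⟨h4, h5⟩ := H (fun u => w (Sum.inl u)) (fun k => w (Sum.inr k)) h1 h2 h3
    funext p
    rcases p with u | k
    · exact h4 u
    · exact h5 k
  · intro H x y h1 h2 h3
    have := H (Sum.elim x y) (by
      rw [mem_KK, Sum.forall]
      simp only [Lp_inl, Lp_inr, Fintype.sum_sum_type, Sum.elim_inl, Sum.elim_inr]
      exact ⟨⟨h1, h2⟩, h3⟩)
    exact ⟨fun u => congrFun this (Sum.inl u), fun k => congrFun this (Sum.inr k)⟩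

/-! ### the projection to the functions on `J` modulo constants -/

/-- the functions on `J` modulo constants -/
abbrev WW (J : Type) : Type := (J → ZMod 2) ⧸ Submodule.span (ZMod 2) {(fun _ => 1 : J → ZMod 2)}

/-- the projection -/
def pr (U J : Type) : (U ⊕ J → ZMod 2) →ₗ[ZMod 2] WW J :=
  (Submodule.mkQ _).comp (LinearMap.funLeft (ZMod 2) (ZMod 2) Sum.inr)

lemma pr_eq_zero (w : U ⊕ J → ZMod 2) : pr U J w = 0 ↔ ∃ t, ∀ k, w (Sum.inr k) = t := by
  show Submodule.Quotient.mk (fun k => w (Sum.inr k)) = (0 : WW J) ↔ _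
  rw [Submodule.Quotient.mk_eq_zero, Submodule.mem_span_singleton]
  constructor
  · rintro ⟨t, ht⟩
    refine ⟨t, fun k => ?_⟩
    have := congrFun ht k
    simpa using this.symm
  · rintro ⟨t, ht⟩
    refine ⟨t, ?_⟩
    funext k
    simp [ht k]

/-- nondegeneracy -/
def Nn (C : J → U → ZMod 2) (g h : J → ZMod 2) : Prop :=
  ∀ (w : U → ZMod 2) (t s : ZMod 2), ((∃ u, w u ≠ 0) ∨ t ≠ 0 ∨ s ≠ 0) →
    ∃ k, ∑ u, w u * C k u + t * g k + s * h k ≠ 0

lemma Nn.zero {C : J → U → ZMod 2} {g h : J → ZMod 2} (H : Nn C g h) (w : U → ZMod 2)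
    (t s : ZMod 2) (h0 : ∀ k, ∑ u, w u * C k u + t * g k + s * h k = 0) :
    (∀ u, w u = 0) ∧ t = 0 ∧ s = 0 := by
  by_contra hc
  have : (∃ u, w u ≠ 0) ∨ t ≠ 0 ∨ s ≠ 0 := by
    by_contra hc2
    push Not at hc2
    exact hc hc2
  obtain ⟨k, hk⟩ := H w t s this
  exact hk (h0 k)

lemma KK_inj (A : U → U → ZMod 2) (C : J → U → ZMod 2) (f b : U → ZMod 2) (g h : J → ZMod 2)
    (R : J → J → ZMod 2) (H : Nn C g h) (w : U ⊕ J → ZMod 2) (hw : w ∈ KK A C f b g h R)
    (hp : pr U J w = 0) : w = 0 := by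
  obtain ⟨t, ht⟩ := (pr_eq_zero w).mp hp
  rw [mem_KK_iff] at hw
  obtain ⟨-, h1⟩ := hw
  simp only [Lp_inr, ht] at h1
  have h2 : ∀ k, ∑ u, (w (Sum.inl u) + t) * C k u + t * g k + 0 * h k = 0 := by
    intro k
    have h3 := h1 k
    rw [two_zero] at h3
    simp only [mul_zero, Finset.sum_const_zero, add_zero] at h3
    have : ∑ u, (w (Sum.inl u) + t) * C k u = ∑ u, C k u * (w (Sum.inl u) + t) :=
      Finset.sum_congr rfl fun u _ => mul_comm _ _
    linear_combination h3 + this
  obtain ⟨h4, h5, -⟩ := H.zero _ _ _ h2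
  funext p
  rcases p with u | k
  · have := h4 u
    rw [h5, add_zero] at this
    simpa using this
  · rw [ht k, h5]; rfl

lemma Ph_surj (A : U → U → ZMod 2) (C : J → U → ZMod 2) (f b : U → ZMod 2) (g h : J → ZMod 2)
    (H : Nn C g h) : Function.Surjective (Ph A C f b g h) := by
  rw [← LinearMap.range_eq_top]
  by_contra hne
  obtain ⟨ψ, hψ0, hψ⟩ := Submodule.exists_le_ker_of_lt_top _ (lt_top_iff_ne_top.mpr hne)
  have hz : ∀ e, ψ (Ph A C f b g h e) = 0 := fun e => hψ ⟨e, rfl⟩
  set w : U → ZMod 2 := fun u => ψ (Pi.single u 1, 0) with hw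
  set s : ZMod 2 := ψ (0, 1) with hs
  have hψe : ∀ z : (U → ZMod 2) × ZMod 2, ψ z = ∑ u, w u * z.1 u + s * z.2 := by
    intro z
    have h1 : z = ∑ u, z.1 u • ((Pi.single u 1 : U → ZMod 2), (0 : ZMod 2)) +
        z.2 • ((0 : U → ZMod 2), (1 : ZMod 2)) := by
      apply Prod.ext
      · funext v
        simp [Prod.fst_sum, Finset.sum_apply, Pi.single_apply]
      · simp [Prod.snd_sum]
    conv_lhs => rw [h1]
    rw [map_add, map_sum, map_smul]
    simp only [map_smul, smul_eq_mul]
    congr 1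
    · exact Finset.sum_congr rfl fun u _ => mul_comm _ _
    · exact mul_comm _ _
  have h2 : ∀ l, ∑ u, w u * C l u + (∑ u, w u * f u) * g l + s * h l = 0 := by
    intro l
    have h3 := hz (Pi.single (Sum.inr l) 1)
    rw [hψe] at h3
    have h4 : ∀ u, (Ph A C f b g h (Pi.single (Sum.inr l) 1)).1 u = C l u + f u * g l := by
      intro u
      show Lp (MM A C f g 0) (Sum.elim f g) (Pi.single (Sum.inr l) 1) (Sum.inl u) = _
      rw [Lp_inl]
      simp [Pi.single_apply]
    have h5 : (Ph A C f b g h (Pi.single (Sum.inr l) 1)).2 = h l := by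
      show ∑ p, Sum.elim b h p * (Pi.single (Sum.inr l) 1 : U ⊕ J → ZMod 2) p = _
      simp [Pi.single_apply]
    simp only [h4, h5] at h3
    rw [← h3, Finset.sum_mul, ← Finset.sum_add_distrib]
    congr 1
    exact Finset.sum_congr rfl fun u _ => by ring
  obtain ⟨h6, -, h7⟩ := H.zero _ _ _ h2
  apply hψ0
  ext z
  · simp [hψe, h6, h7]
  · simp [hψe, h6, h7]

lemma card_V0 (A : U → U → ZMod 2) (C : J → U → ZMod 2) (f b : U → ZMod 2) (g h : J → ZMod 2)
    (H : Nn C g h) : Fintype.card (V0 A C f b g h) * 2 = 2 ^ Fintype.card J := by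
  have h1 := LinearMap.finrank_range_add_finrank_ker (Ph A C f b g h)
  rw [LinearMap.range_eq_top.mpr (Ph_surj A C f b g h H), finrank_top] at h1
  simp only [Module.finrank_prod, Module.finrank_fintype_fun_eq_card, Module.finrank_self,
    Fintype.card_sum] at h1
  have h2 : Fintype.card (V0 A C f b g h) = 2 ^ Module.finrank (ZMod 2) (V0 A C f b g h) := by
    rw [Module.card_eq_pow_finrank (K := ZMod 2), ZMod.card]
  rw [h2, ← pow_succ]
  congr 1
  have h3 : Module.finrank (ZMod 2) (V0 A C f b g h) =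
    Module.finrank (ZMod 2) (LinearMap.ker (Ph A C f b g h)) := rfl
  omega

/-! ### counting the tuples of the kernel -/

/-- the number of the tuples of a subspace, independent modulo constants -/
noncomputable def TT (K : Submodule (ZMod 2) (U ⊕ J → ZMod 2)) (j : ℕ) : ℕ :=
  (univ.filter fun w : Fin j → (U ⊕ J → ZMod 2) =>
    LinearIndependent (ZMod 2) (fun i => pr U J (w i)) ∧ ∀ i, w i ∈ K).card

lemma TT_card (K : Submodule (ZMod 2) (U ⊕ J → ZMod 2)) (hK : ∀ w ∈ K, pr U J w = 0 → w = 0)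
    (j : ℕ) : TT K j = Nat.card {s : Fin j → K // LinearIndependent (ZMod 2) s} := by
  rw [Nat.card_eq_fintype_card, Fintype.card_subtype, TT]
  have hker : LinearMap.ker ((pr U J).comp K.subtype) = ⊥ := by
    rw [LinearMap.ker_eq_bot']
    rintro ⟨w, hw⟩ h0
    exact Subtype.ext (hK w hw h0)
  symm
  apply Finset.card_bij (fun (s : Fin j → K) _ => fun i => (s i : U ⊕ J → ZMod 2))
  · intro s hs
    simp only [mem_filter, mem_univ, true_and] at hs ⊢
    exact ⟨hs.map' _ hker, fun i => (s i).2⟩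
  · intro s _ s' _ hss
    funext i
    exact Subtype.ext (congrFun hss i)
  · intro w hw
    simp only [mem_filter, mem_univ, true_and] at hw
    refine ⟨fun i => ⟨w i, hw.2 i⟩, ?_, rfl⟩
    simp only [mem_filter, mem_univ, true_and]
    exact LinearIndependent.of_comp ((pr U J).comp K.subtype) hw.1

lemma TT_eq (K : Submodule (ZMod 2) (U ⊕ J → ZMod 2)) (hK : ∀ w ∈ K, pr U J w = 0 → w = 0)
    (j : ℕ) : (TT K j : ℝ) = ∏ i ∈ range j, ((2 : ℝ) ^ (Module.finrank (ZMod 2) K) - 2 ^ i) := by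
  rw [TT_card K hK]
  rcases le_or_gt j (Module.finrank (ZMod 2) K) with hj | hj
  · rw [card_linearIndependent hj, ZMod.card, Nat.cast_prod,
      Finset.prod_range (fun i => ((2 : ℝ) ^ (Module.finrank (ZMod 2) K) - 2 ^ i))]
    apply Finset.prod_congr rfl
    intro i _
    rw [Nat.cast_sub (Nat.pow_le_pow_right (by norm_num) (i.2.le.trans hj))]
    push_cast
    rfl
  · have h0 : Nat.card {s : Fin j → K // LinearIndependent (ZMod 2) s} = 0 := by
      have : IsEmpty {s : Fin j → K // LinearIndependent (ZMod 2) s} := by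
        refine ⟨fun s => ?_⟩
        have := s.2.fintype_card_le_finrank
        rw [Fintype.card_fin] at this
        omega
      exact Nat.card_of_isEmpty
    rw [h0, Nat.cast_zero]
    symm
    apply Finset.prod_eq_zero (mem_range.mpr hj)
    rw [sub_self]

/-- the indicator of the trivial kernel -/
lemma indic (h1 : S_LA1) (K : Submodule (ZMod 2) (U ⊕ J → ZMod 2))
    (hK : ∀ w ∈ K, pr U J w = 0 → w = 0) (N : ℕ) (hN : Fintype.card U + Fintype.card J < N) :
    ∑ j ∈ range N, (-1 : ℝ) ^ j * (TT K j : ℝ) / ∏ i ∈ range j, ((2 : ℝ) ^ (i + 1) - 1) =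
      if K = ⊥ then 1 else 0 := by
  set r := Module.finrank (ZMod 2) K with hr
  have hrN : r + 1 ≤ N := by
    have := Submodule.finrank_le K
    rw [Module.finrank_fintype_fun_eq_card, Fintype.card_sum] at this
    omega
  have h2 := h1.1 r
  have h3 : ∑ j ∈ range N, (-1 : ℝ) ^ j * (TT K j : ℝ) /
      ∏ i ∈ range j, ((2 : ℝ) ^ (i + 1) - 1) = ∑ j ∈ range (r + 1), (-1 : ℝ) ^ j *
      (∏ i ∈ range j, ((2 : ℝ) ^ r - 2 ^ i)) / ∏ i ∈ range j, ((2 : ℝ) ^ (i + 1) - 1) := by
    symm
    rw [← Finset.sum_subset (Finset.range_mono hrN)]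
    · exact Finset.sum_congr rfl fun j _ => by rw [TT_eq K hK]
    · intro j _ hj
      rw [mem_range, not_lt] at hj
      rw [TT_eq K hK, Finset.prod_eq_zero (mem_range.mpr (show r < j by omega)) (sub_self _)]
      simp
  rw [h3, h2]
  have h4 : r = 0 ↔ K = ⊥ := Submodule.finrank_eq_zero
  simp only [h4]

/-! ### the completions with given vectors in the kernel -/

lemma indep_cons [Nonempty J] {j : ℕ} (w : Fin j → (U ⊕ J → ZMod 2))
    (h : LinearIndependent (ZMod 2) (fun i => pr U J (w i))) :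
    LinearIndependent (ZMod 2) (Fin.cons (fun _ => 1) (fun i k => w i (Sum.inr k)) :
      Fin (j + 1) → J → ZMod 2) := by
  rw [linearIndependent_finCons]
  constructor
  · exact LinearIndependent.of_comp
      (Submodule.mkQ (Submodule.span (ZMod 2) {(fun _ => 1 : J → ZMod 2)})) h
  · intro hm
    rw [Submodule.mem_span_range_iff_exists_fun] at hm
    obtain ⟨c, hc⟩ := hm
    rw [Fintype.linearIndependent_iff] at h
    have h1 : ∑ i, c i • pr U J (w i) = 0 := by
      rw [← Finset.sum_congr rfl (fun i _ => map_smul (pr U J) (c i) (w i)), ← map_sum,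
        pr_eq_zero]
      refine ⟨1, fun k => ?_⟩
      have := congrFun hc k
      simpa [Finset.sum_apply] using this
    have h2 := h c h1
    simp only [h2, zero_smul, Finset.sum_const_zero] at hc
    have h3 := congrFun hc (Classical.arbitrary J)
    exact zero_ne_one h3

lemma ext_zero (k l : J) : ext (0 : prs (univ : Finset J) → ZMod 2) k l = 0 := by
  rcases lt_trichotomy k l with h | h | h
  · obtain ⟨hh, h1, h2⟩ := ext_of_lt (0 : prs (univ : Finset J) → ZMod 2) h
    rw [h1]; rfl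
  · subst h
    have h2 : (k, k) ∉ prs (univ : Finset J) := by
      simp [prs]
    simp only [Pool.Agent.Y703.CQ.ext, h2]
    rw [dif_neg not_false, dif_neg (by simp)]
  · obtain ⟨hh, h1, h2⟩ := ext_of_lt (0 : prs (univ : Finset J) → ZMod 2) h
    rw [h2]; rfl

lemma Lp_split (A : U → U → ZMod 2) (C : J → U → ZMod 2) (f : U → ZMod 2) (g : J → ZMod 2)
    (α : prs (univ : Finset J) → ZMod 2) (w : U ⊕ J → ZMod 2) (k : J) :
    Lp (MM A C f g (rec g α)) (Sum.elim f g) w (Sum.inr k) =
      ∑ l, ext α k l * (w (Sum.inr l) + w (Sum.inr k)) +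
        Lp (MM A C f g (rec g 0)) (Sum.elim f g) w (Sum.inr k) := by
  rw [Lp_inr, Lp_inr]
  have : ∑ l, rec g α k l * (w (Sum.inr l) + w (Sum.inr k)) =
      ∑ l, ext α k l * (w (Sum.inr l) + w (Sum.inr k)) +
        ∑ l, rec g 0 k l * (w (Sum.inr l) + w (Sum.inr k)) := by
    rw [← Finset.sum_add_distrib]
    refine Finset.sum_congr rfl fun l _ => ?_
    simp only [rec, ext_zero]
    ring
  rw [this]; ring

lemma eq_iff_add (x y : ZMod 2) : x + y = 0 ↔ x = y := by
  revert x y; decide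

lemma count (h2 : S_LA2) [Nonempty J] (A : U → U → ZMod 2) (C : J → U → ZMod 2)
    (f b : U → ZMod 2) (g h : J → ZMod 2)
    (hA : ∀ u v, u ≠ v → A u v = A v u + f u * f v) (hs : ∑ u, f u + ∑ l, g l = 0)
    (j : ℕ) (w : Fin j → (U ⊕ J → ZMod 2))
    (hw : LinearIndependent (ZMod 2) (fun i => pr U J (w i))) :
    ((univ.filter fun α : prs (univ : Finset J) → ZMod 2 =>
      ∀ i, w i ∈ KK A C f b g h (rec g α)).card : ℝ) * 2 ^ (Fintype.card J * j) =
    if (∀ i, w i ∈ V0 A C f b g h) ∧ (∀ i i', om (Sum.elim f g) (w i) (w i') = 0)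
      then (2 : ℝ) ^ ((prs (univ : Finset J)).card + j + j.choose 2) else 0 := by
  by_cases hV : ∀ i, w i ∈ V0 A C f b g h
  · have h3 := h2 J j (fun i k => w i (Sum.inr k))
      (fun i k => Lp (MM A C f g (rec g 0)) (Sum.elim f g) (w i) (Sum.inr k)) (indep_cons w hw)
    have hM := MM_symm A C f g 0 hA
    have hV0 : ∀ i u, Lp (MM A C f g (rec g 0)) (Sum.elim f g) (w i) (Sum.inl u) = 0 :=
      fun i => ((mem_V0 A C f b g h (rec g 0) (w i)).mp (hV i)).1
    have h4 : (univ.filter fun α : prs (univ : Finset J) → ZMod 2 =>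
        ∀ i, w i ∈ KK A C f b g h (rec g α)) =
        (univ.filter fun α : prs (univ : Finset J) → ZMod 2 => ∀ i k,
          ∑ l, ext α k l * (w i (Sum.inr l) + w i (Sum.inr k)) =
          Lp (MM A C f g (rec g 0)) (Sum.elim f g) (w i) (Sum.inr k)) := by
      apply Finset.filter_congr
      intro α _
      refine forall_congr' fun i => ?_
      rw [mem_KK_iff]
      simp only [hV i, true_and, Lp_split A C f g α, eq_iff_add]
    rw [h4, h3]
    have h5 : ∀ i, ∑ k, Lp (MM A C f g (rec g 0)) (Sum.elim f g) (w i) (Sum.inr k) = 0 := by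
      intro i
      have := colsum (MM A C f g (rec g 0)) (Sum.elim f g) (w i) hM (by
        rw [Fintype.sum_sum_type]; simpa using hs)
      rw [Fintype.sum_sum_type] at this
      simpa [hV0 i] using this
    have h6 : ∀ i i', ∑ k, (w i' (Sum.inr k) *
        Lp (MM A C f g (rec g 0)) (Sum.elim f g) (w i) (Sum.inr k) +
        w i (Sum.inr k) * Lp (MM A C f g (rec g 0)) (Sum.elim f g) (w i') (Sum.inr k)) =
        om (Sum.elim f g) (w i) (w i') := by
      intro i i'
      rw [← bil (MM A C f g (rec g 0)) (Sum.elim f g) (w i) (w i') hM, Fintype.sum_sum_type,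
        Fintype.sum_sum_type]
      simp only [hV0, mul_zero, Finset.sum_const_zero, zero_add]
      rw [Finset.sum_add_distrib]
    simp only [h5, h6, hV, implies_true, true_and]
  · rw [if_neg (fun hh => hV hh.1)]
    have : (univ.filter fun α : prs (univ : Finset J) → ZMod 2 =>
        ∀ i, w i ∈ KK A C f b g h (rec g α)) = ∅ := by
      rw [Finset.filter_eq_empty_iff]
      intro α _ hα
      exact hV fun i => ((mem_KK_iff A C f b g h (rec g α) (w i)).mp (hα i)).1
    rw [this]; simp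

/-- the form as a bilinear map -/
def omL {ι : Type} [Fintype ι] (a : ι → ZMod 2) :
    (ι → ZMod 2) →ₗ[ZMod 2] (ι → ZMod 2) →ₗ[ZMod 2] ZMod 2 :=
  LinearMap.mk₂ (ZMod 2) (om a)
    (by intro x y z; simp only [om, Pi.add_apply, mul_add, add_mul, Finset.sum_add_distrib]; ring)
    (by
      intro c x y
      simp only [om, Pi.smul_apply, smul_eq_mul]
      have e1 : ∑ p, a p * (c * x p) = c * ∑ p, a p * x p := by
        rw [Finset.mul_sum]; exact Finset.sum_congr rfl fun p _ => by ring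
      have e2 : ∑ p, a p * (c * x p * y p) = c * ∑ p, a p * (x p * y p) := by
        rw [Finset.mul_sum]; exact Finset.sum_congr rfl fun p _ => by ring
      rw [e1, e2]; ring)
    (by intro x y z; simp only [om, Pi.add_apply, mul_add, Finset.sum_add_distrib]; ring)
    (by
      intro c x y
      simp only [om, Pi.smul_apply, smul_eq_mul]
      have e1 : ∑ p, a p * (c * y p) = c * ∑ p, a p * y p := by
        rw [Finset.mul_sum]; exact Finset.sum_congr rfl fun p _ => by ring
      have e2 : ∑ p, a p * (x p * (c * y p)) = c * ∑ p, a p * (x p * y p) := by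
        rw [Finset.mul_sum]; exact Finset.sum_congr rfl fun p _ => by ring
      rw [e1, e2]; ring)

lemma omL_apply {ι : Type} [Fintype ι] (a : ι → ZMod 2) (x y : ι → ZMod 2) :
    omL a x y = om a x y := rfl

lemma om_self {ι : Type} [Fintype ι] (a : ι → ZMod 2) (x : ι → ZMod 2) : om a x x = 0 := by
  unfold om
  rw [sq_self]
  have : ∀ p, a p * (x p * x p) = a p * x p := fun p => by rw [sq_self]
  simp only [this]
  exact two_zero _

/-- the form on `V0` -/
noncomputable def omV (a : U ⊕ J → ZMod 2) (V : Submodule (ZMod 2) (U ⊕ J → ZMod 2)) :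
    V →ₗ[ZMod 2] V →ₗ[ZMod 2] ZMod 2 := (omL a).compl₁₂ V.subtype V.subtype

/-- the number of the isotropic tuples -/
noncomputable def NN (a : U ⊕ J → ZMod 2) (V : Submodule (ZMod 2) (U ⊕ J → ZMod 2)) (j : ℕ) : ℕ :=
  (univ.filter fun w : Fin j → V => LinearIndependent (ZMod 2)
    (fun i => ((pr U J).comp V.subtype) (w i)) ∧ ∀ i i', omV a V (w i) (w i') = 0).card

lemma sum_TT (h2 : S_LA2) [Nonempty J] (A : U → U → ZMod 2) (C : J → U → ZMod 2)
    (f b : U → ZMod 2) (g h : J → ZMod 2)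
    (hA : ∀ u v, u ≠ v → A u v = A v u + f u * f v) (hs : ∑ u, f u + ∑ l, g l = 0)
    (j : ℕ) :
    (∑ α : prs (univ : Finset J) → ZMod 2, (TT (KK A C f b g h (rec g α)) j : ℝ)) *
      2 ^ (Fintype.card J * j) =
    (NN (Sum.elim f g) (V0 A C f b g h) j : ℝ) *
      2 ^ ((prs (univ : Finset J)).card + j + j.choose 2) := by
  have h3 : ∑ α : prs (univ : Finset J) → ZMod 2, (TT (KK A C f b g h (rec g α)) j : ℝ) =
      ∑ w ∈ (univ.filter fun w : Fin j → (U ⊕ J → ZMod 2) =>
        LinearIndependent (ZMod 2) (fun i => pr U J (w i))),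
        ((univ.filter fun α : prs (univ : Finset J) → ZMod 2 =>
          ∀ i, w i ∈ KK A C f b g h (rec g α)).card : ℝ) := by
    have e1 : ∀ α : prs (univ : Finset J) → ZMod 2, (TT (KK A C f b g h (rec g α)) j : ℝ) =
        ∑ w ∈ (univ.filter fun w : Fin j → (U ⊕ J → ZMod 2) =>
          LinearIndependent (ZMod 2) (fun i => pr U J (w i))),
          if ∀ i, w i ∈ KK A C f b g h (rec g α) then (1 : ℝ) else 0 := by
      intro α
      rw [TT, ← Finset.filter_filter, Finset.card_filter]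
      push_cast
      rfl
    simp only [e1]
    rw [Finset.sum_comm]
    refine Finset.sum_congr rfl fun w _ => ?_
    rw [Finset.card_filter]
    push_cast
    rfl
  rw [h3, Finset.sum_mul]
  have h4 : ∀ w ∈ (univ.filter fun w : Fin j → (U ⊕ J → ZMod 2) =>
        LinearIndependent (ZMod 2) (fun i => pr U J (w i))),
        ((univ.filter fun α : prs (univ : Finset J) → ZMod 2 =>
          ∀ i, w i ∈ KK A C f b g h (rec g α)).card : ℝ) * 2 ^ (Fintype.card J * j) =
      if (∀ i, w i ∈ V0 A C f b g h) ∧ (∀ i i', om (Sum.elim f g) (w i) (w i') = 0)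
      then (2 : ℝ) ^ ((prs (univ : Finset J)).card + j + j.choose 2) else 0 := by
    intro w hw
    rw [mem_filter] at hw
    exact count h2 A C f b g h hA hs j w hw.2
  rw [Finset.sum_congr rfl h4, ← Finset.sum_filter, Finset.filter_filter, Finset.sum_const,
    nsmul_eq_mul]
  congr 1
  rw [Nat.cast_inj, NN]
  symm
  apply Finset.card_bij (fun (s : Fin j → V0 A C f b g h) _ => fun i => (s i : U ⊕ J → ZMod 2))
  · intro s hs
    simp only [mem_filter, mem_univ, true_and] at hs ⊢
    exact ⟨hs.1, fun i => (s i).2, hs.2⟩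
  · intro s _ s' _ hss
    funext i
    exact Subtype.ext (congrFun hss i)
  · intro w hw
    simp only [mem_filter, mem_univ, true_and] at hw
    refine ⟨fun i => ⟨w i, hw.2.1 i⟩, ?_, rfl⟩
    simp only [mem_filter, mem_univ, true_and]
    exact ⟨hw.1, hw.2.2⟩

/-! ### the bounds for the radical and the kernel of the projection -/

lemma ker_bound [Nonempty J] (V : Submodule (ZMod 2) (U ⊕ J → ZMod 2)) :
    (univ.filter fun v : V => ((pr U J).comp V.subtype) v = 0).card ≤
      2 ^ (Fintype.card U + 1) := by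
  have h1 : (univ : Finset ((U → ZMod 2) × ZMod 2)).card = 2 ^ (Fintype.card U + 1) := by
    rw [Finset.card_univ, Fintype.card_prod, Fintype.card_fun, ZMod.card, pow_succ]
  rw [← h1]
  apply Finset.card_le_card_of_injOn (fun v : V => ((fun u => (v : U ⊕ J → ZMod 2) (Sum.inl u)),
    (v : U ⊕ J → ZMod 2) (Sum.inr (Classical.arbitrary J))))
  · intro v _; exact mem_coe.mpr (mem_univ _)
  · intro v hv v' hv' hvv
    simp only [coe_filter, mem_univ, true_and, Set.mem_ofPred_eq, LinearMap.comp_apply,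
      Submodule.subtype_apply, pr_eq_zero] at hv hv'
    obtain ⟨t, ht⟩ := hv
    obtain ⟨t', ht'⟩ := hv'
    simp only [Prod.mk.injEq, ht, ht'] at hvv
    apply Subtype.ext
    funext p
    rcases p with u | k
    · exact congrFun hvv.1 u
    · rw [ht, ht', hvv.2]

lemma rad_bound (A : U → U → ZMod 2) (C : J → U → ZMod 2) (f b : U → ZMod 2) (g h : J → ZMod 2)
    (H : Nn C g h) :
    (univ.filter fun v : V0 A C f b g h =>
      ∀ v', omV (Sum.elim f g) (V0 A C f b g h) v v' = 0).card ≤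
      2 ^ (Fintype.card U + 2 + Fintype.card {p : U ⊕ J // (Sum.elim f g p : ZMod 2) = 0}) := by
  set a : U ⊕ J → ZMod 2 := Sum.elim f g with ha
  obtain ⟨G, hG⟩ := LinearMap.exists_rightInverse_of_surjective (Ph A C f b g h)
    (LinearMap.range_eq_top.mpr (Ph_surj A C f b g h H))
  have h1 : (univ : Finset (((U → ZMod 2) × ZMod 2) × (ZMod 2 × ({p : U ⊕ J // a p = 0} →
      ZMod 2)))).card = 2 ^ (Fintype.card U + 2 + Fintype.card {p : U ⊕ J // a p = 0}) := by
    rw [Finset.card_univ, Fintype.card_prod, Fintype.card_prod, Fintype.card_prod,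
      Fintype.card_fun, Fintype.card_fun, ZMod.card]
    ring
  rw [← h1]
  apply Finset.card_le_card_of_injOn (fun v : V0 A C f b g h =>
    (((fun u => om a v (G (Pi.single u 1, 0))), om a v (G (0, 1))),
      ((∑ p, a p * (v : U ⊕ J → ZMod 2) p), fun p => (v : U ⊕ J → ZMod 2) p.1)))
  · intro v _; exact mem_coe.mpr (mem_univ _)
  · intro v hv v' hv' hvv
    simp only [coe_filter, mem_univ, true_and, Set.mem_ofPred_eq] at hv hv'
    simp only [Prod.mk.injEq] at hvv
    obtain ⟨⟨e1, e2⟩, e3, e4⟩ := hvv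
    set d : U ⊕ J → ZMod 2 := (v : U ⊕ J → ZMod 2) - v' with hd
    have hdom : ∀ e, omL a d e = om a v e - om a v' e := by
      intro e
      rw [hd, map_sub, LinearMap.sub_apply]; rfl
    have hdG : (omL a d).comp G = 0 := by
      apply LinearMap.ext
      intro z
      have h1 : z = ∑ u, z.1 u • ((Pi.single u 1 : U → ZMod 2), (0 : ZMod 2)) +
          z.2 • ((0 : U → ZMod 2), (1 : ZMod 2)) := by
        apply Prod.ext
        · funext v
          simp [Prod.fst_sum, Finset.sum_apply, Pi.single_apply]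
        · simp [Prod.snd_sum]
      rw [h1]
      simp only [map_add, map_sum, map_smul, LinearMap.comp_apply, hdom, LinearMap.zero_apply]
      have e1' : ∀ u, om a v (G (Pi.single u 1, 0)) - om a v' (G (Pi.single u 1, 0)) = 0 := by
        intro u
        rw [sub_eq_zero]
        exact congrFun e1 u
      simp only [e1', e2, sub_self, smul_zero, Finset.sum_const_zero, add_zero]
    have hdV : ∀ e ∈ V0 A C f b g h, omL a d e = 0 := by
      intro e he
      rw [hdom]
      have e5 : om a v e = 0 := hv ⟨e, he⟩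
      have e6 : om a v' e = 0 := hv' ⟨e, he⟩
      rw [e5, e6, sub_self]
    have hdall : ∀ e, omL a d e = 0 := by
      intro e
      have e7 : e - G (Ph A C f b g h e) ∈ V0 A C f b g h := by
        rw [V0, LinearMap.mem_ker, map_sub]
        have := LinearMap.congr_fun hG (Ph A C f b g h e)
        rw [LinearMap.comp_apply, LinearMap.id_apply] at this
        rw [this, sub_self]
      have e8 := hdV _ e7
      have e9 := LinearMap.congr_fun hdG (Ph A C f b g h e)
      rw [LinearMap.comp_apply, LinearMap.zero_apply] at e9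
      rw [map_sub, e9, sub_zero] at e8
      exact e8
    have had : ∑ p, a p * d p = 0 := by
      simp only [hd, Pi.sub_apply, mul_sub, Finset.sum_sub_distrib, e3, sub_self]
    have hd0 : d = 0 := by
      funext p
      rcases zmod2_cases (a p) with hp | hp
      · have := congrFun e4 ⟨p, hp⟩
        simp only [hd, Pi.sub_apply, Pi.zero_apply, sub_eq_zero]
        exact this
      · have := hdall (Pi.single p 1)
        rw [omL_apply, om, had, zero_mul, zero_add] at this
        simpa [Pi.single_apply, hp] using this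
    apply Subtype.ext
    rw [hd, sub_eq_zero] at hd0
    exact hd0

lemma zero_card (f : U → ZMod 2) (g : J → ZMod 2) :
    Fintype.card {p : U ⊕ J // (Sum.elim f g p : ZMod 2) = 0} +
      (univ.filter fun k => g k = 1).card ≤ Fintype.card U + Fintype.card J := by
  have h1 : (univ.filter fun k => g k = 1).card ≤
      (univ.filter fun p : U ⊕ J => ¬ (Sum.elim f g p : ZMod 2) = 0).card := by
    apply Finset.card_le_card_of_injOn Sum.inr
    · intro k hk
      simp only [coe_filter, mem_univ, true_and, Set.mem_ofPred_eq] at hk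
      simp [hk]
    · exact Sum.inr_injective.injOn
  rw [Fintype.card_subtype]
  have h2 := Finset.card_filter_add_card_filter_not (s := (univ : Finset (U ⊕ J)))
    (fun p : U ⊕ J => (Sum.elim f g p : ZMod 2) = 0)
  rw [Finset.card_univ, Fintype.card_sum] at h2
  omega

/-! ### the analytic part -/

lemma geo (a N : ℕ) (h : a ≤ N) : ∑ j ∈ Ico a N, (4 : ℝ) / 2 ^ j = 8 / 2 ^ a - 8 / 2 ^ N := by
  induction N, h using Nat.le_induction with
  | base => simp
  | succ n hn ih =>
    rw [Finset.sum_Ico_succ_top hn, ih, pow_succ]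
    field_simp
    ring

/-- the denominators -/
noncomputable def PP (j : ℕ) : ℝ := ∏ i ∈ range j, ((2 : ℝ) ^ (i + 1) - 1)

lemma one_le_PP (j : ℕ) : 1 ≤ PP j := by
  unfold PP
  induction j with
  | zero => simp
  | succ n ih =>
    rw [Finset.prod_range_succ]
    have : (1 : ℝ) ≤ 2 ^ (n + 1) - 1 := by
      have : (1 : ℝ) ≤ 2 ^ n := one_le_pow₀ (by norm_num)
      rw [pow_succ]; linarith
    nlinarith

lemma ana (hLA : S_LA1) (ε : ℝ) (hε : 0 < ε) : ∃ V : ℕ, ∀ (N : ℕ) (E : ℕ → ℝ), V ≤ N →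
    (∀ j, |E j - 1| ≤ 2 ^ ((j + 1) ^ 2) * (16 / 2 ^ V)) → (∀ j, E j ≤ 2 ^ (j.choose 2)) →
    (∀ j, 0 ≤ E j) → |∑ j ∈ range N, (-1 : ℝ) ^ j * E j / PP j - c1| ≤ ε := by
  obtain ⟨-, hsum, hb, -, -⟩ := hLA
  have hP0 : ∀ j, 0 < PP j := fun j => lt_of_lt_of_le one_pos (one_le_PP j)
  have hb1 : ∀ j : ℕ, 1 / PP j ≤ 4 / 2 ^ j := by
    intro j
    refine le_trans ?_ (hb j)
    apply div_le_div_of_nonneg_right _ (hP0 j).le
    exact one_le_pow₀ (by norm_num)
  have htail : ∀ J0 : ℕ, |∑ j ∈ range J0, (-1 : ℝ) ^ j / PP j - c1| ≤ 8 / 2 ^ J0 := by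
    intro J0
    have ht := hsum.tendsto_sum_nat
    have ht2 : Filter.Tendsto (fun n => |∑ j ∈ range J0, (-1 : ℝ) ^ j / PP j -
      ∑ j ∈ range n, (-1 : ℝ) ^ j / PP j|) Filter.atTop
        (nhds |∑ j ∈ range J0, (-1 : ℝ) ^ j / PP j - c1|) :=
      (ht.const_sub _).abs
    refine le_of_tendsto ht2 ?_
    filter_upwards [Filter.eventually_ge_atTop J0] with n hn
    rw [← Finset.sum_range_add_sum_Ico _ hn, sub_add_cancel_left, abs_neg]
    calc |∑ j ∈ Ico J0 n, (-1 : ℝ) ^ j / PP j| ≤ ∑ j ∈ Ico J0 n, |(-1 : ℝ) ^ j / PP j| :=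
          Finset.abs_sum_le_sum_abs _ _
      _ ≤ ∑ j ∈ Ico J0 n, (4 : ℝ) / 2 ^ j := by
          apply Finset.sum_le_sum
          intro j _
          rw [abs_div, abs_pow, abs_neg, abs_one, one_pow, abs_of_pos (hP0 j)]
          exact hb1 j
      _ = 8 / 2 ^ J0 - 8 / 2 ^ n := geo _ _ hn
      _ ≤ 8 / 2 ^ J0 := by
          have : (0 : ℝ) < 8 / 2 ^ n := by positivity
          linarith
  obtain ⟨J0, hJ0⟩ := exists_pow_lt_of_lt_one (show (0 : ℝ) < ε / 32 by positivity)
    (show (1 / 2 : ℝ) < 1 by norm_num)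
  obtain ⟨V1, hV1⟩ := exists_pow_lt_of_lt_one
    (show (0 : ℝ) < ε / (2 * (16 * (J0 + 1) * 2 ^ ((J0 + 1) ^ 2))) by positivity)
    (show (1 / 2 : ℝ) < 1 by norm_num)
  refine ⟨max J0 V1, fun N E hN h1 h2 h3 => ?_⟩
  have hJN : J0 ≤ N := le_trans (le_max_left _ _) hN
  rw [← Finset.sum_range_add_sum_Ico _ hJN]
  have hA : |∑ j ∈ range J0, (-1 : ℝ) ^ j * E j / PP j - ∑ j ∈ range J0, (-1 : ℝ) ^ j / PP j| ≤
      J0 * (2 ^ ((J0 + 1) ^ 2) * (16 / 2 ^ (max J0 V1))) := by
    rw [← Finset.sum_sub_distrib]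
    refine (Finset.abs_sum_le_sum_abs _ _).trans ?_
    have : ∀ j ∈ range J0, |(-1 : ℝ) ^ j * E j / PP j - (-1 : ℝ) ^ j / PP j| ≤
        2 ^ ((J0 + 1) ^ 2) * (16 / 2 ^ (max J0 V1)) := by
      intro j hj
      rw [mem_range] at hj
      have e1 : (-1 : ℝ) ^ j * E j / PP j - (-1 : ℝ) ^ j / PP j =
        (-1 : ℝ) ^ j * (E j - 1) / PP j := by ring
      rw [e1, abs_div, abs_mul, abs_pow, abs_neg, abs_one, one_pow, one_mul, abs_of_pos (hP0 j)]
      calc |E j - 1| / PP j ≤ |E j - 1| := div_le_self (abs_nonneg _) (one_le_PP j)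
        _ ≤ 2 ^ ((j + 1) ^ 2) * (16 / 2 ^ (max J0 V1)) := h1 j
        _ ≤ 2 ^ ((J0 + 1) ^ 2) * (16 / 2 ^ (max J0 V1)) := by
            apply mul_le_mul_of_nonneg_right _ (by positivity)
            apply pow_le_pow_right₀ (by norm_num)
            exact Nat.pow_le_pow_left (by omega) 2
    refine (Finset.sum_le_sum this).trans ?_
    rw [Finset.sum_const, Finset.card_range, nsmul_eq_mul]
  have hB : |∑ j ∈ Ico J0 N, (-1 : ℝ) ^ j * E j / PP j| ≤ 8 / 2 ^ J0 := by
    calc |∑ j ∈ Ico J0 N, (-1 : ℝ) ^ j * E j / PP j|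
        ≤ ∑ j ∈ Ico J0 N, |(-1 : ℝ) ^ j * E j / PP j| := Finset.abs_sum_le_sum_abs _ _
      _ ≤ ∑ j ∈ Ico J0 N, (4 : ℝ) / 2 ^ j := by
          apply Finset.sum_le_sum
          intro j _
          rw [abs_div, abs_mul, abs_pow, abs_neg, abs_one, one_pow, one_mul, abs_of_pos (hP0 j),
            abs_of_nonneg (h3 j)]
          refine le_trans ?_ (hb j)
          exact div_le_div_of_nonneg_right (h2 j) (hP0 j).le
      _ = 8 / 2 ^ J0 - 8 / 2 ^ N := geo _ _ hJN
      _ ≤ 8 / 2 ^ J0 := by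
          have : (0 : ℝ) < 8 / 2 ^ N := by positivity
          linarith
  have hC := htail J0
  have e8 : (8 : ℝ) / 2 ^ J0 ≤ ε / 4 := by
    have : (8 : ℝ) / 2 ^ J0 = 8 * (1 / 2) ^ J0 := by
      rw [one_div, inv_pow]; rfl
    rw [this]; linarith
  have e9 : (J0 : ℝ) * (2 ^ ((J0 + 1) ^ 2) * (16 / 2 ^ (max J0 V1))) ≤ ε / 2 := by
    have e10 : (16 : ℝ) / 2 ^ (max J0 V1) ≤ 16 * (1 / 2) ^ V1 := by
      rw [one_div, inv_pow, div_eq_mul_inv]
      apply mul_le_mul_of_nonneg_left _ (by norm_num)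
      apply inv_anti₀ (by positivity)
      exact pow_le_pow_right₀ (by norm_num) (le_max_right _ _)
    have e11 : (1 / 2 : ℝ) ^ V1 * (2 * (16 * (J0 + 1) * 2 ^ ((J0 + 1) ^ 2))) < ε := by
      rwa [lt_div_iff₀ (by positivity)] at hV1
    calc (J0 : ℝ) * (2 ^ ((J0 + 1) ^ 2) * (16 / 2 ^ (max J0 V1)))
        ≤ (J0 + 1) * (2 ^ ((J0 + 1) ^ 2) * (16 * (1 / 2) ^ V1)) := by
          apply mul_le_mul (by linarith) _ (by positivity) (by positivity)
          exact mul_le_mul_of_nonneg_left e10 (by positivity)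
      _ ≤ ε / 2 := by
          have : ((J0 : ℝ) + 1) * (2 ^ ((J0 + 1) ^ 2) * (16 * (1 / 2) ^ V1)) =
            (1 / 2 : ℝ) ^ V1 * (2 * (16 * (J0 + 1) * 2 ^ ((J0 + 1) ^ 2))) / 2 := by ring
          rw [this]; linarith
  rw [abs_le] at hA hB hC ⊢
  constructor <;> linarith [hA.1, hA.2, hB.1, hB.2, hC.1, hC.2]

end LA4

open Finset LA4
open Pool.Agent.Y703.CQ (prs ext)

/-- D-LA4: the assembly. -/
theorem t_LA4 : S_LA4 := by
  intro hLA1 hLA2 hLA3 ε hε
  obtain ⟨V, hV⟩ := ana hLA1 ε hε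
  refine ⟨V, ?_⟩
  intro U J _ _ _ A C f b g h hA hs hnd hcard
  have H : Nn C g h := hnd
  set m := Fintype.card U with hm
  set n := Fintype.card J with hn
  set n3 := (univ.filter fun k => g k = 1).card with hn3
  have hn3n : n3 ≤ n := by
    rw [hn3, hn, ← Finset.card_univ]
    exact Finset.card_le_card (Finset.filter_subset _ _)
  have hJ : Nonempty J := by
    rw [← Fintype.card_pos_iff]
    omega
  set P := (prs (univ : Finset J)).card with hP
  set V₀ := V0 A C f b g h with hV₀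
  set a : U ⊕ J → ZMod 2 := Sum.elim f g with ha
  set vc : ℝ := (Fintype.card V₀ : ℝ) with hvc
  have hvc2 : vc * 2 = 2 ^ n := by
    have := card_V0 A C f b g h H
    rw [hvc]
    exact_mod_cast this
  have hvc0 : 0 < vc := by
    have : (0 : ℝ) < 2 ^ n := by positivity
    linarith
  -- the expectation
  set E : ℕ → ℝ := fun j => (NN a V₀ j : ℝ) * 2 ^ (j.choose 2) / vc ^ j with hE
  have hETT : ∀ j, ∑ α : prs (univ : Finset J) → ZMod 2, (TT (KK A C f b g h (rec g α)) j : ℝ) =
      2 ^ P * E j := by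
    intro j
    have h1 := sum_TT hLA2 A C f b g h hA hs j
    have h2 : vc ^ j * 2 ^ j = 2 ^ (n * j) := by
      rw [← mul_pow, hvc2, pow_mul]
    have h3 : (2 : ℝ) ^ (n * j) ≠ 0 := by positivity
    have h4 : vc ^ j ≠ 0 := by positivity
    rw [← mul_left_inj' h3, h1, hE]
    simp only
    rw [← h2, pow_add, pow_add]
    field_simp
    exact mul_comm _ _
  have hgood : ((univ.filter fun α : prs (univ : Finset J) → ZMod 2 =>
      GdA A C f b g h (rec g α)).card : ℝ) =
      2 ^ P * ∑ j ∈ range (m + n + 1), (-1 : ℝ) ^ j * E j / PP j := by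
    have e1 : ∀ α : prs (univ : Finset J) → ZMod 2,
        ∑ j ∈ range (m + n + 1), (-1 : ℝ) ^ j * (TT (KK A C f b g h (rec g α)) j : ℝ) / PP j =
        if KK A C f b g h (rec g α) = ⊥ then 1 else 0 := fun α =>
      indic hLA1 _ (fun w hw => KK_inj A C f b g h (rec g α) H w hw) (m + n + 1) (by omega)
    rw [Finset.card_filter]
    push_cast
    simp only [GdA_iff]
    rw [← Finset.sum_congr rfl (fun α _ => e1 α), Finset.sum_comm, Finset.mul_sum]
    refine Finset.sum_congr rfl fun j _ => ?_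
    rw [← Finset.sum_div, ← Finset.mul_sum, hETT]
    ring
  rw [hgood, mul_div_assoc, mul_comm, div_mul_eq_mul_div, mul_div_assoc, div_self (by positivity),
    mul_one]
  apply hV
  · omega
  · -- the second moment type bound
    intro j
    have h3 := hLA3 V₀ (WW J) (omV a V₀) ((pr U J).comp V₀.subtype) (fun v => om_self a v) j
    have h4 : ((univ.filter fun v : V₀ => ((pr U J).comp V₀.subtype) v = 0).card : ℝ) ≤
        2 ^ (m + 1) := by
      exact_mod_cast ker_bound V₀
    have h5 : ((univ.filter fun v : V₀ => ∀ v', omV a V₀ v v' = 0).card : ℝ) ≤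
        2 ^ (m + 2 + Fintype.card {p : U ⊕ J // a p = 0}) := by
      exact_mod_cast rad_bound A C f b g h H
    have h6 := zero_card f g
    set z := Fintype.card {p : U ⊕ J // a p = 0} with hz
    change z + n3 ≤ m + n at h6
    have h7 : (((univ.filter fun v : V₀ => ∀ v', omV a V₀ v v' = 0).card : ℝ) +
        ((univ.filter fun v : V₀ => ((pr U J).comp V₀.subtype) v = 0).card : ℝ)) / vc ≤
        16 / 2 ^ V := by
      rw [div_le_div_iff₀ hvc0 (by positivity)]
      have e1 : ((2 : ℝ) ^ (m + 1) + 2 ^ (m + 2 + z)) * 2 ^ V ≤ 16 * vc := by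
        have e2 : (16 : ℝ) * vc = 2 ^ (n + 2) + 2 ^ (n + 2) := by
          rw [pow_add]
          linarith [hvc2]
        rw [e2, add_mul, ← pow_add, ← pow_add]
        apply add_le_add
        · exact pow_le_pow_right₀ (by norm_num) (by omega)
        · exact pow_le_pow_right₀ (by norm_num) (by omega)
      refine le_trans ?_ e1
      apply mul_le_mul_of_nonneg_right _ (by positivity)
      linarith
    have h8 : E j - 1 = ((NN a V₀ j : ℝ) * 2 ^ (j.choose 2) - vc ^ j) / vc ^ j := by
      rw [sub_div, div_self (by positivity)]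
    rw [h8, abs_div, abs_of_pos (show 0 < vc ^ j by positivity), div_le_iff₀ (by positivity)]
    refine le_trans h3 ?_
    have h9 : vc ^ j * 2 ^ ((j + 1) ^ 2) * (16 / 2 ^ V) =
      2 ^ ((j + 1) ^ 2) * (16 / 2 ^ V) * vc ^ j := by ring
    rw [← h9, mul_div_assoc]
    exact mul_le_mul_of_nonneg_left h7 (by positivity)
  · intro j
    rw [hE]
    simp only
    rw [div_le_iff₀ (by positivity), mul_comm]
    apply mul_le_mul_of_nonneg_left _ (by positivity)
    have h1 : NN a V₀ j ≤ (univ : Finset (Fin j → V₀)).card :=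
      Finset.card_le_card (Finset.filter_subset _ _)
    rw [Finset.card_univ, Fintype.card_fun, Fintype.card_fin] at h1
    rw [hvc]
    exact_mod_cast h1
  · intro j
    rw [hE]
    positivity

end Pool.Agent.H757_X15.DD
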