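import Pool.Agent.H757_X15.DN.Den2

/-!
Project X15-D, part LOW: the class has positive density.
-/

set_option autoImplicit false

open scoped Classical

namespace Pool.Agent.H757_X15.DD

open Finset Filter Topology

theorem card_class_le (X : ℕ) :
    ((Icc 1 X).filter fun D => Squarefree D ∧ Fm D).card ≤ (SS X).card := by
  apply card_le_card_of_injOn (fun D => D.primeFactors)
  · intro D hD
    rw [mem_coe, mem_filter, mem_Icc] at hD
    obtain ⟨⟨h1, h2⟩, h3, h4⟩ := hD
    rw [mem_coe]
    unfold SS
    rw [mem_filter, mem_powerset]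
    have hprod : ∏ p ∈ D.primeFactors, p = D := Nat.prod_primeFactors_of_squarefree h3
    refine ⟨?_, ⟨?_, ?_⟩, ?_⟩
    · intro p hp
      rw [mem_range]
      have := Nat.le_of_dvd (by omega) (Nat.dvd_of_mem_primeFactors hp)
      omega
    · intro p hp
      refine ⟨Nat.prime_of_mem_primeFactors hp, ?_⟩
      rintro rfl
      have h5 := Nat.dvd_of_mem_primeFactors hp
      unfold Fm at h4
      omega
    · rw [hprod]
      exact h4
    · rw [hprod]
      exact h2
  · intro D hD D' hD' h
    rw [mem_coe, mem_filter] at hD hD'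
    rw [← Nat.prod_primeFactors_of_squarefree hD.2.1, ← Nat.prod_primeFactors_of_squarefree hD'.2.1]
    exact congrArg (fun S => ∏ p ∈ S, p) h

/-- LOW: the class has positive density. -/
theorem t_LOW : S_LOW := by
  have h := t_DEN2
  unfold S_DEN2 at h
  have hpi : 0 < Real.pi ^ 2 := by positivity
  have hlt : (5 / (32 * Real.pi ^ 2) : ℝ) < 5 / (16 * Real.pi ^ 2) := by
    apply div_lt_div_of_pos_left (by norm_num) (by positivity)
    linarith
  obtain ⟨X₀, hX₀⟩ := eventually_atTop.1 (h.eventually (lt_mem_nhds hlt))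
  refine ⟨5 / (32 * Real.pi ^ 2), max X₀ 1, by positivity, fun X hX => ?_⟩
  have h1 := hX₀ X (le_trans (le_max_left _ _) hX)
  have hX1 : 1 ≤ X := le_trans (le_max_right _ _) hX
  have hX0 : (0 : ℝ) < X := by exact_mod_cast hX1
  rw [lt_div_iff₀ hX0] at h1
  refine h1.le.trans ?_
  exact_mod_cast card_class_le X

end Pool.Agent.H757_X15.DD
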