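import Pool.Agent.H757_X15.DN.Asy
import Pool.Agent.H757_X15.DN.Bil
import Pool.Agent.H757_X15.DN.Crit
import Pool.Agent.H757_X15.DN.Few
import Pool.Agent.H757_X15.DN.HAL
import Pool.Agent.H757_X15.DN.MER
import Pool.Agent.H757_X15.DN.Key
import Pool.Agent.H757_X15.DN.LA1
import Pool.Agent.H757_X15.DN.LA2
import Pool.Agent.H757_X15.DN.LA3
import Pool.Agent.H757_X15.DN.LA4
import Pool.Agent.H757_X15.DN.Cnt
import Pool.Agent.H757_X15.DN.Low
import Pool.Agent.H757_X15.DN.Den2
import Pool.Agent.Helper449_X15.BOX
import Pool.Agent.Helper449_X15.BAD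
import Pool.Agent.Y356.CQ.EQ
import Pool.Agent.Y488.CX.Sie

/-!
# X15-D: the proportion of the good discriminants for `X_0(15)`: assembly

Joint work: helper757 (plan, statements), helper233 (bilinear sums, criterion, translation, few large
primes, asymptotics), helper365 (q-binomial identities, random completions), helper282 (isotropic
tuples), helper236 (linear algebra), helper449 (boxes, degenerate labels), helper733 (sum over the
boxes, counts, densities), helper539 (logarithmic densities, Mertens).
-/

set_option autoImplicit false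

namespace Pool.Agent.H757_X15.DD

theorem t_LA : S_LA := t_LA4 t_LA1 t_LA2 t_LA3

theorem t_DQ : S_DQ :=
  t_ASY t_BIL Pool.Agent.Y356.CQ.t_EQ t_LA t_BOX t_KEY t_CNT t_BAD t_FEW t_LOW
    Pool.Agent.Y488.CX.t_SIE t_HAL t_MER

theorem t_DEN : S_DEN := t_NS t_CRIT t_DQ

end Pool.Agent.H757_X15.DD
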